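import Mathlib

/-!
# Convex-cyclic vectors of `-100 + S`, `S` a contraction of a real normed space
-/

set_option autoImplicit false

open Filter Topology Polynomial ContinuousLinearMap

namespace Pool.Agent.Q201.CC

section maj

/-- coefficientwise domination -/
def Maj (q P : ℝ[X]) : Prop := ∀ i, |q.coeff i| ≤ P.coeff i

theorem Maj.nonneg {q P : ℝ[X]} (h : Maj q P) (i : ℕ) : 0 ≤ P.coeff i := (abs_nonneg _).trans (h i)

theorem Maj.add {q P q' P' : ℝ[X]} (h : Maj q P) (h' : Maj q' P') : Maj (q + q') (P + P') := by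
  intro i
  rw [coeff_add, coeff_add]
  exact (abs_add_le _ _).trans (add_le_add (h i) (h' i))

theorem Maj.sub {q P q' P' : ℝ[X]} (h : Maj q P) (h' : Maj q' P') : Maj (q - q') (P + P') := by
  intro i
  rw [coeff_add, coeff_sub]
  exact (abs_sub _ _).trans (add_le_add (h i) (h' i))

theorem Maj.mul {q P q' P' : ℝ[X]} (h : Maj q P) (h' : Maj q' P') : Maj (q * q') (P * P') := by
  intro i
  rw [coeff_mul, coeff_mul]
  refine (Finset.abs_sum_le_sum_abs _ _).trans (Finset.sum_le_sum fun p _ => ?_)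
  rw [abs_mul]
  exact mul_le_mul (h _) (h' _) (abs_nonneg _) (h.nonneg _)

theorem Maj.pow {q P : ℝ[X]} (h : Maj q P) (n : ℕ) : Maj (q ^ n) (P ^ n) := by
  induction n with
  | zero =>
    intro i
    rw [pow_zero, pow_zero, coeff_one]
    split_ifs <;> simp
  | succ n ih => rw [pow_succ, pow_succ]; exact ih.mul h

theorem Maj.C {c : ℝ} (hc : 0 ≤ c) : Maj (C c) (Polynomial.C c) := by
  intro i
  rw [coeff_C]
  split_ifs
  · rw [abs_of_nonneg hc]
  · simp

theorem Maj.X : Maj X (X : ℝ[X]) := by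
  intro i
  rw [coeff_X]
  split_ifs <;> simp

end maj

/-- the auxiliary polynomials -/
noncomputable def ee : ℕ → ℝ[X]
  | 0 => C (-(1 / 100)) * X
  | k + 1 => C 3 * ee k ^ 2 - C 2 * ee k ^ 3

/-- majorants -/
noncomputable def PP : ℕ → ℝ[X]
  | 0 => C (1 / 100) * X
  | k + 1 => C 3 * PP k ^ 2 + C 2 * PP k ^ 3

theorem maj_ee (k : ℕ) : Maj (ee k) (PP k) := by
  induction k with
  | zero =>
    intro i
    simp only [ee, PP]
    rw [coeff_C_mul, coeff_C_mul, coeff_X, abs_mul]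
    split_ifs <;> norm_num
  | succ k ih =>
    simp only [ee, PP]
    exact ((Maj.C (by norm_num)).mul (ih.pow 2)).sub ((Maj.C (by norm_num)).mul (ih.pow 3))

/-- the decay rate -/
noncomputable def xx (k : ℕ) : ℝ := (7 / 50) * (1 / 2) ^ k

theorem xx_pos (k : ℕ) : 0 < xx k := by unfold xx; positivity

theorem xx_le (k : ℕ) : xx k ≤ 7 / 50 := by
  unfold xx
  have : (1 / 2 : ℝ) ^ k ≤ 1 := pow_le_one₀ (by norm_num) (by norm_num)
  linarith

theorem xx_step (k : ℕ) (t : ℝ) (h0 : 0 ≤ t) (h1 : t ≤ xx k) : 3 * t ^ 2 + 2 * t ^ 3 ≤ xx (k + 1) := by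
  have h2 := xx_le k
  have h3 : xx (k + 1) = xx k / 2 := by unfold xx; ring
  rw [h3]
  have h4 : t ≤ 7 / 50 := h1.trans h2
  have h5 : 3 * t ^ 2 + 2 * t ^ 3 = t * (3 * t + 2 * t ^ 2) := by ring
  rw [h5]
  have h6 : 3 * t + 2 * t ^ 2 ≤ 1 / 2 := by nlinarith
  nlinarith

theorem PP_eval (k : ℕ) : 0 ≤ (PP k).eval 14 ∧ (PP k).eval 14 ≤ xx k := by
  induction k with
  | zero =>
    simp only [PP, xx]
    constructor <;> norm_num
  | succ k ih =>
    simp only [PP]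
    rw [eval_add, eval_mul, eval_mul, eval_C, eval_C, eval_pow, eval_pow]
    exact ⟨by have := ih.1; positivity, xx_step k _ ih.1 ih.2⟩

theorem xx_tendsto : Tendsto xx atTop (𝓝 0) := by
  have := (tendsto_pow_atTop_nhds_zero_of_lt_one (r := (1 / 2 : ℝ)) (by norm_num) (by norm_num)).const_mul
    (7 / 50 : ℝ)
  rw [mul_zero] at this
  exact this

theorem choose_ge (k : ℕ) : 8 ^ k ≤ (8 * k).choose k := by
  induction k with
  | zero => simp
  | succ k ih =>
    have h1 : 8 * (k + 1) = (8 * k + 7) + 1 := by ring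
    have h2 := Nat.add_one_mul_choose_eq (8 * k + 7) k
    rw [h1]
    have h3 : (8 * k).choose k ≤ (8 * k + 7).choose k := Nat.choose_le_choose k (by omega)
    have h4 : (k + 1) * (8 * (8 * k + 7).choose k) = (8 * k + 7 + 1).choose (k + 1) * (k + 1) := by
      rw [← h2]
      ring
    have h5 : 8 * (8 * k + 7).choose k = (8 * k + 7 + 1).choose (k + 1) := by
      have := Nat.eq_of_mul_eq_mul_left (Nat.succ_pos k) (h4.trans (mul_comm _ _))
      exact this
    rw [← h5, pow_succ]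
    omega

variable {H : Type*} [NormedAddCommGroup H] [NormedSpace ℝ H]

/-- The operator. -/
noncomputable def TT (S : H →L[ℝ] H) : H →L[ℝ] H := (-100 : ℝ) • (1 : H →L[ℝ] H) + S

theorem smul_one_norm (c : ℝ) : ‖c • (1 : H →L[ℝ] H)‖ ≤ |c| := by
  rw [norm_smul, Real.norm_eq_abs]
  exact mul_le_of_le_one_right (abs_nonneg _) norm_id_le

theorem TT_norm {S : H →L[ℝ] H} (hS : ‖S‖ ≤ 1) : ‖TT S‖ ≤ 101 := by
  unfold TT
  have := smul_one_norm (H := H) (-100)
  have h2 : |(-100 : ℝ)| = 100 := by norm_num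
  refine (norm_add_le _ _).trans ?_
  linarith

theorem pow_norm {A : H →L[ℝ] H} {c : ℝ} (hA : ‖A‖ ≤ c) (n : ℕ) : ‖A ^ n‖ ≤ c ^ n := by
  rcases Nat.eq_zero_or_pos n with h0 | h0
  · subst h0; rw [pow_zero, pow_zero]; exact norm_id_le
  · exact (norm_pow_le' _ h0).trans (pow_le_pow_left₀ (norm_nonneg _) hA n)

theorem binom (S : H →L[ℝ] H) (φ : H →L[ℝ] ℝ) (z : H) (m : ℕ) :
    ∑ k ∈ Finset.range (m + 1), (m.choose k : ℝ) * 100 ^ (m - k) * φ ((TT S ^ k) z) =
      φ ((S ^ m) z) := by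
  have h1 : S = TT S + (100 : ℝ) • (1 : H →L[ℝ] H) := by
    unfold TT
    rw [add_right_comm, ← add_smul]
    simp
  have hc : Commute (TT S) ((100 : ℝ) • (1 : H →L[ℝ] H)) := (Commute.one_right _).smul_right _
  have h2 := hc.add_pow m
  rw [← h1] at h2
  rw [h2, sum_apply, map_sum]
  refine Finset.sum_congr rfl fun k _ => ?_
  have h3 : (TT S ^ k * ((100 : ℝ) • (1 : H →L[ℝ] H)) ^ (m - k) * ((m.choose k : ℕ) : H →L[ℝ] H)) z =
      ((m.choose k : ℝ) * 100 ^ (m - k)) • (TT S ^ k) z := by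
    rw [_root_.smul_pow, one_pow, mul_smul_comm, mul_one, ← nsmul_eq_mul', smul_apply, smul_apply]
    rw [← Nat.cast_smul_eq_nsmul ℝ, smul_smul]
  rw [h3, map_smul, smul_eq_mul]

theorem growth {S : H →L[ℝ] H} (hS : ‖S‖ ≤ 1) (φ : H →L[ℝ] ℝ) (z : H) (M : ℝ)
    (h : ∀ n : ℕ, φ ((TT S ^ n) z) ≤ M) :
    ∃ C : ℝ, 0 ≤ C ∧ ∀ n : ℕ, |φ ((TT S ^ n) z)| ≤ C * 14 ^ n := by
  set M' : ℝ := max M 0
  have hM0 : 0 ≤ M' := le_max_right _ _
  have h' : ∀ n : ℕ, φ ((TT S ^ n) z) ≤ M' := fun n => (h n).trans (le_max_left _ _)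
  set D : ℝ := M' + ‖φ‖ * ‖z‖ with hD
  have hD0 : 0 ≤ D := by positivity
  have ha : ∀ k : ℕ, M' - φ ((TT S ^ k) z) ≤ D * 14 ^ k := by
    intro k
    have e1 : ∑ i ∈ Finset.range (8 * k + 1), ((8 * k).choose i : ℝ) * 100 ^ (8 * k - i) *
        (M' - φ ((TT S ^ i) z)) = M' * 101 ^ (8 * k) - φ ((S ^ (8 * k)) z) := by
      rw [← binom S φ z (8 * k)]
      have e2 : (101 : ℝ) ^ (8 * k) = ∑ i ∈ Finset.range (8 * k + 1),
          ((8 * k).choose i : ℝ) * 100 ^ (8 * k - i) := by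
        have := add_pow (1 : ℝ) 100 (8 * k)
        norm_num at this
        rw [this]
        exact Finset.sum_congr rfl fun i _ => mul_comm _ _
      rw [e2, Finset.mul_sum, ← Finset.sum_sub_distrib]
      exact Finset.sum_congr rfl fun i _ => by ring
    have e3 : M' * 101 ^ (8 * k) - φ ((S ^ (8 * k)) z) ≤ D * 101 ^ (8 * k) := by
      have h1 : |φ ((S ^ (8 * k)) z)| ≤ ‖φ‖ * ‖z‖ := by
        refine (φ.le_opNorm _).trans (mul_le_mul_of_nonneg_left ?_ (norm_nonneg _))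
        refine ((S ^ (8 * k)).le_opNorm _).trans ?_
        have := pow_norm hS (8 * k)
        rw [one_pow] at this
        exact mul_le_of_le_one_left (norm_nonneg _) this
      have h2 : (1 : ℝ) ≤ 101 ^ (8 * k) := one_le_pow₀ (by norm_num)
      have h3 := (abs_le.1 h1).1
      have h4 : ‖φ‖ * ‖z‖ ≤ ‖φ‖ * ‖z‖ * 101 ^ (8 * k) := le_mul_of_one_le_right (by positivity) h2
      rw [hD, add_mul]
      linarith
    have e4 : ((8 * k).choose k : ℝ) * 100 ^ (8 * k - k) * (M' - φ ((TT S ^ k) z)) ≤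
        ∑ i ∈ Finset.range (8 * k + 1), ((8 * k).choose i : ℝ) * 100 ^ (8 * k - i) *
        (M' - φ ((TT S ^ i) z)) := by
      refine Finset.single_le_sum (f := fun i => ((8 * k).choose i : ℝ) * 100 ^ (8 * k - i) *
        (M' - φ ((TT S ^ i) z))) (fun i _ => ?_) (Finset.mem_range.2 (by omega))
      have := h' i
      have h5 : 0 ≤ M' - φ ((TT S ^ i) z) := by linarith
      positivity
    have e5 : ((8 : ℝ) ^ k * (100 ^ 7) ^ k) * (M' - φ ((TT S ^ k) z)) ≤ D * (101 ^ 8) ^ k := by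
      have h5 : 0 ≤ M' - φ ((TT S ^ k) z) := by linarith [h' k]
      have h6 : (8 : ℝ) ^ k ≤ ((8 * k).choose k : ℝ) := by exact_mod_cast choose_ge k
      have h7 : 8 * k - k = 7 * k := by omega
      rw [h7, pow_mul] at e4
      rw [← pow_mul 101]
      calc ((8 : ℝ) ^ k * (100 ^ 7) ^ k) * (M' - φ ((TT S ^ k) z))
          ≤ ((8 * k).choose k : ℝ) * (100 ^ 7) ^ k * (M' - φ ((TT S ^ k) z)) := by
            refine mul_le_mul_of_nonneg_right ?_ h5
            exact mul_le_mul_of_nonneg_right h6 (by positivity)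
        _ ≤ _ := e4.trans (e1.le.trans e3)
    have e6 : (101 ^ 8 : ℝ) ^ k ≤ (8 * 100 ^ 7 * 14) ^ k :=
      pow_le_pow_left₀ (by positivity) (by norm_num) k
    rw [mul_pow, mul_pow] at e6
    have e7 : (0 : ℝ) < 8 ^ k * (100 ^ 7) ^ k := by positivity
    have e8 : (8 : ℝ) ^ k * (100 ^ 7) ^ k * (M' - φ ((TT S ^ k) z)) ≤
        (8 ^ k * (100 ^ 7) ^ k) * (D * 14 ^ k) := by
      refine e5.trans ((mul_le_mul_of_nonneg_left e6 hD0).trans (le_of_eq ?_))
      ring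
    exact le_of_mul_le_mul_left e8 e7
  refine ⟨M' + D, by positivity, fun n => ?_⟩
  have h1 : (1 : ℝ) ≤ 14 ^ n := one_le_pow₀ (by norm_num)
  rw [abs_le]
  constructor
  · have := ha n
    have h2 : 0 ≤ M' * 14 ^ n := by positivity
    rw [add_mul]
    linarith
  · have := h' n
    have h2 : M' ≤ M' * 14 ^ n := le_mul_of_one_le_right hM0 h1
    have h3 : 0 ≤ D * 14 ^ n := by positivity
    rw [add_mul]
    linarith

theorem poly_bound (T : H →L[ℝ] H) (φ : H →L[ℝ] ℝ) (z : H) (C : ℝ)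
    (h : ∀ n : ℕ, |φ ((T ^ n) z)| ≤ C * 14 ^ n) (q P : ℝ[X]) (hq : Maj q P) :
    |φ (aeval T q z)| ≤ C * P.eval 14 := by
  set N : ℕ := max q.natDegree P.natDegree + 1 with hN
  have e1 : φ (aeval T q z) = ∑ i ∈ Finset.range N, q.coeff i * φ ((T ^ i) z) := by
    rw [aeval_eq_sum_range' (n := N) (by omega), sum_apply, map_sum]
    simp
  have e3 : P.eval 14 = ∑ i ∈ Finset.range N, P.coeff i * 14 ^ i :=
    eval_eq_sum_range' (by omega) _
  rw [e1, e3, Finset.mul_sum]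
  refine (Finset.abs_sum_le_sum_abs _ _).trans (Finset.sum_le_sum (fun i _ => ?_))
  rw [abs_mul]
  calc |q.coeff i| * |φ ((T ^ i) z)| ≤ P.coeff i * (C * 14 ^ i) :=
        mul_le_mul (hq i) (h i) (abs_nonneg _) (hq.nonneg i)
    _ = _ := by ring

theorem one_sub_ee {S : H →L[ℝ] H} (hS : ‖S‖ ≤ 1) (k : ℕ) : ‖1 - aeval (TT S) (ee k)‖ ≤ xx k := by
  induction k with
  | zero =>
    have e : 1 - aeval (TT S) (ee 0) = (1 / 100 : ℝ) • S := by
      simp only [ee, map_mul, aeval_C, aeval_X, Algebra.algebraMap_eq_smul_one, smul_mul_assoc, one_mul]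
      unfold TT
      module
    rw [e, norm_smul]
    unfold xx
    norm_num
    linarith
  | succ k ih =>
    have e : 1 - aeval (TT S) (ee (k + 1)) =
        3 * (1 - aeval (TT S) (ee k)) ^ 2 - 2 * (1 - aeval (TT S) (ee k)) ^ 3 := by
      simp only [ee, map_mul, map_sub, map_pow, aeval_C]
      have h3 : (algebraMap ℝ (H →L[ℝ] H)) 3 = 3 := map_ofNat _ 3
      have h2 : (algebraMap ℝ (H →L[ℝ] H)) 2 = 2 := map_ofNat _ 2
      rw [h3, h2]
      generalize (aeval (TT S)) (ee k) = E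
      noncomm_ring
    rw [e]
    generalize 1 - aeval (TT S) (ee k) = A at ih
    have h1 : (3 : H →L[ℝ] H) * A ^ 2 = (3 : ℝ) • A ^ 2 := by
      rw [← map_ofNat (algebraMap ℝ (H →L[ℝ] H)) 3, Algebra.algebraMap_eq_smul_one, smul_mul_assoc,
        one_mul]
    have h2 : (2 : H →L[ℝ] H) * A ^ 3 = (2 : ℝ) • A ^ 3 := by
      rw [← map_ofNat (algebraMap ℝ (H →L[ℝ] H)) 2, Algebra.algebraMap_eq_smul_one, smul_mul_assoc,
        one_mul]
    rw [h1, h2]
    refine (norm_sub_le _ _).trans ?_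
    rw [norm_smul, norm_smul]
    have h3 := norm_pow_le' A (n := 2) (by norm_num)
    have h4 := norm_pow_le' A (n := 3) (by norm_num)
    have h5 := xx_step k ‖A‖ (norm_nonneg _) ih
    have h6 : ‖(3 : ℝ)‖ = 3 := by norm_num
    have h7 : ‖(2 : ℝ)‖ = 2 := by norm_num
    rw [h6, h7]
    linarith

theorem key {S : H →L[ℝ] H} (hS : ‖S‖ ≤ 1) (φ : H →L[ℝ] ℝ) (z : H) (M : ℝ)
    (h : ∀ n : ℕ, φ ((TT S ^ n) z) ≤ M) (j : ℕ) : φ ((TT S ^ j) z) = 0 := by
  obtain ⟨C, hC0, hC⟩ := growth hS φ z M h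
  have hbd : ∀ k, |φ ((TT S ^ j) z)| ≤ (‖φ‖ * (101 ^ j * ‖z‖) + C * 14 ^ j) * xx k := by
    intro k
    have h1 := poly_bound (TT S) φ z C hC (X ^ j * ee k) (X ^ j * PP k) ((Maj.X.pow j).mul (maj_ee k))
    have e1 : aeval (TT S) (X ^ j * ee k) z = (TT S ^ j) (aeval (TT S) (ee k) z) := by
      rw [map_mul, map_pow, aeval_X]
      rfl
    have e3 : (X ^ j * PP k).eval (14 : ℝ) ≤ 14 ^ j * xx k := by
      rw [eval_mul, eval_pow, eval_X]
      exact mul_le_mul_of_nonneg_left (PP_eval k).2 (by positivity)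
    rw [e1] at h1
    have h2 : |φ ((TT S ^ j) ((1 - aeval (TT S) (ee k)) z))| ≤ ‖φ‖ * (101 ^ j * ‖z‖) * xx k := by
      refine (φ.le_opNorm _).trans ?_
      rw [mul_assoc]
      refine mul_le_mul_of_nonneg_left ?_ (norm_nonneg _)
      refine ((TT S ^ j).le_opNorm _).trans ?_
      have h3 : ‖(1 - aeval (TT S) (ee k)) z‖ ≤ xx k * ‖z‖ :=
        (le_opNorm _ z).trans (mul_le_mul_of_nonneg_right (one_sub_ee hS k) (norm_nonneg _))
      calc ‖TT S ^ j‖ * ‖(1 - aeval (TT S) (ee k)) z‖ ≤ 101 ^ j * (xx k * ‖z‖) :=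
            mul_le_mul (pow_norm (TT_norm hS) j) h3 (norm_nonneg _) (by positivity)
        _ = _ := by ring
    have e4 : φ ((TT S ^ j) z) = φ ((TT S ^ j) ((1 - aeval (TT S) (ee k)) z)) +
        φ ((TT S ^ j) (aeval (TT S) (ee k) z)) := by
      rw [← map_add, ← map_add]
      congr 2
      simp
    rw [e4]
    refine (abs_add_le _ _).trans ((add_le_add h2 (h1.trans (mul_le_mul_of_nonneg_left e3 hC0))).trans
      (le_of_eq ?_))
    ring
  have ht : Tendsto (fun k => (‖φ‖ * (101 ^ j * ‖z‖) + C * 14 ^ j) * xx k) atTop (𝓝 0) := by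
    have := xx_tendsto.const_mul (‖φ‖ * (101 ^ j * ‖z‖) + C * 14 ^ j)
    rw [mul_zero] at this
    exact this
  have h0 : |φ ((TT S ^ j) z)| ≤ 0 := ge_of_tendsto' ht hbd
  exact abs_eq_zero.1 (le_antisymm h0 (abs_nonneg _))

/-- cyclic vectors of `S` -/
def Cyc (S : H →L[ℝ] H) (x : H) : Prop :=
  Dense (Submodule.span ℝ (Set.range fun n : ℕ => (S ^ n) x) : Set H)

theorem phi_zero {S : H →L[ℝ] H} (x : H) (hx : Cyc S x) (φ : H →L[ℝ] ℝ)
    (h : ∀ j : ℕ, φ ((TT S ^ j) x) = 0) : φ = 0 := by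
  have h2 : ∀ j, φ ((S ^ j) x) = 0 := by
    intro j
    rw [← binom S φ x j]
    exact Finset.sum_eq_zero fun k _ => by rw [h, mul_zero]
  apply ContinuousLinearMap.ext_on hx
  rintro _ ⟨j, rfl⟩
  simp only [h2]
  rfl

theorem cc_of_cyc {S : H →L[ℝ] H} (hS : ‖S‖ ≤ 1) (x : H) (hx : Cyc S x) :
    Dense (convexHull ℝ (Set.range fun n : ℕ => (TT S ^ n) x)) := by
  by_contra hcon
  rw [dense_iff_closure_eq, ← ne_eq, Set.ne_univ_iff_exists_notMem] at hcon
  obtain ⟨y, hy⟩ := hcon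
  obtain ⟨φ, u, h1, h2⟩ := geometric_hahn_banach_closed_point
    (convex_convexHull ℝ (Set.range (fun n : ℕ => (TT S ^ n) x))).closure isClosed_closure hy
  have h3 : ∀ n : ℕ, φ ((TT S ^ n) x) ≤ u := by
    intro n
    exact (h1 _ (subset_closure (subset_convexHull ℝ _ ⟨n, rfl⟩))).le
  have h4 := phi_zero x hx φ (key hS φ x u h3)
  have h5 := h1 _ (subset_closure (subset_convexHull ℝ _ ⟨0, rfl⟩))
  rw [h4] at h2 h5
  simp at h2 h5
  linarith

end Pool.Agent.Q201.CC
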