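import Mathlib

/-!
# A Banach space of sequences: means over residue classes of odd moduli

For a bounded real sequence `x` let
`A x (n, r, N) = (1 / (N+1)) ∑_{k ≤ N} x_k (1_{k ≡ r mod (2n+3)} - 1 / (2n+3))`.
`XS` is the closure in `ℓ^∞` of the arrays of the finitely supported sequences.
-/

set_option autoImplicit false

open Filter Topology
open scoped ENNReal

namespace Pool.Agent.Q201.Crit

/-- `1_{k ≡ r mod (2n+3)} - 1/(2n+3)` -/
noncomputable def h (n r k : ℕ) : ℝ :=
  (if k % (2 * n + 3) = r % (2 * n + 3) then 1 else 0) - 1 / (2 * (n : ℝ) + 3)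

theorem abs_h_le (n r k : ℕ) : |h n r k| ≤ 1 := by
  unfold h
  have h1 : (0 : ℝ) < 1 / (2 * (n : ℝ) + 3) := by positivity
  have h2 : 1 / (2 * (n : ℝ) + 3) ≤ 1 := by
    rw [div_le_one (by positivity)]
    have : (0 : ℝ) ≤ n := Nat.cast_nonneg n
    linarith
  rw [abs_le]
  split_ifs <;> constructor <;> linarith

theorem h_succ (n r k : ℕ) : h n (r + 1) (k + 1) = h n r k := by
  unfold h
  congr 1
  have : (k + 1) % (2 * n + 3) = (r + 1) % (2 * n + 3) ↔ k % (2 * n + 3) = r % (2 * n + 3) :=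
    ⟨fun h => Nat.ModEq.add_right_cancel' 1 h, fun h => Nat.ModEq.add_right 1 h⟩
  simp only [this]

theorem h_zero (k : ℕ) : h 0 0 k ≠ 0 := by
  unfold h
  split_ifs <;> norm_num

/-- bounded sequences -/
abbrev B : Type := lp (fun _ : ℕ => ℝ) ⊤
/-- bounded arrays -/
abbrev W : Type := lp (fun _ : ℕ × ℕ × ℕ => ℝ) ⊤

/-- the array of a sequence -/
noncomputable def A (x : ℕ → ℝ) (j : ℕ × ℕ × ℕ) : ℝ :=
  (∑ k ∈ Finset.range (j.2.2 + 1), x k * h j.1 j.2.1 k) / ((j.2.2 : ℝ) + 1)

theorem A_le (x : ℕ → ℝ) (C : ℝ) (hx : ∀ k, |x k| ≤ C) (j : ℕ × ℕ × ℕ) : |A x j| ≤ C := by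
  unfold A
  rw [abs_div, abs_of_pos (by positivity : (0 : ℝ) < (j.2.2 : ℝ) + 1), div_le_iff₀ (by positivity)]
  refine (Finset.abs_sum_le_sum_abs _ _).trans ?_
  calc ∑ k ∈ Finset.range (j.2.2 + 1), |x k * h j.1 j.2.1 k|
      ≤ ∑ _k ∈ Finset.range (j.2.2 + 1), C := by
        refine Finset.sum_le_sum fun k _ => ?_
        rw [abs_mul]
        have h1 := hx k
        have h2 := abs_h_le j.1 j.2.1 k
        have h3 := abs_nonneg (x k)
        have h4 := abs_nonneg (h j.1 j.2.1 k)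
        nlinarith
    _ = C * ((j.2.2 : ℝ) + 1) := by
        rw [Finset.sum_const, Finset.card_range, nsmul_eq_mul]
        push_cast
        ring

theorem mem_A (x : ℕ → ℝ) (C : ℝ) (hx : ∀ k, |x k| ≤ C) : Memℓp (A x) ⊤ :=
  memℓp_infty ⟨C, by rintro _ ⟨j, rfl⟩; exact A_le x C hx j⟩

theorem abs_le_norm (x : B) (k : ℕ) : |x k| ≤ ‖x‖ := lp.norm_apply_le_norm (by simp) x k

/-- the array as an operator -/
noncomputable def Phi : B →L[ℝ] W :=
  LinearMap.mkContinuous
    { toFun := fun x => ⟨A x, mem_A x ‖x‖ (abs_le_norm x)⟩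
      map_add' := fun x y => by
        ext j
        change A (⇑(x + y)) j = A x j + A y j
        unfold A
        rw [lp.coeFn_add, ← add_div, ← Finset.sum_add_distrib]
        congr 1
        exact Finset.sum_congr rfl fun k _ => by rw [Pi.add_apply, add_mul]
      map_smul' := fun c x => by
        ext j
        change A (⇑(c • x)) j = c * A x j
        unfold A
        rw [lp.coeFn_smul, ← mul_div_assoc, Finset.mul_sum]
        congr 1
        exact Finset.sum_congr rfl fun k _ => by rw [Pi.smul_apply, smul_eq_mul, mul_assoc] } 1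
    (fun x => by
      rw [one_mul]
      exact lp.norm_le_of_forall_le (norm_nonneg _) fun j => A_le x ‖x‖ (abs_le_norm x) j)

theorem Phi_apply (x : B) (j : ℕ × ℕ × ℕ) : Phi x j = A x j := rfl

theorem Phi_norm_le (x : B) (C : ℝ) (hC : 0 ≤ C) (hx : ∀ j, |A x j| ≤ C) : ‖Phi x‖ ≤ C :=
  lp.norm_le_of_forall_le hC fun j => hx j

/-- a bounded function as an element of `B` -/
noncomputable def mkB (x : ℕ → ℝ) (hx : ∃ C, ∀ k, |x k| ≤ C) : B :=
  ⟨x, memℓp_infty ⟨hx.choose, by rintro _ ⟨k, rfl⟩; exact hx.choose_spec k⟩⟩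

@[simp] theorem mkB_apply (x : ℕ → ℝ) (hx : ∃ C, ∀ k, |x k| ≤ C) (k : ℕ) : mkB x hx k = x k := rfl

/-- unit vectors -/
noncomputable def ee (k : ℕ) : B := lp.single ⊤ k 1

theorem ee_apply (k l : ℕ) : ee k l = if l = k then 1 else 0 := by
  unfold ee
  rw [lp.single_apply, Pi.single_apply]

/-- the span of the unit vectors -/
noncomputable def XF : Submodule ℝ W := Submodule.span ℝ (Set.range fun k => Phi (ee k))

/-- the Banach space, as a closed subspace -/
noncomputable def XS : Submodule ℝ W := XF.topologicalClosure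

theorem ee_mem (k : ℕ) : Phi (ee k) ∈ XS :=
  Submodule.le_topologicalClosure _ (Submodule.subset_span ⟨k, rfl⟩)

/-! ### arithmetic progressions with difference a power of two -/

/-- indicator of `{s + t M : t ≥ 0}` -/
noncomputable def F (s M k : ℕ) : ℝ := if s ≤ k ∧ (k - s) % M = 0 then 1 else 0

theorem F_bdd (s M : ℕ) : ∃ C, ∀ k, |F s M k| ≤ C :=
  ⟨1, fun k => by unfold F; split_ifs <;> simp⟩

theorem count_sum (p : ℕ → Prop) [DecidablePred p] (T : ℕ) :
    ∑ t ∈ Finset.range T, (if p t then (1 : ℝ) else 0) = (T.count p : ℝ) := by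
  rw [Nat.count_eq_card_filter_range, Finset.sum_boole]

/-- discrepancy bound -/
theorem disc (n r s m T : ℕ) : |∑ t ∈ Finset.range T, h n r (s + t * 2 ^ m)| ≤ 1 := by
  set Q := 2 * n + 3 with hQ
  have hcop : Nat.Coprime (2 ^ m) Q := by
    apply Nat.Coprime.pow_left
    rw [Nat.coprime_two_left, Nat.odd_iff]
    omega
  -- the residue
  obtain ⟨t0, ht0⟩ : ∃ t0 : ℕ, s + t0 * 2 ^ m ≡ r [MOD Q] := by
    obtain ⟨v, hv⟩ := Nat.exists_mul_mod_eq_one_of_coprime hcop (by omega : 1 < Q)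
    refine ⟨(r + (Q - 1) * s) * v, ?_⟩
    have h1 : 2 ^ m * v ≡ 1 [MOD Q] := by
      unfold Nat.ModEq
      rw [hv.2, Nat.mod_eq_of_lt (by omega)]
    have h2 : s + (r + (Q - 1) * s) * v * 2 ^ m = s + (r + (Q - 1) * s) * (2 ^ m * v) := by ring
    rw [h2]
    calc s + (r + (Q - 1) * s) * (2 ^ m * v) ≡ s + (r + (Q - 1) * s) * 1 [MOD Q] :=
          Nat.ModEq.add_left _ (Nat.ModEq.mul_left _ h1)
      _ = r + Q * s := by
          obtain ⟨Q', hQ'⟩ : ∃ Q', Q = Q' + 1 := ⟨Q - 1, by omega⟩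
          rw [hQ', Nat.add_sub_cancel]; ring
      _ ≡ r [MOD Q] := by
          unfold Nat.ModEq
          rw [Nat.add_mul_mod_self_left]
  have hiff : ∀ t : ℕ, (s + t * 2 ^ m) % Q = r % Q ↔ t ≡ t0 [MOD Q] := by
    intro t
    constructor
    · intro h1
      have h2 : s + t * 2 ^ m ≡ s + t0 * 2 ^ m [MOD Q] := Nat.ModEq.trans h1 ht0.symm
      have h3 := Nat.ModEq.add_left_cancel' s h2
      exact Nat.ModEq.cancel_right_of_coprime (by rw [Nat.gcd_comm]; exact hcop) h3
    · intro h1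
      exact ((Nat.ModEq.mul_right _ h1).add_left s).trans ht0
  have hsum : ∑ t ∈ Finset.range T, h n r (s + t * 2 ^ m) =
      (T.count (· ≡ t0 [MOD Q]) : ℝ) - T / Q := by
    rw [← count_sum]
    have hQr : (Q : ℝ) = 2 * n + 3 := by rw [hQ]; push_cast; ring
    have h1 : (T : ℝ) / Q = ∑ _t ∈ Finset.range T, 1 / (2 * (n : ℝ) + 3) := by
      rw [Finset.sum_const, Finset.card_range, nsmul_eq_mul, hQr]
      ring
    rw [h1, ← Finset.sum_sub_distrib]
    refine Finset.sum_congr rfl fun t _ => ?_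
    unfold h
    simp only [← hQ, hiff t]
  have hQpos : 0 < Q := by omega
  rw [hsum, Nat.count_modEq_card _ hQpos]
  have hQ0 : (0 : ℝ) < Q := by exact_mod_cast hQpos
  have h1 : (T : ℝ) = Q * (T / Q : ℕ) + (T % Q : ℕ) := by exact_mod_cast (Nat.div_add_mod T Q).symm
  have h2 : (T : ℝ) / Q = (T / Q : ℕ) + ((T % Q : ℕ) : ℝ) / Q := by
    conv_lhs => rw [h1]
    rw [add_div, mul_div_cancel_left₀ _ hQ0.ne']
  have h3 : ((T % Q : ℕ) : ℝ) / Q ≤ 1 := by
    rw [div_le_one hQ0]
    exact_mod_cast (Nat.mod_lt T hQpos).le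
  have h4 : (0 : ℝ) ≤ ((T % Q : ℕ) : ℝ) / Q := by positivity
  rw [h2]
  push_cast
  rw [abs_le]
  split_ifs <;> constructor <;> push_cast <;> linarith

theorem sum_F (s m N : ℕ) (g : ℕ → ℝ) (hN : s ≤ N) :
    ∑ k ∈ Finset.range (N + 1), F s (2 ^ m) k * g k =
      ∑ t ∈ Finset.range ((N - s) / 2 ^ m + 1), g (s + t * 2 ^ m) := by
  have hM : 0 < 2 ^ m := by positivity
  symm
  rw [← Finset.sum_image (s := Finset.range ((N - s) / 2 ^ m + 1)) (g := fun t => s + t * 2 ^ m)
    (f := g) (by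
      intro t _ t' _ h
      have h' : t * 2 ^ m = t' * 2 ^ m := by
        simp only at h
        omega
      exact Nat.eq_of_mul_eq_mul_right hM h')]
  refine Finset.sum_congr_of_eq_on_inter ?_ ?_ ?_
  · intro k hk hk'
    exfalso
    apply hk'
    rw [Finset.mem_image] at hk
    obtain ⟨t, ht, rfl⟩ := hk
    rw [Finset.mem_range] at ht ⊢
    have h1 : t * 2 ^ m ≤ (N - s) / 2 ^ m * 2 ^ m := Nat.mul_le_mul_right _ (by omega)
    have h2 := Nat.div_mul_le_self (N - s) (2 ^ m)
    omega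
  · intro k hk hk'
    rw [Finset.mem_range] at hk
    unfold F
    rw [if_neg, zero_mul]
    rintro ⟨h1, h2⟩
    apply hk'
    rw [Finset.mem_image]
    refine ⟨(k - s) / 2 ^ m, ?_, ?_⟩
    · rw [Finset.mem_range]
      have := Nat.div_le_div_right (c := 2 ^ m) (show k - s ≤ N - s by omega)
      omega
    · have := Nat.div_add_mod (k - s) (2 ^ m)
      rw [h2, add_zero, mul_comm] at this
      omega
  · intro k hk _
    rw [Finset.mem_image] at hk
    obtain ⟨t, _, rfl⟩ := hk
    unfold F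
    rw [if_pos ⟨Nat.le_add_right _ _, by rw [Nat.add_sub_cancel_left, Nat.mul_mod_left]⟩, one_mul]

theorem F_norm (s m : ℕ) : ‖Phi (mkB (F s (2 ^ m)) (F_bdd _ _))‖ ≤ 1 / ((s : ℝ) + 1) := by
  refine Phi_norm_le _ _ (by positivity) fun j => ?_
  obtain ⟨n, r, N⟩ := j
  unfold A
  simp only [mkB_apply]
  rcases Nat.lt_or_ge N s with hN | hN
  · rw [Finset.sum_eq_zero, zero_div, abs_zero]
    · positivity
    · intro k hk
      rw [Finset.mem_range] at hk
      unfold F
      rw [if_neg, zero_mul]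
      rintro ⟨h1, _⟩
      omega
  · rw [sum_F s m N _ hN, abs_div, abs_of_pos (by positivity : (0 : ℝ) < (N : ℝ) + 1)]
    have h1 := disc n r s m ((N - s) / 2 ^ m + 1)
    have h2 : (s : ℝ) ≤ N := by exact_mod_cast hN
    exact div_le_div₀ zero_le_one h1 (by positivity) (by linarith)

theorem ee_norm (k : ℕ) : ‖Phi (ee k)‖ ≤ 1 / ((k : ℝ) + 1) := by
  refine Phi_norm_le _ _ (by positivity) fun j => ?_
  obtain ⟨n, r, N⟩ := j
  unfold A
  simp only [ee_apply, ite_mul, one_mul, zero_mul, Finset.sum_ite_eq', Finset.mem_range]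
  rw [abs_div, abs_of_pos (by positivity : (0 : ℝ) < (N : ℝ) + 1)]
  split_ifs with hN
  · have h2 : (k : ℝ) ≤ N := by exact_mod_cast (by omega : k ≤ N)
    exact div_le_div₀ zero_le_one (abs_h_le _ _ _) (by positivity) (by linarith)
  · rw [abs_zero, zero_div]; positivity

theorem F_mem (s m : ℕ) : Phi (mkB (F s (2 ^ m)) (F_bdd _ _)) ∈ XS := by
  have hM : 0 < 2 ^ m := by positivity
  -- partial sums
  have hdec : ∀ K : ℕ, mkB (F s (2 ^ m)) (F_bdd _ _) =
      ∑ t ∈ Finset.range K, ee (s + t * 2 ^ m) + mkB (F (s + K * 2 ^ m) (2 ^ m)) (F_bdd _ _) := by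
    intro K
    induction K with
    | zero =>
      simp
    | succ K ih =>
      rw [ih, Finset.sum_range_succ, add_assoc]
      congr 1
      ext k
      rw [lp.coeFn_add, Pi.add_apply, mkB_apply, mkB_apply, ee_apply]
      unfold F
      have e1 : s + (K + 1) * 2 ^ m = s + K * 2 ^ m + 2 ^ m := by ring
      rw [e1]
      by_cases h1 : k = s + K * 2 ^ m
      · subst h1
        rw [if_pos ⟨le_rfl, by simp⟩, if_pos rfl, if_neg (by omega), add_zero]
      · rw [if_neg h1, zero_add]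
        by_cases h2 : s + K * 2 ^ m ≤ k
        · by_cases h3 : s + K * 2 ^ m + 2 ^ m ≤ k
          · have h4 : (k - (s + K * 2 ^ m + 2 ^ m)) % 2 ^ m = (k - (s + K * 2 ^ m)) % 2 ^ m := by
              have : k - (s + K * 2 ^ m) = (k - (s + K * 2 ^ m + 2 ^ m)) + 2 ^ m := by omega
              rw [this, Nat.add_mod_right]
            rw [h4]
            simp only [h2, h3, true_and]
          · have hA : ¬ (s + K * 2 ^ m ≤ k ∧ (k - (s + K * 2 ^ m)) % 2 ^ m = 0) := by
              rintro ⟨_, h5⟩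
              rw [Nat.mod_eq_of_lt (by omega)] at h5
              omega
            rw [if_neg hA, if_neg (fun h => h3 h.1)]
        · rw [if_neg (fun h => h2 h.1), if_neg (fun h => h2 (by omega))]
  have hcl : IsClosed (XS : Set W) := Submodule.isClosed_topologicalClosure _
  refine hcl.mem_of_tendsto (f := fun K : ℕ => Phi (∑ t ∈ Finset.range K, ee (s + t * 2 ^ m)))
    (b := atTop) ?_ (Filter.Eventually.of_forall fun K => ?_)
  · rw [tendsto_iff_norm_sub_tendsto_zero]
    have hlim : Tendsto (fun K : ℕ => 1 / ((K : ℝ) + 1)) atTop (𝓝 0) :=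
      tendsto_one_div_add_atTop_nhds_zero_nat
    refine squeeze_zero (fun _ => norm_nonneg _) (fun K => ?_) hlim
    rw [hdec K, map_add, sub_add_cancel_left, norm_neg]
    refine (F_norm _ _).trans ?_
    apply one_div_le_one_div_of_le (by positivity)
    have : K ≤ s + K * 2 ^ m := by nlinarith
    have : (K : ℝ) ≤ ((s + K * 2 ^ m : ℕ) : ℝ) := by exact_mod_cast this
    linarith
  · rw [map_sum]
    exact Submodule.sum_mem _ fun t _ => ee_mem _

/-- decomposition of a (shifted) periodic sequence -/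
theorem periodic_dec (m L : ℕ) (g : ℕ → ℝ) (hg : ∀ k, g (k + 2 ^ m) = g k)
    (hb : ∃ C, ∀ k, |(if L ≤ k then g (k - L) else 0)| ≤ C) :
    mkB (fun k => if L ≤ k then g (k - L) else 0) hb =
      ∑ r ∈ Finset.range (2 ^ m), g r • mkB (F (r + L) (2 ^ m)) (F_bdd _ _) := by
  have hM : 0 < 2 ^ m := by positivity
  have hper : ∀ k, g k = g (k % 2 ^ m) := by
    intro k
    have h1 : ∀ t k, g (k + t * 2 ^ m) = g k := by
      intro t
      induction t with
      | zero => intro k; simp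
      | succ t ih =>
        intro k
        have : k + (t + 1) * 2 ^ m = (k + t * 2 ^ m) + 2 ^ m := by ring
        rw [this, hg, ih]
    have h2 := Nat.div_add_mod k (2 ^ m)
    conv_lhs => rw [← h2, add_comm, mul_comm]
    exact h1 _ _
  ext k
  rw [mkB_apply, lp.coeFn_sum, Finset.sum_apply]
  simp only [lp.coeFn_smul, Pi.smul_apply, mkB_apply, smul_eq_mul]
  by_cases hk : L ≤ k
  · rw [if_pos hk, Finset.sum_eq_single ((k - L) % 2 ^ m)]
    · unfold F
      rw [if_pos, mul_one]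
      · exact hper _
      · have h1 := Nat.mod_le (k - L) (2 ^ m)
        refine ⟨by omega, ?_⟩
        have h2 := Nat.div_add_mod (k - L) (2 ^ m)
        have h3 : k - ((k - L) % 2 ^ m + L) = 2 ^ m * ((k - L) / 2 ^ m) := by omega
        rw [h3, Nat.mul_mod_right]
    · intro r hr hne
      rw [Finset.mem_range] at hr
      unfold F
      rw [if_neg, mul_zero]
      rintro ⟨h1, h2⟩
      apply hne
      have h3 : k - L = (k - (r + L)) + r := by omega
      rw [h3, Nat.add_mod, h2, zero_add, Nat.mod_mod, Nat.mod_eq_of_lt hr]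
    · intro h1
      exact absurd (Finset.mem_range.2 (Nat.mod_lt _ hM)) h1
  · rw [if_neg hk]
    symm
    apply Finset.sum_eq_zero
    intro r _
    unfold F
    rw [if_neg (fun h => hk (by omega)), mul_zero]

/-- Lemma A: norm of a (shifted) periodic sequence -/
theorem periodic_norm (m L : ℕ) (g : ℕ → ℝ) (hg : ∀ k, g (k + 2 ^ m) = g k)
    (hb : ∃ C, ∀ k, |(if L ≤ k then g (k - L) else 0)| ≤ C) :
    ‖Phi (mkB (fun k => if L ≤ k then g (k - L) else 0) hb)‖ ≤
      ∑ r ∈ Finset.range (2 ^ m), |g r| * (1 / ((r : ℝ) + L + 1)) := by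
  rw [periodic_dec m L g hg hb, map_sum]
  refine (norm_sum_le _ _).trans (Finset.sum_le_sum fun r _ => ?_)
  rw [map_smul, norm_smul, Real.norm_eq_abs]
  refine mul_le_mul_of_nonneg_left ?_ (abs_nonneg _)
  have := F_norm (r + L) m
  push_cast at this
  exact this

theorem periodic_mem (m L : ℕ) (g : ℕ → ℝ) (hg : ∀ k, g (k + 2 ^ m) = g k)
    (hb : ∃ C, ∀ k, |(if L ≤ k then g (k - L) else 0)| ≤ C) :
    Phi (mkB (fun k => if L ≤ k then g (k - L) else 0) hb) ∈ XS := by
  rw [periodic_dec m L g hg hb, map_sum]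
  exact Submodule.sum_mem _ fun r _ => by rw [map_smul]; exact Submodule.smul_mem _ _ (F_mem _ _)

end Pool.Agent.Q201.Crit
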