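import Mathlib
import Pool.Agent.Q201.Crit1

/-!
# The backward shift and the coordinates
-/

set_option autoImplicit false

open Filter Topology
open scoped ENNReal

namespace Pool.Agent.Q201.Crit

theorem W_le_norm (a : W) (j : ℕ × ℕ × ℕ) : |a j| ≤ ‖a‖ := lp.norm_apply_le_norm (by simp) a j

/-- formula of the shift on arrays -/
noncomputable def tw (a : ℕ × ℕ × ℕ → ℝ) (j : ℕ × ℕ × ℕ) : ℝ :=
  (((j.2.2 : ℝ) + 2) * a (j.1, j.2.1 + 1, j.2.2 + 1) - 3 / 2 * a (0, 0, 0) * h j.1 (j.2.1 + 1) 0) /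
    ((j.2.2 : ℝ) + 1)

theorem tw_le (a : ℕ × ℕ × ℕ → ℝ) (C : ℝ) (ha : ∀ j, |a j| ≤ C) (j : ℕ × ℕ × ℕ) : |tw a j| ≤ 4 * C := by
  have hC : 0 ≤ C := (abs_nonneg _).trans (ha (0, 0, 0))
  unfold tw
  have hN : (0 : ℝ) ≤ (j.2.2 : ℝ) := Nat.cast_nonneg _
  rw [abs_div, abs_of_pos (by positivity : (0 : ℝ) < (j.2.2 : ℝ) + 1), div_le_iff₀ (by positivity)]
  have h1 := ha (j.1, j.2.1 + 1, j.2.2 + 1)
  have h2 := ha (0, 0, 0)
  have h3 := abs_h_le j.1 (j.2.1 + 1) 0
  have h4 : |((j.2.2 : ℝ) + 2) * a (j.1, j.2.1 + 1, j.2.2 + 1)| ≤ ((j.2.2 : ℝ) + 2) * C := by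
    rw [abs_mul, abs_of_pos (by positivity : (0 : ℝ) < (j.2.2 : ℝ) + 2)]
    exact mul_le_mul_of_nonneg_left h1 (by positivity)
  have h5 : |3 / 2 * a (0, 0, 0) * h j.1 (j.2.1 + 1) 0| ≤ 3 / 2 * C := by
    rw [abs_mul, abs_mul, abs_of_pos (by norm_num : (0 : ℝ) < 3 / 2)]
    have : 3 / 2 * |a (0, 0, 0)| ≤ 3 / 2 * C := by linarith
    calc 3 / 2 * |a (0, 0, 0)| * |h j.1 (j.2.1 + 1) 0| ≤ 3 / 2 * C * 1 :=
          mul_le_mul this h3 (abs_nonneg _) (by positivity)
      _ = 3 / 2 * C := mul_one _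
  refine (abs_sub _ _).trans ((add_le_add h4 h5).trans ?_)
  nlinarith

/-- the shift on arrays -/
noncomputable def TW : W →L[ℝ] W :=
  LinearMap.mkContinuous
    { toFun := fun a => ⟨tw a, memℓp_infty ⟨4 * ‖a‖, by rintro _ ⟨j, rfl⟩; exact tw_le a ‖a‖ (W_le_norm a) j⟩⟩
      map_add' := fun x y => by
        ext j
        change tw (⇑(x + y)) j = tw x j + tw y j
        unfold tw
        rw [lp.coeFn_add]
        simp only [Pi.add_apply]
        ring
      map_smul' := fun c x => by
        ext j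
        change tw (⇑(c • x)) j = c * tw x j
        unfold tw
        rw [lp.coeFn_smul]
        simp only [Pi.smul_apply, smul_eq_mul]
        ring } 4
    (fun a => lp.norm_le_of_forall_le (by positivity) fun j => tw_le a ‖a‖ (W_le_norm a) j)

theorem TW_apply (a : W) (j : ℕ × ℕ × ℕ) : TW a j = tw a j := rfl

theorem sh_bdd (x : B) (n : ℕ) : ∃ C, ∀ k, |x (k + n)| ≤ C := ⟨‖x‖, fun k => abs_le_norm x _⟩

/-- shifted sequence -/
noncomputable def sh (n : ℕ) (x : B) : B := mkB (fun k => x (k + n)) (sh_bdd x n)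

theorem sh_apply (n : ℕ) (x : B) (k : ℕ) : sh n x k = x (k + n) := rfl

theorem h000 : h 0 0 0 = 2 / 3 := by unfold h; norm_num

theorem TW_Phi (x : B) : TW (Phi x) = Phi (sh 1 x) := by
  ext j
  obtain ⟨n, r, N⟩ := j
  rw [TW_apply, Phi_apply]
  unfold tw
  simp only [Phi_apply]
  unfold A
  simp only [sh_apply]
  congr 1
  have h1 : (((N + 1 : ℕ) : ℝ) + 1) = (N : ℝ) + 2 := by push_cast; ring
  rw [h1, mul_div_cancel₀ _ (by positivity : (N : ℝ) + 2 ≠ 0)]
  rw [Finset.sum_range_succ' _ (N + 1)]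
  simp only [Nat.cast_zero, zero_add, div_one, Finset.sum_range_one, h000, h_succ]
  ring

theorem TW_pow_Phi (x : B) (n : ℕ) : (TW ^ n) (Phi x) = Phi (sh n x) := by
  induction n with
  | zero =>
    rw [pow_zero]
    rfl
  | succ n ih =>
    rw [pow_succ', mul_apply_eq_comp, ih, TW_Phi]
    congr 1
    ext k
    simp only [sh_apply]
    have : k + 1 + n = k + (n + 1) := by ring
    rw [this]

theorem TW_ee (k : ℕ) : TW (Phi (ee k)) ∈ XS := by
  rw [TW_Phi]
  rcases k with _ | k
  · have : sh 1 (ee 0) = 0 := by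
      ext l
      rw [sh_apply, ee_apply, if_neg (by omega)]
      rfl
    rw [this, map_zero]
    exact Submodule.zero_mem _
  · have : sh 1 (ee (k + 1)) = ee k := by
      ext l
      rw [sh_apply, ee_apply, ee_apply]
      simp
    rw [this]
    exact ee_mem k

theorem TW_mem (a : W) (ha : a ∈ XS) : TW a ∈ XS := by
  have h1 : ∀ b ∈ XF, TW b ∈ XS := by
    intro b hb
    refine Submodule.span_induction ?_ ?_ ?_ ?_ hb
    · rintro _ ⟨k, rfl⟩; exact TW_ee k
    · rw [map_zero]; exact Submodule.zero_mem _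
    · intro x y _ _ hx hy; rw [map_add]; exact Submodule.add_mem _ hx hy
    · intro c x _ hx; rw [map_smul]; exact Submodule.smul_mem _ _ hx
  have hcl : IsClosed (XS : Set W) := Submodule.isClosed_topologicalClosure _
  have h2 : a ∈ closure (XF : Set W) := ha
  have h3 : closure (XF : Set W) ⊆ TW ⁻¹' (XS : Set W) :=
    (hcl.preimage TW.continuous).closure_subset_iff.2 h1
  exact h3 h2

/-- the space -/
def X : Type := ↥XS

noncomputable instance : NormedAddCommGroup X := inferInstanceAs (NormedAddCommGroup ↥XS)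
noncomputable instance : NormedSpace ℝ X := inferInstanceAs (NormedSpace ℝ ↥XS)
instance : CompleteSpace X := (Submodule.isClosed_topologicalClosure XF).completeSpace_coe

/-- the inclusion -/
noncomputable def toW : X →L[ℝ] W := XS.subtypeL

theorem toW_mem (a : X) : toW a ∈ XS := Subtype.mem (show ↥XS from a)

theorem norm_toW (a : X) : ‖toW a‖ = ‖a‖ := rfl

/-- an element of the space -/
def mkX (a : W) (ha : a ∈ XS) : X := (⟨a, ha⟩ : ↥XS)

theorem toW_mkX (a : W) (ha : a ∈ XS) : toW (mkX a ha) = a := rfl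

theorem toW_inj {a b : X} (h : toW a = toW b) : a = b := Subtype.ext h

/-- the operator -/
noncomputable def T : X →L[ℝ] X := (TW.comp toW).codRestrict XS fun a => TW_mem _ (toW_mem a)

theorem coe_T (a : X) : toW (T a) = TW (toW a) := rfl

theorem coe_T_pow (n : ℕ) (a : X) : toW ((T ^ n) a) = (TW ^ n) (toW a) := by
  induction n with
  | zero => rfl
  | succ n ih => rw [pow_succ', pow_succ', mul_apply_eq_comp, mul_apply_eq_comp, coe_T, ih]

/-- principle: closed relations -/
theorem XS_induction (L : W →L[ℝ] ℝ) (h : ∀ k, L (Phi (ee k)) = 0) (a : W) (ha : a ∈ XS) : L a = 0 := by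
  have h1 : ∀ b ∈ XF, L b = 0 := by
    intro b hb
    refine Submodule.span_induction ?_ ?_ ?_ ?_ hb
    · rintro _ ⟨k, rfl⟩; exact h k
    · rw [map_zero]
    · intro x y _ _ hx hy; rw [map_add, hx, hy, add_zero]
    · intro c x _ hx; rw [map_smul, hx, smul_zero]
  have h2 : a ∈ closure (XF : Set W) := ha
  have h3 : closure (XF : Set W) ⊆ {b | L b = 0} :=
    (isClosed_eq L.continuous continuous_const).closure_subset_iff.2 h1
  exact h3 h2

/-- array entries -/
noncomputable def en (j : ℕ × ℕ × ℕ) : W →L[ℝ] ℝ := lp.evalCLM ℝ (fun _ : ℕ × ℕ × ℕ => ℝ) ⊤ j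

theorem en_apply (j : ℕ × ℕ × ℕ) (a : W) : en j a = a j := rfl

/-- coordinates -/
noncomputable def rho (k : ℕ) : W →L[ℝ] ℝ :=
  (((k : ℝ) + 1) / h 0 0 k) • en (0, 0, k) - ((k : ℝ) / h 0 0 k) • en (0, 0, k - 1)

theorem rho_Phi (k : ℕ) (x : B) : rho k (Phi x) = x k := by
  unfold rho
  rw [sub_apply, smul_apply, smul_apply,
    en_apply, en_apply, Phi_apply, Phi_apply]
  unfold A
  simp only [smul_eq_mul]
  have h1 := h_zero k
  rcases k with _ | k
  · simp only [Nat.cast_zero, zero_add, Finset.sum_range_one, zero_div, zero_mul, sub_zero, div_one]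
    field_simp
  · have h2 : ((k : ℝ) + 1) ≠ 0 := by positivity
    have h3 : (((k + 1 : ℕ) : ℝ) + 1) ≠ 0 := by positivity
    rw [Nat.add_sub_cancel, Finset.sum_range_succ _ (k + 1)]
    push_cast at h3 ⊢
    field_simp
    ring

theorem array_eq (a : W) (ha : a ∈ XS) (n r N : ℕ) :
    a (n, r, N) * ((N : ℝ) + 1) = ∑ k ∈ Finset.range (N + 1), rho k a * h n r k := by
  have h1 := XS_induction (((N : ℝ) + 1) • en (n, r, N) -
    ∑ k ∈ Finset.range (N + 1), h n r k • rho k) (fun k => by
      rw [sub_apply, smul_apply, sum_apply,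
        en_apply, Phi_apply]
      unfold A
      simp only [smul_apply, rho_Phi, smul_eq_mul]
      rw [mul_div_cancel₀ _ (by positivity : (N : ℝ) + 1 ≠ 0), sub_eq_zero]
      exact Finset.sum_congr rfl fun i _ => mul_comm _ _) a ha
  rw [sub_apply, smul_apply, sum_apply,
    en_apply, sub_eq_zero] at h1
  simp only [smul_apply, smul_eq_mul] at h1
  rw [mul_comm, h1]
  exact Finset.sum_congr rfl fun i _ => mul_comm _ _

theorem eq_zero_of_rho (a : W) (ha : a ∈ XS) (h : ∀ k, rho k a = 0) : a = 0 := by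
  ext j
  obtain ⟨n, r, N⟩ := j
  have h1 := array_eq a ha n r N
  rw [Finset.sum_eq_zero (fun k _ => by rw [h k, zero_mul])] at h1
  have h2 : (N : ℝ) + 1 ≠ 0 := by positivity
  exact (mul_eq_zero.1 h1).resolve_right h2

theorem rho_TW (a : W) (ha : a ∈ XS) (k : ℕ) : rho k (TW a) = rho (k + 1) a := by
  have h1 := XS_induction ((rho k).comp TW - rho (k + 1)) (fun l => by
    rw [sub_apply, ContinuousLinearMap.comp_apply, TW_Phi, rho_Phi, rho_Phi,
      sh_apply, sub_self]) a ha
  rw [sub_apply, ContinuousLinearMap.comp_apply, sub_eq_zero] at h1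
  exact h1

theorem rho_T_pow (a : X) (n k : ℕ) : rho k (toW ((T ^ n) a)) = rho (k + n) (toW a) := by
  induction n generalizing k with
  | zero => rfl
  | succ n ih =>
    rw [pow_succ', mul_apply_eq_comp, coe_T, rho_TW _ (toW_mem _), ih]
    have : k + 1 + n = k + (n + 1) := by ring
    rw [this]

/-- the arrays of the space vanish at infinity in the last variable -/
theorem array_tendsto (a : W) (ha : a ∈ XS) (n r : ℕ) :
    Tendsto (fun N : ℕ => a (n, r, N)) atTop (𝓝 0) := by
  have h1 : ∀ b ∈ XF, Tendsto (fun N : ℕ => b (n, r, N)) atTop (𝓝 0) := by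
    intro b hb
    refine Submodule.span_induction ?_ ?_ ?_ ?_ hb
    · rintro _ ⟨k, rfl⟩
      have hlim : Tendsto (fun N : ℕ => 1 / ((N : ℝ) + 1)) atTop (𝓝 0) :=
        tendsto_one_div_add_atTop_nhds_zero_nat
      refine squeeze_zero_norm (fun N => ?_) hlim
      rw [Phi_apply, Real.norm_eq_abs]
      unfold A
      simp only [ee_apply, ite_mul, one_mul, zero_mul, Finset.sum_ite_eq', Finset.mem_range]
      rw [abs_div, abs_of_pos (by positivity : (0 : ℝ) < (N : ℝ) + 1)]
      apply div_le_div_of_nonneg_right _ (by positivity)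
      split_ifs
      · exact abs_h_le _ _ _
      · rw [abs_zero]; exact zero_le_one
    · exact tendsto_const_nhds
    · intro x y _ _ hx hy
      have := hx.add hy
      rw [add_zero] at this
      exact this
    · intro c x _ hx
      have := hx.const_mul c
      rw [mul_zero] at this
      exact this
  rw [Metric.tendsto_atTop]
  intro ε hε
  have h2 : a ∈ closure (XF : Set W) := ha
  obtain ⟨b, hb, hab⟩ := Metric.mem_closure_iff.1 h2 (ε / 2) (half_pos hε)
  obtain ⟨N0, hN0⟩ := Metric.tendsto_atTop.1 (h1 b hb) (ε / 2) (half_pos hε)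
  refine ⟨N0, fun N hN => ?_⟩
  have h3 := hN0 N hN
  rw [dist_eq_norm, sub_zero] at h3 ⊢
  rw [dist_eq_norm] at hab
  have h4 := W_le_norm (a - b) (n, r, N)
  rw [lp.coeFn_sub, Pi.sub_apply] at h4
  calc ‖a (n, r, N)‖ = ‖(a (n, r, N) - b (n, r, N)) + b (n, r, N)‖ := by rw [sub_add_cancel]
    _ ≤ ‖a (n, r, N) - b (n, r, N)‖ + ‖b (n, r, N)‖ := norm_add_le _ _
    _ < ε / 2 + ε / 2 := add_lt_add_of_le_of_lt (h4.trans hab.le) h3
    _ = ε := add_halves ε

/-- a vector with odd period has constant coordinates -/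
theorem const_of_odd_period (a : X) (n : ℕ) (hTa : (T ^ (2 * n + 3)) a = a) (k : ℕ) :
    rho k (toW a) = rho 0 (toW a) := by
  set Q := 2 * n + 3 with hQ
  set b : ℕ → ℝ := fun k => rho k (toW a) with hb
  have hper : ∀ k, b (k + Q) = b k := by
    intro k
    simp only [hb]
    rw [← rho_T_pow a Q k, hTa]
  have hper' : ∀ t k, b (k + Q * t) = b k := by
    intro t
    induction t with
    | zero => intro k; simp
    | succ t ih =>
      intro k
      have : k + Q * (t + 1) = (k + Q * t) + Q := by ring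
      rw [this, hper, ih]
  set mean : ℝ := (∑ k ∈ Finset.range Q, b k) / Q with hmean
  have hQ0 : (0 : ℝ) < Q := by exact_mod_cast (by omega : 0 < Q)
  have key : ∀ r, r < Q → b r = mean := by
    intro r hr
    have h1 := array_tendsto (toW a) (toW_mem a) n r
    -- along N = Q (L+1) - 1
    have h2 : Tendsto (fun L : ℕ => Q * (L + 1) - 1) atTop atTop := by
      apply tendsto_atTop_mono (fun L => ?_) tendsto_id
      have : 1 * (L + 1) ≤ Q * (L + 1) := Nat.mul_le_mul_right _ (by omega)
      simp only [id]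
      omega
    have h3 := h1.comp h2
    have hblock : ∀ L : ℕ, ∑ k ∈ Finset.range (Q * L), b k * h n r k = L * (b r - mean) := by
      intro L
      induction L with
      | zero => simp
      | succ L ih =>
        have e1 : Q * (L + 1) = Q * L + Q := by ring
        rw [e1, Finset.sum_range_add, ih]
        have e2 : ∑ x ∈ Finset.range Q, b (Q * L + x) * h n r (Q * L + x) = b r - mean := by
          have e3 : ∀ x ∈ Finset.range Q, b (Q * L + x) * h n r (Q * L + x) =
              (if x = r then b x else 0) - b x / Q := by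
            intro x hx
            rw [Finset.mem_range] at hx
            have e4 : b (Q * L + x) = b x := by rw [add_comm]; exact hper' L x
            rw [e4]
            unfold h
            have e5 : (Q * L + x) % (2 * n + 3) = x := by
              rw [← hQ, Nat.mul_add_mod, Nat.mod_eq_of_lt hx]
            have e6 : r % (2 * n + 3) = r := Nat.mod_eq_of_lt hr
            have e7 : (2 * (n : ℝ) + 3) = Q := by rw [hQ]; push_cast; ring
            rw [e5, e6, e7]
            split_ifs
            · ring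
            · ring
          rw [Finset.sum_congr rfl e3, Finset.sum_sub_distrib, ← Finset.sum_div, Finset.sum_ite_eq',
            if_pos (Finset.mem_range.2 hr)]
        rw [e2]
        push_cast
        ring
    have h4 : Tendsto (fun _ : ℕ => (b r - mean) / Q) atTop (𝓝 0) := by
      refine h3.congr fun L => ?_
      simp only [Function.comp]
      have h5 := array_eq (toW a) (toW_mem a) n r (Q * (L + 1) - 1)
      have h6 : Q * (L + 1) - 1 + 1 = Q * (L + 1) := by
        have : 0 < Q * (L + 1) := by positivity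
        omega
      have h7 : (((Q * (L + 1) - 1 : ℕ) : ℝ) + 1) = Q * (L + 1) := by exact_mod_cast h6
      rw [h6, h7] at h5
      have h8 := hblock (L + 1)
      simp only [hb] at h8
      rw [h8] at h5
      have h9 : (0 : ℝ) < (L : ℝ) + 1 := by positivity
      rw [eq_div_iff hQ0.ne']
      push_cast at h5
      have h10 : (toW a) (n, r, Q * (L + 1) - 1) * Q * ((L : ℝ) + 1) =
          (rho r (toW a) - mean) * ((L : ℝ) + 1) := by
        linarith
      exact mul_right_cancel₀ h9.ne' h10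
    have h5 := tendsto_nhds_unique h4 tendsto_const_nhds
    have h6 : (b r - mean) / Q = 0 := h5.symm
    rw [div_eq_zero_iff] at h6
    rcases h6 with h6 | h6
    · linarith
    · exact absurd h6 hQ0.ne'
  have hk : b k = b (k % Q) := by
    have h1 := Nat.div_add_mod k Q
    conv_lhs => rw [← h1, add_comm]
    exact hper' _ _
  change b k = b 0
  rw [hk, key _ (Nat.mod_lt _ (by omega)), key 0 (by omega)]

/-- **no vector satisfies the summability conditions of the criterion, except zero** -/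
theorem no_criterion (X₀ : Set X) (S : X → X) (hS : ∀ x ∈ X₀, S x ∈ X₀)
    (h : ∀ x ∈ X₀, Summable (fun n : ℕ => (T ^ n) x) ∧ Summable (fun n : ℕ => S^[n] x) ∧ T (S x) = x)
    (x : X) (hx : x ∈ X₀) : x = 0 := by
  obtain ⟨h1, h2, -⟩ := h x hx
  have hSn : ∀ n, S^[n] x ∈ X₀ := by
    intro n
    induction n with
    | zero => exact hx
    | succ n ih => rw [Function.iterate_succ_apply']; exact hS _ ih
  have hTS1 : ∀ n, T (S^[n + 1] x) = S^[n] x := by
    intro n
    rw [Function.iterate_succ_apply']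
    exact (h _ (hSn n)).2.2
  have hTS : ∀ m n, (T ^ m) (S^[n + m] x) = S^[n] x := by
    intro m
    induction m with
    | zero => intro n; rfl
    | succ m ih =>
      intro n
      rw [pow_succ, mul_apply_eq_comp]
      have : n + (m + 1) = (n + m) + 1 := by ring
      rw [this, hTS1, ih]
  -- scalar summability
  let R : ℕ → (X →L[ℝ] ℝ) := fun k => (rho k).comp toW
  have hR : ∀ k (y : X), R k y = rho k (toW y) := fun k y => rfl
  have hf : ∀ k, Summable fun m : ℕ => |R k ((T ^ m) x)| := fun k =>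
    ((h1.map (R k) (R k).continuous)).abs
  have hg : ∀ k, Summable fun m : ℕ => |R k (S^[m] x)| := fun k =>
    ((h2.map (R k) (R k).continuous)).abs
  -- the periodic vectors
  have hinj : ∀ Q, 0 < Q → Function.Injective fun n : ℕ => Q * n := fun Q hQ a b hab =>
    Nat.eq_of_mul_eq_mul_left hQ hab
  have hinj' : ∀ Q, 0 < Q → Function.Injective fun n : ℕ => Q * (n + 1) := fun Q hQ a b hab => by
    have := Nat.eq_of_mul_eq_mul_left hQ hab
    omega
  have hs1 : ∀ Q, 0 < Q → Summable fun n : ℕ => (T ^ (Q * n)) x := fun Q hQ =>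
    h1.comp_injective (hinj Q hQ)
  have hs2 : ∀ Q, 0 < Q → Summable fun n : ℕ => S^[Q * (n + 1)] x := fun Q hQ =>
    h2.comp_injective (hinj' Q hQ)
  let P : ℕ → X := fun Q => (∑' n : ℕ, (T ^ (Q * n)) x) + ∑' n : ℕ, S^[Q * (n + 1)] x
  have hP : ∀ Q, 0 < Q → (T ^ Q) (P Q) = P Q := by
    intro Q hQ
    have hs3 : Summable fun n : ℕ => S^[Q * n] x := h2.comp_injective (hinj Q hQ)
    have e1 : (T ^ Q) (∑' n : ℕ, (T ^ (Q * n)) x) = ∑' n : ℕ, (T ^ (Q * (n + 1))) x := by
      rw [(T ^ Q).map_tsum (hs1 Q hQ)]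
      refine tsum_congr fun n => ?_
      rw [← mul_apply_eq_comp, ← pow_add]
      congr 2
      ring
    have e2 : (T ^ Q) (∑' n : ℕ, S^[Q * (n + 1)] x) = ∑' n : ℕ, S^[Q * n] x := by
      rw [(T ^ Q).map_tsum (hs2 Q hQ)]
      refine tsum_congr fun n => ?_
      have : Q * (n + 1) = Q * n + Q := by ring
      rw [this, hTS]
    have e3 : ∑' n : ℕ, (T ^ (Q * n)) x = x + ∑' n : ℕ, (T ^ (Q * (n + 1))) x := by
      rw [(hs1 Q hQ).tsum_eq_zero_add]
      simp
    have e4 : ∑' n : ℕ, S^[Q * n] x = x + ∑' n : ℕ, S^[Q * (n + 1)] x := by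
      rw [hs3.tsum_eq_zero_add]
      simp
    change (T ^ Q) (_ + _) = _
    rw [map_add, e1, e2, e4]
    change _ = (∑' n : ℕ, (T ^ (Q * n)) x) + _
    rw [e3]
    abel
  -- estimates of the coordinates
  have hest : ∀ k Q, 0 < Q → |R k (P Q) - R k x| ≤
      (∑' m : ℕ, |R k ((T ^ (m + Q)) x)|) + ∑' m : ℕ, |R k (S^[m + Q] x)| := by
    intro k Q hQ
    have e1 : R k (P Q) - R k x = (∑' n : ℕ, R k ((T ^ (Q * (n + 1))) x)) +
        ∑' n : ℕ, R k (S^[Q * (n + 1)] x) := by
      have hs4 : Summable fun n : ℕ => (T ^ (Q * (n + 1))) x := h1.comp_injective (hinj' Q hQ)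
      rw [← (R k).map_tsum (hs2 Q hQ), ← (R k).map_tsum hs4, ← map_add, ← map_sub]
      congr 1
      change (∑' n : ℕ, (T ^ (Q * n)) x) + _ - x = _
      rw [(hs1 Q hQ).tsum_eq_zero_add]
      simp only [Nat.mul_zero, pow_zero]
      change x + _ + _ - x = _
      abel
    rw [e1]
    have hcmp : ∀ (f : ℕ → ℝ), Summable (fun m => |f m|) →
        |∑' n : ℕ, f (Q * (n + 1))| ≤ ∑' m : ℕ, |f (m + Q)| := by
      intro f hf
      have h5 : Summable fun n : ℕ => |f (Q * (n + 1))| := hf.comp_injective (hinj' Q hQ)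
      have h6 : Summable fun m : ℕ => |f (m + Q)| := (summable_nat_add_iff Q).2 hf
      have h7 : |∑' n : ℕ, f (Q * (n + 1))| ≤ ∑' n : ℕ, |f (Q * (n + 1))| := by
        have := norm_tsum_le_tsum_norm (f := fun n : ℕ => f (Q * (n + 1))) (by simpa using h5)
        simpa using this
      refine h7.trans ?_
      have h8 : ∀ n : ℕ, |f (Q * (n + 1))| = (fun m : ℕ => |f (m + Q)|) (Q * n) := by
        intro n
        simp only
        congr 2
      calc ∑' n : ℕ, |f (Q * (n + 1))| = ∑' n : ℕ, (fun m : ℕ => |f (m + Q)|) (Q * n) :=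
            tsum_congr h8
        _ ≤ ∑' m : ℕ, |f (m + Q)| :=
            tsum_comp_le_tsum_of_inj h6 (fun _ => abs_nonneg _) (hinj Q hQ)
    exact (abs_add_le _ _).trans (add_le_add (hcmp _ (hf k)) (hcmp _ (hg k)))
  -- limits
  have hodd : Tendsto (fun n : ℕ => 2 * n + 3) atTop atTop :=
    tendsto_atTop_mono (fun n => by simp only [id]; omega) tendsto_id
  have hlim : ∀ k, Tendsto (fun n : ℕ => R k (P (2 * n + 3))) atTop (𝓝 (R k x)) := by
    intro k
    rw [tendsto_iff_norm_sub_tendsto_zero]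
    have h5 : Tendsto (fun Q : ℕ => (∑' m : ℕ, |R k ((T ^ (m + Q)) x)|) +
        ∑' m : ℕ, |R k (S^[m + Q] x)|) atTop (𝓝 (0 + 0)) :=
      (tendsto_sum_nat_add fun m => |R k ((T ^ m) x)|).add
        (tendsto_sum_nat_add fun m => |R k (S^[m] x)|)
    rw [add_zero] at h5
    refine squeeze_zero (fun _ => norm_nonneg _) (fun n => ?_) (h5.comp hodd)
    exact hest k (2 * n + 3) (by omega)
  have hconst : ∀ k, R k x = R 0 x := by
    intro k
    have h5 : (fun n : ℕ => R k (P (2 * n + 3))) = fun n : ℕ => R 0 (P (2 * n + 3)) := by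
      funext n
      exact const_of_odd_period _ n (hP _ (by omega)) k
    have h6 := hlim k
    rw [h5] at h6
    exact tendsto_nhds_unique h6 (hlim 0)
  have h0 : R 0 x = 0 := by
    have h5 := (hf 0).tendsto_atTop_zero
    have h6 : (fun m : ℕ => |R 0 ((T ^ m) x)|) = fun _ => |R 0 x| := by
      funext m
      rw [hR, rho_T_pow, zero_add, ← hR, hconst]
    rw [h6] at h5
    have := tendsto_nhds_unique tendsto_const_nhds h5
    exact abs_eq_zero.1 this
  have h7 := eq_zero_of_rho (toW x) (toW_mem x) fun k => by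
    rw [← hR, hconst, h0]
  exact toW_inj (h7.trans (map_zero toW).symm)

end Pool.Agent.Q201.Crit
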