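import Mathlib
import Pool.Agent.Q201.Crit2
import Pool.Agent.Helper932.FHCMain

/-!
# The frequently hypercyclic vector
-/

set_option autoImplicit false

open Filter Topology
open scoped ENNReal

namespace Pool.Agent.Q201.Crit

open Pool.Agent.Helper932.FHC (exists_targets norm_eq_tsum summable_norm_coord)

/-! ### parameters -/

/-- window length -/
def Lw (i : ℕ) : ℕ := 2 ^ (8 ^ i)
/-- safety distance -/
def Dw (i : ℕ) : ℕ := 2 ^ (2 * 8 ^ i)
/-- exponent of the period -/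
def Mw (i : ℕ) : ℕ := 4 * 8 ^ i
/-- period -/
def Nw (i : ℕ) : ℕ := 2 ^ Mw i

theorem bern (i : ℕ) : 7 * i + 1 ≤ 8 ^ i := by
  induction i with
  | zero => norm_num
  | succ i ih => rw [pow_succ]; omega

theorem pow8 {i j : ℕ} (h : i < j) : 8 * 8 ^ i ≤ 8 ^ j := by
  have : 8 ^ (i + 1) ≤ 8 ^ j := Nat.pow_le_pow_right (by norm_num) h
  rw [pow_succ] at this
  omega

theorem LN (i : ℕ) : 2 * (Lw i + Dw i) ≤ Nw i := by
  unfold Lw Dw Nw Mw
  have h1 : 1 ≤ 8 ^ i := Nat.one_le_pow _ _ (by norm_num)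
  have h2 : 2 ^ (8 ^ i) ≤ 2 ^ (2 * 8 ^ i) := Nat.pow_le_pow_right (by norm_num) (by omega)
  have h3 : 2 ^ (2 * 8 ^ i) * 2 ^ (2 * 8 ^ i) = 2 ^ (4 * 8 ^ i) := by rw [← pow_add]; ring_nf
  have h4 : 4 ≤ 2 ^ (2 * 8 ^ i) := by
    calc 4 = 2 ^ 2 := by norm_num
      _ ≤ _ := Nat.pow_le_pow_right (by norm_num) (by omega)
  nlinarith

theorem L_lt (i : ℕ) : i < Lw i := by
  unfold Lw
  have h1 := bern i
  have h2 : 8 ^ i < 2 ^ (8 ^ i) := Nat.lt_two_pow_self
  omega

theorem L_le_D (i : ℕ) : Lw i ≤ Dw i := Nat.pow_le_pow_right (by norm_num) (by omega)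

theorem Nw_dvd {i j : ℕ} (h : i ≤ j) : Nw i ∣ Nw j := by
  unfold Nw Mw
  exact pow_dvd_pow 2 (Nat.mul_le_mul_left 4 (Nat.pow_le_pow_right (by norm_num) h))

theorem Nw_pos (i : ℕ) : 0 < Nw i := by unfold Nw; positivity

/-! ### targets -/

/-- the targets -/
noncomputable def P : ℕ → lp (fun _ : ℕ => ℝ) 1 := Classical.choose (exists_targets ℝ)

theorem P_norm (i : ℕ) : ‖P i‖ ≤ 2 ^ i := (Classical.choose_spec (exists_targets ℝ)).1 i

theorem P_supp (i l : ℕ) (h : i < l) : P i l = 0 := (Classical.choose_spec (exists_targets ℝ)).2.1 i l h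

theorem P_dense (u : lp (fun _ : ℕ => ℝ) 1) (ε : ℝ) (k : ℕ) (hε : 0 < ε) : ∃ i, k ≤ i ∧ ‖P i - u‖ < ε :=
  (Classical.choose_spec (exists_targets ℝ)).2.2 u ε k hε

theorem P_le (i k : ℕ) : |P i k| ≤ 2 ^ i :=
  (lp.norm_apply_le_norm (by norm_num) (P i) k).trans (P_norm i)

/-! ### the periodic approximations -/

/-- the periodic sequences -/
noncomputable def v : ℕ → ℕ → ℝ
  | 0, _ => 0
  | i + 1, k => if Nw i - Lw i ≤ k % Nw i then P i (k % Nw i - (Nw i - Lw i)) else v i k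

theorem v_succ (i k : ℕ) : v (i + 1) k =
    if Nw i - Lw i ≤ k % Nw i then P i (k % Nw i - (Nw i - Lw i)) else v i k := rfl

theorem v_le (i k : ℕ) : |v i k| ≤ 2 ^ i := by
  induction i with
  | zero => simp [v]
  | succ i ih =>
    have h1 : (2 : ℝ) ^ i ≤ 2 ^ (i + 1) := pow_le_pow_right₀ (by norm_num) (by omega)
    rw [v_succ]
    split_ifs
    · exact (P_le _ _).trans h1
    · exact ih.trans h1

theorem v_period (i j k : ℕ) (h : i ≤ j + 1) : v i (k + Nw j) = v i k := by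
  induction i with
  | zero => rfl
  | succ i ih =>
    have h1 : (k + Nw j) % Nw i = k % Nw i := by
      obtain ⟨c, hc⟩ := Nw_dvd (show i ≤ j by omega)
      rw [hc, Nat.add_mul_mod_self_left]
    rw [v_succ, v_succ, h1, ih (by omega)]

/-- differences -/
noncomputable def dl (i k : ℕ) : ℝ := v (i + 1) k - v i k

theorem dl_period (i k : ℕ) : dl i (k + 2 ^ Mw i) = dl i k := by
  unfold dl
  rw [show 2 ^ Mw i = Nw i from rfl, v_period _ _ _ le_rfl, v_period _ _ _ (by omega)]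

theorem dl_le (i k : ℕ) : |dl i k| ≤ 2 ^ (i + 2) := by
  unfold dl
  have h1 := v_le (i + 1) k
  have h2 := v_le i k
  have h3 : (2 : ℝ) ^ (i + 2) = 2 ^ (i + 1) + 2 ^ i + 2 ^ i := by rw [pow_succ, pow_succ]; ring
  have h4 : (0 : ℝ) < 2 ^ i := by positivity
  refine (abs_sub _ _).trans ?_
  linarith

theorem dl_zero (i k : ℕ) (h : k % Nw i < Nw i - Lw i) : dl i k = 0 := by
  unfold dl
  rw [v_succ, if_neg (by omega), sub_self]

theorem dl_bdd (i n : ℕ) : ∃ C, ∀ k, |dl i (k + n)| ≤ C := ⟨2 ^ (i + 2), fun _ => dl_le i _⟩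

/-- counting the residues -/
theorem card_window (N L n : ℕ) (hN : 0 < N) (hL : L ≤ N) :
    ((Finset.range N).filter fun r => N - L ≤ (r + n) % N).card ≤ L := by
  have : ((Finset.range N).filter fun r => N - L ≤ (r + n) % N).card ≤ (Finset.range L).card := by
    apply Finset.card_le_card_of_injOn (fun r => (r + n) % N - (N - L))
    · intro r hr
      rw [Finset.mem_coe, Finset.mem_filter] at hr
      rw [Finset.mem_coe, Finset.mem_range]
      have := Nat.mod_lt (r + n) hN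
      have hr2 := hr.2
      show (r + n) % N - (N - L) < L
      omega
    · intro r hr r' hr' h
      rw [Finset.mem_coe, Finset.mem_filter, Finset.mem_range] at hr hr'
      simp only at h
      have h1 : (r + n) % N = (r' + n) % N := by omega
      have h2 : r ≡ r' [MOD N] := Nat.ModEq.add_right_cancel' n h1
      unfold Nat.ModEq at h2
      rwa [Nat.mod_eq_of_lt hr.1, Nat.mod_eq_of_lt hr'.1] at h2
  rwa [Finset.card_range] at this

/-- sums over a window -/
theorem sum_window (i n S : ℕ) (D : ℝ) (hD : 0 < D)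
    (h : ∀ r < Nw i, dl i (r + n) ≠ 0 → D ≤ (r : ℝ) + S + 1) :
    ∑ r ∈ Finset.range (2 ^ Mw i), |dl i (r + n)| * (1 / ((r : ℝ) + S + 1)) ≤
      Lw i * 2 ^ (i + 2) / D := by
  have hLN : Lw i ≤ Nw i := by have := LN i; omega
  have h1 : ∑ r ∈ Finset.range (Nw i), |dl i (r + n)| * (1 / ((r : ℝ) + S + 1)) ≤
      ∑ r ∈ (Finset.range (Nw i)).filter (fun r => Nw i - Lw i ≤ (r + n) % Nw i),
        (2 : ℝ) ^ (i + 2) / D := by
    rw [Finset.sum_filter]
    refine Finset.sum_le_sum fun r hr => ?_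
    rw [Finset.mem_range] at hr
    split_ifs with hc
    · by_cases h0 : dl i (r + n) = 0
      · rw [h0, abs_zero, zero_mul]; positivity
      · have h2 := h r hr h0
        calc |dl i (r + n)| * (1 / ((r : ℝ) + S + 1)) ≤ 2 ^ (i + 2) * (1 / D) :=
              mul_le_mul (dl_le _ _) (one_div_le_one_div_of_le hD h2) (by positivity) (by positivity)
          _ = 2 ^ (i + 2) / D := by rw [mul_one_div]
    · rw [dl_zero _ _ (by omega), abs_zero, zero_mul]
  refine h1.trans ?_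
  rw [Finset.sum_const, nsmul_eq_mul]
  have h3 : (((Finset.range (Nw i)).filter (fun r => Nw i - Lw i ≤ (r + n) % Nw i)).card : ℝ) ≤ Lw i := by
    exact_mod_cast card_window (Nw i) (Lw i) n (Nw_pos i) hLN
  rw [← mul_div_assoc]
  apply div_le_div_of_nonneg_right _ hD.le
  exact mul_le_mul_of_nonneg_right h3 (by positivity)

theorem per0 (m : ℕ) (g : ℕ → ℝ) (hg : ∀ k, g (k + 2 ^ m) = g k) (hb : ∃ C, ∀ k, |g k| ≤ C) :
    Phi (mkB g hb) ∈ XS ∧
      ‖Phi (mkB g hb)‖ ≤ ∑ r ∈ Finset.range (2 ^ m), |g r| * (1 / ((r : ℝ) + (0 : ℕ) + 1)) := by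
  have e : g = fun k => if 0 ≤ k then g (k - 0) else 0 := by
    funext k
    simp
  have hb' : ∃ C, ∀ k, |(if 0 ≤ k then g (k - 0) else 0)| ≤ C := by rw [e] at hb; exact hb
  have h1 := periodic_mem m 0 g hg hb'
  have h2 := periodic_norm m 0 g hg hb'
  have e2 : mkB g hb = mkB (fun k => if 0 ≤ k then g (k - 0) else 0) hb' := by
    ext k
    simp
  rw [e2]
  exact ⟨h1, h2⟩

/-- the differences as elements of the space -/
noncomputable def dX (i : ℕ) : X := mkX (Phi (mkB (fun k => dl i (k + 0)) (dl_bdd i 0)))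
  (per0 (Mw i) _ (fun k => dl_period i k) _).1

theorem T_dX (i n : ℕ) : toW ((T ^ n) (dX i)) = Phi (mkB (fun k => dl i (k + n)) (dl_bdd i n)) := by
  rw [coe_T_pow]
  unfold dX
  rw [toW_mkX, TW_pow_Phi]
  congr 1

theorem T_dX_norm (i n : ℕ) (D : ℝ) (hD : 0 < D)
    (h : ∀ r < Nw i, dl i (r + n) ≠ 0 → D ≤ (r : ℝ) + 1) :
    ‖(T ^ n) (dX i)‖ ≤ Lw i * 2 ^ (i + 2) / D := by
  rw [← norm_toW, T_dX]
  refine (per0 (Mw i) _ (fun k => ?_) _).2.trans ?_
  · have : k + 2 ^ Mw i + n = (k + n) + 2 ^ Mw i := by ring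
    rw [this, dl_period]
  · exact sum_window i n 0 D hD fun r hr h0 => by
      have := h r hr h0
      push_cast
      linarith

theorem dX_norm (i : ℕ) : ‖dX i‖ ≤ 8 * (1 / 2) ^ i := by
  have hLN := LN i
  have h1 := T_dX_norm i 0 ((Nw i - Lw i : ℕ) : ℝ) (by
    have : 0 < Nw i - Lw i := by have := L_lt i; omega
    exact_mod_cast this) (fun r hr h0 => by
    have : Nw i - Lw i ≤ r := by
      by_contra hcon
      apply h0
      apply dl_zero
      rw [add_zero, Nat.mod_eq_of_lt hr]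
      omega
    have h2 : ((Nw i - Lw i : ℕ) : ℝ) ≤ r := by exact_mod_cast this
    linarith)
  rw [pow_zero] at h1
  change ‖dX i‖ ≤ _ at h1
  refine h1.trans ?_
  have h2 : (Dw i : ℝ) ≤ ((Nw i - Lw i : ℕ) : ℝ) := by exact_mod_cast (by omega : Dw i ≤ Nw i - Lw i)
  have hDpos : (0 : ℝ) < Dw i := by unfold Dw; positivity
  calc (Lw i : ℝ) * 2 ^ (i + 2) / ((Nw i - Lw i : ℕ) : ℝ) ≤ (Lw i : ℝ) * 2 ^ (i + 2) / Dw i :=
        div_le_div_of_nonneg_left (by positivity) hDpos h2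
    _ ≤ 8 * (1 / 2) ^ i := by
        rw [div_le_iff₀ hDpos]
        unfold Lw Dw
        push_cast
        have h3 : (2 : ℝ) ^ (2 * 8 ^ i) = 2 ^ (8 ^ i) * 2 ^ (8 ^ i) := by rw [← pow_add]; ring_nf
        have h4 : (2 : ℝ) ^ (2 * i) ≤ 2 ^ (8 ^ i) :=
          pow_le_pow_right₀ (by norm_num) (by have := bern i; omega)
        have h5 : (2 : ℝ) ^ (2 * i) * (1 / 2) ^ i = 2 ^ i := by
          rw [pow_mul, ← mul_pow]; norm_num
        have h6 : (2 : ℝ) ^ i ≤ 2 ^ (8 ^ i) * (1 / 2) ^ i := by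
          rw [← h5]; exact mul_le_mul_of_nonneg_right h4 (by positivity)
        have h7 : (0 : ℝ) < 2 ^ (8 ^ i) := by positivity
        rw [h3]
        calc (2 : ℝ) ^ (8 ^ i) * 2 ^ (i + 2) = 2 ^ (8 ^ i) * (4 * 2 ^ i) := by rw [pow_add]; ring
          _ ≤ 2 ^ (8 ^ i) * (8 * (2 ^ (8 ^ i) * (1 / 2) ^ i)) := by
              apply mul_le_mul_of_nonneg_left _ h7.le
              have h9 : (0 : ℝ) < 2 ^ i := by positivity
              linarith
          _ = _ := by ring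

theorem dX_summable : Summable dX :=
  Summable.of_norm_bounded ((summable_geometric_of_lt_one (by norm_num) (by norm_num)).mul_left 8) dX_norm

/-- the frequently hypercyclic vector -/
noncomputable def u : X := ∑' i, dX i

theorem v_bdd (i n : ℕ) : ∃ C, ∀ k, |v i (k + n)| ≤ C := ⟨2 ^ i, fun _ => v_le i _⟩

theorem sum_dX (i : ℕ) : toW (∑ j ∈ Finset.range i, dX j) = Phi (mkB (fun k => v i (k + 0)) (v_bdd i 0)) := by
  induction i with
  | zero =>
    rw [Finset.sum_range_zero, map_zero]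
    have : mkB (fun k => v 0 (k + 0)) (v_bdd 0 0) = 0 := by
      ext k
      rfl
    rw [this, map_zero]
  | succ i ih =>
    rw [Finset.sum_range_succ, map_add, ih]
    unfold dX
    rw [toW_mkX, ← map_add]
    congr 1
    ext k
    rw [lp.coeFn_add, Pi.add_apply, mkB_apply, mkB_apply, mkB_apply]
    unfold dl
    ring

theorem P_bdd (i : ℕ) : ∃ C, ∀ k, |P i k| ≤ C := ⟨2 ^ i, P_le i⟩

theorem shv_bdd (i L : ℕ) : ∃ C, ∀ k, |(if L ≤ k then v i (k - L) else 0)| ≤ C :=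
  ⟨2 ^ i, fun k => by
    split_ifs
    · exact v_le i _
    · rw [abs_zero]; positivity⟩

theorem shdl_bdd (i L : ℕ) : ∃ C, ∀ k, |(if L ≤ k then dl i (k - L) else 0)| ≤ C :=
  ⟨2 ^ (i + 2), fun k => by
    split_ifs
    · exact dl_le i _
    · rw [abs_zero]; positivity⟩

/-- visit times of type `i` -/
def Vis (i : ℕ) : Set ℕ :=
  {n | n % Nw i = Nw i - Lw i ∧ ∀ I, i < I → n % Nw I + Dw I ≤ Nw I - Lw I}

/-- the beginning of the orbit at a visit time -/
theorem visit_dec (i n : ℕ) (hn : n % Nw i = Nw i - Lw i) :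
    toW ((T ^ n) (∑ j ∈ Finset.range (i + 1), dX j)) =
      Phi (mkB (P i) (P_bdd i)) +
        Phi (mkB (fun k => if Lw i ≤ k then v (i + 1) (k - Lw i) else 0) (shv_bdd (i + 1) (Lw i))) := by
  rw [coe_T_pow, sum_dX, TW_pow_Phi, ← map_add]
  congr 1
  ext k
  rw [sh_apply, lp.coeFn_add, Pi.add_apply, mkB_apply, mkB_apply, mkB_apply, add_zero]
  have hLN := LN i
  have hL0 := L_lt i
  by_cases hk : Lw i ≤ k
  · rw [if_pos hk, P_supp i k (by omega), zero_add]
    -- k + n = (k - L) + (n + L)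
    have h1 : Nw i ∣ n + Lw i := by
      rw [Nat.dvd_iff_mod_eq_zero, Nat.add_mod, hn, Nat.mod_eq_of_lt (show Lw i < Nw i by omega)]
      have : Nw i - Lw i + Lw i = Nw i := by omega
      rw [this, Nat.mod_self]
    obtain ⟨c, hc⟩ := h1
    have h2 : k + n = (k - Lw i) + Nw i * c := by omega
    have h3 : ∀ c k, v (i + 1) (k + Nw i * c) = v (i + 1) k := by
      intro c
      induction c with
      | zero => intro k; simp
      | succ c ih =>
        intro k
        have : k + Nw i * (c + 1) = (k + Nw i * c) + Nw i := by ring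
        rw [this, v_period _ _ _ le_rfl, ih]
    rw [h2, h3]
  · rw [if_neg hk, add_zero, v_succ]
    have h1 : (k + n) % Nw i = k + (Nw i - Lw i) := by
      have h2 : k % Nw i = k := Nat.mod_eq_of_lt (by omega)
      have h3 : (k + (Nw i - Lw i)) % Nw i = k + (Nw i - Lw i) := Nat.mod_eq_of_lt (by omega)
      rw [Nat.add_mod, hn, h2, h3]
    rw [h1, if_pos (by omega)]
    have h4 : k + (Nw i - Lw i) - (Nw i - Lw i) = k := by omega
    rw [h4]

/-- the shifted periodic sequence is small -/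
theorem shv_norm (i : ℕ) :
    ‖Phi (mkB (fun k => if Lw i ≤ k then v (i + 1) (k - Lw i) else 0) (shv_bdd (i + 1) (Lw i)))‖ ≤
      3 * (1 / 2) ^ i := by
  have hdec : ∀ J, mkB (fun k => if Lw i ≤ k then v J (k - Lw i) else 0) (shv_bdd J (Lw i)) =
      ∑ I ∈ Finset.range J, mkB (fun k => if Lw i ≤ k then dl I (k - Lw i) else 0) (shdl_bdd I (Lw i)) := by
    intro J
    induction J with
    | zero =>
      ext k
      simp [v]
    | succ J ih =>
      rw [Finset.sum_range_succ, ← ih]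
      ext k
      rw [lp.coeFn_add, Pi.add_apply, mkB_apply, mkB_apply, mkB_apply]
      unfold dl
      split_ifs
      · ring
      · ring
  rw [hdec, map_sum, Finset.sum_range_succ]
  have hLN := LN i
  have hLpos : (0 : ℝ) < Lw i := by unfold Lw; positivity
  have hNpos : (0 : ℝ) < Nw i := by exact_mod_cast Nw_pos i
  -- types below i
  have h1 : ∀ I < i, ‖Phi (mkB (fun k => if Lw i ≤ k then dl I (k - Lw i) else 0)
      (shdl_bdd I (Lw i)))‖ ≤ (1 / 2) ^ i * (1 / 2) ^ I := by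
    intro I hI
    refine (periodic_norm (Mw I) (Lw i) (dl I) (dl_period I) _).trans ?_
    have h2 := sum_window I 0 (Lw i) (Lw i) hLpos (fun r _ _ => by
      have : (0 : ℝ) ≤ r := Nat.cast_nonneg r
      linarith)
    simp only [add_zero] at h2
    refine h2.trans ?_
    rw [div_le_iff₀ hLpos]
    unfold Lw
    push_cast
    have h3 : (2 : ℝ) ^ (8 ^ I) * 2 ^ (I + 2) * (2 ^ i * 2 ^ I) ≤ 2 ^ (8 ^ i) := by
      rw [← pow_add, ← pow_add, ← pow_add]
      apply pow_le_pow_right₀ (by norm_num)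
      have h4 := pow8 hI
      have h5 := bern I
      have h6 : 8 * 8 ^ (i - 1) ≤ 8 ^ i := pow8 (by omega)
      have h7 := bern (i - 1)
      have h8 : 8 ^ I ≤ 8 ^ (i - 1) := Nat.pow_le_pow_right (by norm_num) (by omega)
      omega
    have h4 : (1 / 2 : ℝ) ^ i * (1 / 2) ^ I * (2 ^ i * 2 ^ I) = 1 := by
      have e1 : (1 / 2 : ℝ) ^ i * 2 ^ i = 1 := by rw [← mul_pow]; norm_num
      have e2 : (1 / 2 : ℝ) ^ I * 2 ^ I = 1 := by rw [← mul_pow]; norm_num
      calc (1 / 2 : ℝ) ^ i * (1 / 2) ^ I * (2 ^ i * 2 ^ I) =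
          ((1 / 2 : ℝ) ^ i * 2 ^ i) * ((1 / 2) ^ I * 2 ^ I) := by ring
        _ = 1 := by rw [e1, e2, one_mul]
    have h5 : (0 : ℝ) < (1 / 2) ^ i * (1 / 2) ^ I := by positivity
    calc (2 : ℝ) ^ (8 ^ I) * 2 ^ (I + 2) =
        ((2 : ℝ) ^ (8 ^ I) * 2 ^ (I + 2) * (2 ^ i * 2 ^ I)) * ((1 / 2) ^ i * (1 / 2) ^ I) := by
          rw [mul_assoc _ (2 ^ i * 2 ^ I : ℝ), mul_comm (2 ^ i * 2 ^ I : ℝ), h4, mul_one]
      _ ≤ 2 ^ (8 ^ i) * ((1 / 2) ^ i * (1 / 2) ^ I) := mul_le_mul_of_nonneg_right h3 h5.le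
      _ = _ := mul_comm _ _
  -- type i
  have h2 : ‖Phi (mkB (fun k => if Lw i ≤ k then dl i (k - Lw i) else 0)
      (shdl_bdd i (Lw i)))‖ ≤ (1 / 2) ^ i := by
    refine (periodic_norm (Mw i) (Lw i) (dl i) (dl_period i) _).trans ?_
    have h3 := sum_window i 0 (Lw i) (Nw i) hNpos (fun r hr h0 => by
      rw [add_zero] at h0
      have h4 : Nw i - Lw i ≤ r := by
        by_contra hcon
        apply h0
        apply dl_zero
        rw [Nat.mod_eq_of_lt hr]
        omega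
      have h5 : (Nw i : ℝ) ≤ r + Lw i := by exact_mod_cast (by omega : Nw i ≤ r + Lw i)
      linarith)
    simp only [add_zero] at h3
    refine h3.trans ?_
    rw [div_le_iff₀ hNpos]
    unfold Lw Nw Mw
    push_cast
    have h4 : (2 : ℝ) ^ (8 ^ i) * 2 ^ (i + 2) * 2 ^ i ≤ 2 ^ (4 * 8 ^ i) := by
      rw [← pow_add, ← pow_add]
      apply pow_le_pow_right₀ (by norm_num)
      have := bern i
      omega
    have e1 : (2 : ℝ) ^ i * (1 / 2) ^ i = 1 := by rw [← mul_pow]; norm_num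
    calc (2 : ℝ) ^ (8 ^ i) * 2 ^ (i + 2) = (2 : ℝ) ^ (8 ^ i) * 2 ^ (i + 2) * (2 ^ i * (1 / 2) ^ i) := by
          rw [e1, mul_one]
      _ = ((2 : ℝ) ^ (8 ^ i) * 2 ^ (i + 2) * 2 ^ i) * (1 / 2) ^ i := by ring
      _ ≤ 2 ^ (4 * 8 ^ i) * (1 / 2) ^ i := mul_le_mul_of_nonneg_right h4 (by positivity)
      _ = _ := mul_comm _ _
  have h3 : ‖∑ I ∈ Finset.range i, Phi (mkB (fun k => if Lw i ≤ k then dl I (k - Lw i) else 0)
      (shdl_bdd I (Lw i)))‖ ≤ 2 * (1 / 2) ^ i := by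
    refine (norm_sum_le _ _).trans ?_
    refine (Finset.sum_le_sum fun I hI => h1 I (Finset.mem_range.1 hI)).trans ?_
    rw [← Finset.mul_sum]
    have h4 : ∑ I ∈ Finset.range i, (1 / 2 : ℝ) ^ I ≤ 2 := by
      have h5 : ∀ J, ∑ I ∈ Finset.range J, (1 / 2 : ℝ) ^ I = 2 - 2 * (1 / 2) ^ J := by
        intro J
        induction J with
        | zero => norm_num
        | succ J ih => rw [Finset.sum_range_succ, ih, pow_succ]; ring
      rw [h5]
      have : (0 : ℝ) < (1 / 2) ^ i := by positivity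
      linarith
    have h5 : (0 : ℝ) < (1 / 2) ^ i := by positivity
    nlinarith
  refine (norm_add_le _ _).trans ?_
  linarith

/-- the orbit at a visit time -/
theorem visit_norm (i n : ℕ) (hn : n ∈ Vis i) :
    ‖toW ((T ^ n) u) - Phi (mkB (P i) (P_bdd i))‖ ≤ 7 * (1 / 2) ^ i := by
  obtain ⟨hn1, hn2⟩ := hn
  have hsum : HasSum (fun j => (T ^ n) (dX j)) ((T ^ n) u) := (T ^ n).hasSum dX_summable.hasSum
  have h1 := hsum.summable.sum_add_tsum_nat_add (i + 1)
  rw [hsum.tsum_eq] at h1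
  -- the tail
  have htail : ‖∑' j, (T ^ n) (dX (j + (i + 1)))‖ ≤ 4 * (1 / 2) ^ i := by
    have hb : ∀ j : ℕ, ‖(T ^ n) (dX (j + (i + 1)))‖ ≤ 2 * (1 / 2) ^ i * (1 / 2) ^ j := by
      intro j
      set I := j + (i + 1) with hI
      have hDpos : (0 : ℝ) < Dw I := by unfold Dw; positivity
      refine (T_dX_norm I n (Dw I) hDpos (fun r hr h0 => ?_)).trans ?_
      · have h3 : Dw I ≤ r := by
          by_contra hcon
          apply h0
          apply dl_zero
          have h4 := hn2 I (by omega)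
          have h5 := LN I
          have h6 := L_lt I
          rw [Nat.add_mod, Nat.mod_eq_of_lt hr, Nat.mod_eq_of_lt (by omega)]
          omega
        have : (Dw I : ℝ) ≤ r := by exact_mod_cast h3
        linarith
      · rw [div_le_iff₀ hDpos]
        unfold Lw Dw
        push_cast
        have h3 : (2 : ℝ) ^ (2 * 8 ^ I) = 2 ^ (8 ^ I) * 2 ^ (8 ^ I) := by rw [← pow_add]; ring_nf
        have h4 : (2 : ℝ) ^ (2 * I + 1) ≤ 2 ^ (8 ^ I) :=
          pow_le_pow_right₀ (by norm_num) (by have := bern I; omega)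
        have h5 : (2 : ℝ) ^ (2 * I + 1) * (1 / 2) ^ I = 2 * 2 ^ I := by
          rw [pow_add, pow_mul, mul_right_comm, ← mul_pow, pow_one]
          have : (2 : ℝ) ^ 2 * (1 / 2) = 2 := by norm_num
          rw [this, mul_comm]
        have h6 : (1 / 2 : ℝ) ^ I = (1 / 2) ^ i * (1 / 2) ^ j * (1 / 2) := by
          rw [hI, pow_add, pow_add]; ring
        have h7 : 2 * (2 : ℝ) ^ I ≤ 2 ^ (8 ^ I) * (1 / 2) ^ I := by
          rw [← h5]; exact mul_le_mul_of_nonneg_right h4 (by positivity)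
        rw [h6] at h7
        have h8 : (0 : ℝ) < 2 ^ (8 ^ I) := by positivity
        rw [h3]
        calc (2 : ℝ) ^ (8 ^ I) * 2 ^ (I + 2) = 2 ^ (8 ^ I) * (2 * (2 * 2 ^ I)) := by rw [pow_add]; ring
          _ ≤ 2 ^ (8 ^ I) * (4 * (2 ^ (8 ^ I) * ((1 / 2) ^ i * (1 / 2) ^ j * (1 / 2)))) := by
              apply mul_le_mul_of_nonneg_left _ h8.le
              have : (0 : ℝ) < 2 ^ I := by positivity
              nlinarith
          _ = _ := by ring
    have hg : HasSum (fun j : ℕ => 2 * (1 / 2 : ℝ) ^ i * (1 / 2) ^ j) (4 * (1 / 2) ^ i) := by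
      have := (hasSum_geometric_of_lt_one (r := (1 / 2 : ℝ)) (by norm_num) (by norm_num)).mul_left
        (2 * (1 / 2 : ℝ) ^ i)
      have e : 2 * (1 / 2 : ℝ) ^ i * (1 - 1 / 2)⁻¹ = 4 * (1 / 2) ^ i := by
        rw [show ((1 : ℝ) - 1 / 2)⁻¹ = 2 by norm_num]
        ring
      rw [e] at this
      exact this
    exact tsum_of_norm_bounded hg hb
  have h2 : toW ((T ^ n) u) - Phi (mkB (P i) (P_bdd i)) =
      Phi (mkB (fun k => if Lw i ≤ k then v (i + 1) (k - Lw i) else 0) (shv_bdd (i + 1) (Lw i))) +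
        toW (∑' j, (T ^ n) (dX (j + (i + 1)))) := by
    rw [← h1, map_add, ← map_sum (T ^ n), visit_dec i n hn1]
    abel
  rw [h2]
  refine (norm_add_le _ _).trans ?_
  rw [norm_toW]
  have := shv_norm i
  linarith

end Pool.Agent.Q201.Crit
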