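import Mathlib
import Pool.Agent.Q201.Crit3

/-!
# Mixing, chaos, frequent hypercyclicity of the shift
-/

set_option autoImplicit false

open Filter Topology
open scoped ENNReal

namespace Pool.Agent.Q201.Crit

/-- unit vectors -/
noncomputable def E (k : ℕ) : X := mkX (Phi (ee k)) (ee_mem k)

theorem E_norm (k : ℕ) : ‖E k‖ ≤ 1 / ((k : ℝ) + 1) := ee_norm k

theorem toW_E (k : ℕ) : toW (E k) = Phi (ee k) := rfl

theorem dense_fin (a : X) (ε : ℝ) (hε : 0 < ε) :
    ∃ (c : ℕ → ℝ) (K : ℕ), ‖a - ∑ k ∈ Finset.range K, c k • E k‖ < ε := by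
  have h1 : toW a ∈ closure (XF : Set W) := toW_mem a
  obtain ⟨b, hb, hab⟩ := Metric.mem_closure_iff.1 h1 ε hε
  obtain ⟨c, hc⟩ := Finsupp.mem_span_range_iff_exists_finsupp.1 hb
  obtain ⟨K, hK⟩ := c.support.exists_nat_subset_range
  refine ⟨c, K, ?_⟩
  rw [dist_eq_norm] at hab
  have h2 : toW (∑ k ∈ Finset.range K, c k • E k) = b := by
    have h3 : (c.sum fun i a => a • Phi (ee i)) = ∑ i ∈ Finset.range K, c i • Phi (ee i) :=
      Finsupp.sum_of_support_subset c hK (fun i a => a • Phi (ee i)) (fun i _ => zero_smul ℝ _)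
    rw [← hc, map_sum, h3]
    exact Finset.sum_congr rfl fun k _ => by rw [map_smul, toW_E]
  rw [← norm_toW, map_sub, h2]
  exact hab

theorem T_E_lt (n k : ℕ) (h : k < n) : (T ^ n) (E k) = 0 := by
  apply toW_inj
  rw [coe_T_pow, toW_E, TW_pow_Phi, map_zero]
  have : sh n (ee k) = 0 := by
    ext l
    rw [sh_apply, ee_apply, if_neg (by omega)]
    rfl
  rw [this, map_zero]

theorem T_E_add (n k : ℕ) : (T ^ n) (E (k + n)) = E k := by
  apply toW_inj
  rw [coe_T_pow, toW_E, TW_pow_Phi, toW_E]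
  congr 1
  ext l
  rw [sh_apply, ee_apply, ee_apply]
  simp

theorem mixing (U V : Set X) (hU : IsOpen U) (hV : IsOpen V) (hUn : U.Nonempty) (hVn : V.Nonempty) :
    ∃ N : ℕ, ∀ n : ℕ, N ≤ n → ((⇑(T ^ n)) ⁻¹' V ∩ U).Nonempty := by
  obtain ⟨a, ha⟩ := hUn
  obtain ⟨b, hb⟩ := hVn
  obtain ⟨ε, hε, hεU⟩ := Metric.isOpen_iff.1 hU a ha
  obtain ⟨δ, hδ, hδV⟩ := Metric.isOpen_iff.1 hV b hb
  obtain ⟨c, K, hc⟩ := dense_fin a (ε / 2) (by positivity)
  obtain ⟨c', K', hc'⟩ := dense_fin b δ hδ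
  set C := ∑ k ∈ Finset.range K', |c' k| with hC
  have hC0 : 0 ≤ C := Finset.sum_nonneg fun k _ => abs_nonneg _
  obtain ⟨M, hM⟩ := exists_nat_gt (C / (ε / 2))
  refine ⟨max K M, fun n hn => ?_⟩
  have hKn : K ≤ n := (le_max_left _ _).trans hn
  have hMn : M ≤ n := (le_max_right _ _).trans hn
  refine ⟨∑ k ∈ Finset.range K, c k • E k + ∑ k ∈ Finset.range K', c' k • E (k + n), ?_, ?_⟩
  · rw [Set.mem_preimage, map_add, map_sum, map_sum]
    have e1 : ∑ k ∈ Finset.range K, (T ^ n) (c k • E k) = 0 := by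
      refine Finset.sum_eq_zero fun k hk => ?_
      rw [Finset.mem_range] at hk
      rw [map_smul, T_E_lt n k (by omega), smul_zero]
    have e2 : ∑ k ∈ Finset.range K', (T ^ n) (c' k • E (k + n)) =
        ∑ k ∈ Finset.range K', c' k • E k := by
      refine Finset.sum_congr rfl fun k _ => ?_
      rw [map_smul, T_E_add]
    rw [e1, e2, zero_add]
    apply hδV
    rw [Metric.mem_ball, dist_comm, dist_eq_norm]
    exact hc'
  · apply hεU
    rw [Metric.mem_ball, dist_comm, dist_eq_norm]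
    have e1 : ‖∑ k ∈ Finset.range K', c' k • E (k + n)‖ ≤ C / (n + 1) := by
      refine (norm_sum_le _ _).trans ?_
      rw [hC, Finset.sum_div]
      refine Finset.sum_le_sum fun k _ => ?_
      rw [norm_smul, Real.norm_eq_abs, div_eq_mul_one_div]
      refine mul_le_mul_of_nonneg_left ((E_norm _).trans ?_) (abs_nonneg _)
      apply one_div_le_one_div_of_le (by positivity)
      push_cast
      have : (0 : ℝ) ≤ k := Nat.cast_nonneg k
      linarith
    have e2 : C / (n + 1) < ε / 2 := by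
      rw [div_lt_iff₀ (by positivity)]
      rw [div_lt_iff₀ (by positivity)] at hM
      have h3 : (M : ℝ) ≤ n := by exact_mod_cast hMn
      nlinarith
    have e3 : a - (∑ k ∈ Finset.range K, c k • E k + ∑ k ∈ Finset.range K', c' k • E (k + n)) =
        (a - ∑ k ∈ Finset.range K, c k • E k) - ∑ k ∈ Finset.range K', c' k • E (k + n) := by abel
    rw [e3]
    refine (norm_sub_le _ _).trans_lt ?_
    linarith

/-- periodic vectors -/
noncomputable def FX (k m : ℕ) : X := mkX (Phi (mkB (F k (2 ^ m)) (F_bdd _ _))) (F_mem k m)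

theorem FX_sub (k m : ℕ) : ‖E k - FX k m‖ ≤ 1 / (2 : ℝ) ^ m := by
  have hM : 0 < 2 ^ m := by positivity
  have h1 : mkB (F k (2 ^ m)) (F_bdd _ _) = ee k + mkB (F (k + 2 ^ m) (2 ^ m)) (F_bdd _ _) := by
    ext l
    rw [lp.coeFn_add, Pi.add_apply, mkB_apply, mkB_apply, ee_apply]
    unfold F
    by_cases h1 : l = k
    · subst h1
      rw [if_pos ⟨le_rfl, by simp⟩, if_pos rfl, if_neg (by omega), add_zero]
    · rw [if_neg h1, zero_add]
      by_cases h2 : k ≤ l
      · by_cases h3 : k + 2 ^ m ≤ l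
        · have h4 : (l - (k + 2 ^ m)) % 2 ^ m = (l - k) % 2 ^ m := by
            have : l - k = (l - (k + 2 ^ m)) + 2 ^ m := by omega
            rw [this, Nat.add_mod_right]
          rw [h4]
          simp only [h2, h3, true_and]
        · have hA : ¬ (k ≤ l ∧ (l - k) % 2 ^ m = 0) := by
            rintro ⟨_, h5⟩
            rw [Nat.mod_eq_of_lt (by omega)] at h5
            omega
          rw [if_neg hA, if_neg (fun h => h3 h.1)]
      · rw [if_neg (fun h => h2 h.1), if_neg (fun h => h2 (by omega))]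
  rw [← norm_toW, map_sub, toW_E]
  unfold FX
  rw [toW_mkX, h1, map_add, sub_add_cancel_left, norm_neg]
  refine (F_norm _ _).trans ?_
  apply one_div_le_one_div_of_le (by positivity)
  push_cast
  have : (0 : ℝ) ≤ k := Nat.cast_nonneg k
  linarith

theorem FX_periodic (k m : ℕ) (hk : k < 2 ^ m) : (T ^ (2 ^ m)) (FX k m) = FX k m := by
  apply toW_inj
  rw [coe_T_pow]
  unfold FX
  rw [toW_mkX, TW_pow_Phi]
  congr 1
  ext l
  rw [sh_apply, mkB_apply, mkB_apply]
  unfold F
  by_cases h2 : k ≤ l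
  · have h3 : l + 2 ^ m - k = (l - k) + 2 ^ m := by omega
    rw [h3, Nat.add_mod_right]
    simp only [h2, true_and, (by omega : k ≤ l + 2 ^ m)]
  · rw [if_neg, if_neg (fun h => h2 h.1)]
    rintro ⟨_, h4⟩
    rw [Nat.mod_eq_of_lt (by omega)] at h4
    omega

theorem periodic_dense : Dense {x : X | ∃ n : ℕ, 0 < n ∧ (T ^ n) x = x} := by
  rw [Metric.dense_iff]
  intro a r hr
  obtain ⟨c, K, hc⟩ := dense_fin a (r / 2) (by positivity)
  set C := ∑ k ∈ Finset.range K, |c k| with hC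
  have hC0 : 0 ≤ C := Finset.sum_nonneg fun k _ => abs_nonneg _
  obtain ⟨M, hM⟩ := exists_nat_gt (C / (r / 2))
  set m := max K M with hm
  have hKm : K ≤ m := le_max_left _ _
  have hMm : M ≤ m := le_max_right _ _
  have hm2 : m < 2 ^ m := Nat.lt_two_pow_self
  refine ⟨∑ k ∈ Finset.range K, c k • FX k m, ?_, 2 ^ m, by positivity, ?_⟩
  · rw [Metric.mem_ball, dist_comm, dist_eq_norm]
    have e1 : a - ∑ k ∈ Finset.range K, c k • FX k m =
        (a - ∑ k ∈ Finset.range K, c k • E k) + ∑ k ∈ Finset.range K, c k • (E k - FX k m) := by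
      simp only [smul_sub, Finset.sum_sub_distrib]
      abel
    rw [e1]
    refine (norm_add_le _ _).trans_lt ?_
    have e2 : ‖∑ k ∈ Finset.range K, c k • (E k - FX k m)‖ ≤ C / 2 ^ m := by
      refine (norm_sum_le _ _).trans ?_
      rw [hC, Finset.sum_div]
      refine Finset.sum_le_sum fun k _ => ?_
      rw [norm_smul, Real.norm_eq_abs, div_eq_mul_one_div]
      exact mul_le_mul_of_nonneg_left (FX_sub _ _) (abs_nonneg _)
    have e3 : C / 2 ^ m < r / 2 := by
      rw [div_lt_iff₀ (by positivity)]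
      rw [div_lt_iff₀ (by positivity)] at hM
      have h3 : (M : ℝ) ≤ 2 ^ m := by exact_mod_cast (by omega : M ≤ 2 ^ m)
      nlinarith
    linarith
  · rw [map_sum]
    refine Finset.sum_congr rfl fun k hk => ?_
    rw [Finset.mem_range] at hk
    rw [map_smul, FX_periodic k m (by omega)]

end Pool.Agent.Q201.Crit
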