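import Mathlib
import Pool.Agent.Q201.Crit4

/-!
# Frequent hypercyclicity: counting the visit times
-/

set_option autoImplicit false

open Filter Topology
open scoped ENNReal

namespace Pool.Agent.Q201.Crit

/-- counting numbers whose residue lies in the top `G` classes -/
theorem card_top (K G Y : ℕ) (hG : 2 * G ≤ K) (hK : 0 < K) :
    ((Finset.range Y).filter fun t => K - G ≤ t % K).card * K ≤ 3 * Y * G := by
  rcases Nat.lt_or_ge (K - G) Y with hY | hY
  · have h1 : ((Finset.range Y).filter fun t => K - G ≤ t % K).card ≤ (Y / K + 1) * G := by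
      have h2 : ((Finset.range Y).filter fun t => K - G ≤ t % K).card ≤
          ((Finset.range (Y / K + 1)) ×ˢ (Finset.range G)).card := by
        apply Finset.card_le_card_of_injOn (fun t => (t / K, t % K - (K - G)))
        · intro t ht
          rw [Finset.mem_coe, Finset.mem_filter, Finset.mem_range] at ht
          rw [Finset.mem_coe, Finset.mem_product, Finset.mem_range, Finset.mem_range]
          have h3 := Nat.mod_lt t hK
          have h4 : t / K ≤ Y / K := Nat.div_le_div_right ht.1.le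
          have h5 := ht.2
          refine ⟨Nat.lt_succ_of_le h4, ?_⟩
          show t % K - (K - G) < G
          omega
        · intro t ht t' ht' h
          rw [Finset.mem_coe, Finset.mem_filter, Finset.mem_range] at ht ht'
          simp only [Prod.mk.injEq] at h
          have h3 : t % K = t' % K := by omega
          have h4 := Nat.div_add_mod t K
          have h5 := Nat.div_add_mod t' K
          rw [h.1, h3] at h4
          omega
      rwa [Finset.card_product, Finset.card_range, Finset.card_range] at h2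
    have h3 : (Y / K + 1) * K ≤ 3 * Y := by
      have := Nat.div_mul_le_self Y K
      have e : (Y / K + 1) * K = Y / K * K + K := by ring
      rw [e]
      omega
    calc ((Finset.range Y).filter fun t => K - G ≤ t % K).card * K ≤ (Y / K + 1) * G * K :=
          Nat.mul_le_mul_right _ h1
      _ = (Y / K + 1) * K * G := by ring
      _ ≤ 3 * Y * G := Nat.mul_le_mul_right _ h3
  · rw [Finset.card_eq_zero.2, zero_mul]
    · exact Nat.zero_le _
    · rw [Finset.filter_eq_empty_iff]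
      intro t ht
      rw [Finset.mem_range] at ht
      rw [Nat.mod_eq_of_lt (by omega)]
      omega

/-- relative period -/
def Kw (i I : ℕ) : ℕ := 2 ^ (4 * 8 ^ I - 4 * 8 ^ i)
/-- relative width -/
def Gw (i I : ℕ) : ℕ := 2 ^ (1 + 2 * 8 ^ I - 4 * 8 ^ i)

theorem NK {i I : ℕ} (h : i < I) : Nw I = Nw i * Kw i I := by
  have := pow8 h
  unfold Nw Kw Mw
  rw [← pow_add]
  congr 1
  omega

theorem DG {i I : ℕ} (h : i < I) : 2 * Dw I = Nw i * Gw i I := by
  have := pow8 h
  unfold Nw Gw Mw Dw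
  rw [← pow_add, ← pow_succ']
  congr 1
  have : 1 ≤ 8 ^ i := Nat.one_le_pow _ _ (by norm_num)
  omega

theorem GK {i I : ℕ} (h : i < I) : Gw i I * 2 ^ (2 * I + 6) ≤ Kw i I := by
  have h1 := pow8 h
  have h2 := bern i
  have h3 := bern I
  unfold Gw Kw
  rw [← pow_add]
  apply Nat.pow_le_pow_right (by norm_num)
  omega

/-- the bad numbers of type `I` -/
theorem bad_sub {i I : ℕ} (h : i < I) (t : ℕ)
    (hb : ¬ ((Nw i * t + (Nw i - Lw i)) % Nw I + Dw I ≤ Nw I - Lw I)) :
    Kw i I - Gw i I ≤ t % Kw i I := by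
  have hNi := Nw_pos i
  have hK : 0 < Kw i I := by unfold Kw; positivity
  have hLi := L_lt i
  have hLNi := LN i
  have hLNI := LN I
  have hLD := L_le_D I
  have h1 : (Nw i * t + (Nw i - Lw i)) % Nw I = Nw i * (t % Kw i I) + (Nw i - Lw i) := by
    rw [NK h, Nat.mod_mul, Nat.mul_add_mod, Nat.mod_eq_of_lt (by omega : Nw i - Lw i < Nw i),
      Nat.mul_add_div hNi, Nat.div_eq_of_lt (by omega : Nw i - Lw i < Nw i), add_zero, add_comm]
  rw [h1] at hb
  by_contra hcon
  apply hb
  have h2 : t % Kw i I + 1 ≤ Kw i I - Gw i I := by omega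
  have h3 : Nw i * (t % Kw i I + 1) ≤ Nw i * (Kw i I - Gw i I) := Nat.mul_le_mul_left _ h2
  rw [Nat.mul_sub, ← NK h, ← DG h, Nat.mul_add, mul_one] at h3
  omega

theorem bad_card {i I : ℕ} (h : i < I) (Y : ℕ) :
    (((Finset.range Y).filter fun t =>
      ¬ ((Nw i * t + (Nw i - Lw i)) % Nw I + Dw I ≤ Nw I - Lw I)).card : ℝ) ≤
      Y * (1 / 4) ^ I / 16 := by
  have hK : 0 < Kw i I := by unfold Kw; positivity
  have h1 : ((Finset.range Y).filter fun t =>
      ¬ ((Nw i * t + (Nw i - Lw i)) % Nw I + Dw I ≤ Nw I - Lw I)).card ≤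
      ((Finset.range Y).filter fun t => Kw i I - Gw i I ≤ t % Kw i I).card := by
    apply Finset.card_le_card
    intro t ht
    rw [Finset.mem_filter] at ht ⊢
    exact ⟨ht.1, bad_sub h t ht.2⟩
  have h2 := GK h
  have h3 : 2 ^ (2 * I + 6) = 64 * 4 ^ I := by rw [pow_add, pow_mul]; norm_num; ring
  have h4 : 1 ≤ 4 ^ I := Nat.one_le_pow _ _ (by norm_num)
  have h5 := card_top (Kw i I) (Gw i I) Y (by rw [h3] at h2; nlinarith) hK
  have h6 : ((Finset.range Y).filter fun t => Kw i I - Gw i I ≤ t % Kw i I).card * (64 * 4 ^ I) ≤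
      3 * Y := by
    rcases Nat.eq_zero_or_pos (Gw i I) with h7 | h7
    · exfalso
      unfold Gw at h7
      have : 0 < 2 ^ (1 + 2 * 8 ^ I - 4 * 8 ^ i) := by positivity
      omega
    · apply Nat.le_of_mul_le_mul_right _ h7
      calc ((Finset.range Y).filter fun t => Kw i I - Gw i I ≤ t % Kw i I).card * (64 * 4 ^ I) * Gw i I
          = ((Finset.range Y).filter fun t => Kw i I - Gw i I ≤ t % Kw i I).card *
            (Gw i I * (64 * 4 ^ I)) := by ring
        _ ≤ ((Finset.range Y).filter fun t => Kw i I - Gw i I ≤ t % Kw i I).card * Kw i I := by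
            apply Nat.mul_le_mul_left
            rw [← h3]
            exact h2
        _ ≤ _ := h5
  have h7 : (((Finset.range Y).filter fun t => Kw i I - Gw i I ≤ t % Kw i I).card : ℝ) * (64 * 4 ^ I) ≤
      3 * Y := by exact_mod_cast h6
  have h8 : (((Finset.range Y).filter fun t =>
      ¬ ((Nw i * t + (Nw i - Lw i)) % Nw I + Dw I ≤ Nw I - Lw I)).card : ℝ) ≤
      (((Finset.range Y).filter fun t => Kw i I - Gw i I ≤ t % Kw i I).card : ℝ) := by
    exact_mod_cast h1
  refine h8.trans ?_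
  have h9 : (1 / 4 : ℝ) ^ I * 4 ^ I = 1 := by rw [← mul_pow]; norm_num
  have h10 : (0 : ℝ) < (1 / 4) ^ I := by positivity
  have h11 := mul_le_mul_of_nonneg_right h7 h10.le
  have h12 : (((Finset.range Y).filter fun t => Kw i I - Gw i I ≤ t % Kw i I).card : ℝ) * (64 * 4 ^ I) *
      (1 / 4) ^ I = 64 * (((Finset.range Y).filter fun t => Kw i I - Gw i I ≤ t % Kw i I).card : ℝ) := by
    calc _ = 64 * (((Finset.range Y).filter fun t => Kw i I - Gw i I ≤ t % Kw i I).card : ℝ) *
          ((1 / 4 : ℝ) ^ I * 4 ^ I) := by ring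
      _ = _ := by rw [h9, mul_one]
  rw [h12] at h11
  have h13 : (0 : ℝ) ≤ Y * (1 / 4) ^ I := by positivity
  nlinarith

theorem bad_empty {i I : ℕ} (h : i < I) (Y : ℕ) (hY : Y ≤ I) (t : ℕ) (ht : t < Y) :
    (Nw i * t + (Nw i - Lw i)) % Nw I + Dw I ≤ Nw I - Lw I := by
  by_contra hcon
  have h1 := bad_sub h t hcon
  have h2 := GK h
  have h3 : 2 ^ (2 * I + 6) = 64 * 4 ^ I := by rw [pow_add, pow_mul]; norm_num; ring
  have h4 : I < 4 ^ I := Nat.lt_pow_self (by norm_num)
  have h5 : 0 < Gw i I := by unfold Gw; positivity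
  rw [h3] at h2
  have h6 : t < Kw i I := by nlinarith
  rw [Nat.mod_eq_of_lt h6] at h1
  have h7 : Gw i I * 64 * I ≤ Kw i I := by nlinarith
  have h8 : Gw i I + I < Gw i I * (64 * 4 ^ I) := by nlinarith
  omega

open Classical in
theorem vis_count (i Y : ℕ) :
    (Y : ℝ) / 2 ≤ (((Finset.range Y).filter fun t => (Nw i * t + (Nw i - Lw i)) ∈ Vis i).card : ℝ) := by
  have hNi := Nw_pos i
  have hLi := L_lt i
  have hLNi := LN i
  have hsub : Finset.range Y ⊆ ((Finset.range Y).filter fun t => (Nw i * t + (Nw i - Lw i)) ∈ Vis i) ∪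
      (Finset.range Y).biUnion (fun j => (Finset.range Y).filter fun t =>
        ¬ ((Nw i * t + (Nw i - Lw i)) % Nw (i + 1 + j) + Dw (i + 1 + j) ≤
          Nw (i + 1 + j) - Lw (i + 1 + j))) := by
    intro t ht
    rw [Finset.mem_union, Finset.mem_filter, Finset.mem_biUnion]
    by_cases hv : (Nw i * t + (Nw i - Lw i)) ∈ Vis i
    · exact Or.inl ⟨ht, hv⟩
    · right
      have h1 : (Nw i * t + (Nw i - Lw i)) % Nw i = Nw i - Lw i := by
        rw [Nat.mul_add_mod, Nat.mod_eq_of_lt (by omega)]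
      have h2 : ∃ I, i < I ∧ ¬ ((Nw i * t + (Nw i - Lw i)) % Nw I + Dw I ≤ Nw I - Lw I) := by
        by_contra hcon
        push Not at hcon
        exact hv ⟨h1, hcon⟩
      obtain ⟨I, hI, hbad⟩ := h2
      rw [Finset.mem_range] at ht
      have h3 : I < Y := by
        by_contra hcon
        exact hbad (bad_empty hI Y (by omega) t ht)
      refine ⟨I - (i + 1), ?_, ?_⟩
      · rw [Finset.mem_range]; omega
      · rw [Finset.mem_filter, Finset.mem_range]
        have h4 : i + 1 + (I - (i + 1)) = I := by omega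
        rw [h4]
        exact ⟨ht, hbad⟩
  have h1 := Finset.card_le_card hsub
  rw [Finset.card_range] at h1
  have h2 : (Y : ℝ) ≤ (((Finset.range Y).filter fun t => (Nw i * t + (Nw i - Lw i)) ∈ Vis i).card : ℝ) +
      ∑ j ∈ Finset.range Y, (((Finset.range Y).filter fun t =>
        ¬ ((Nw i * t + (Nw i - Lw i)) % Nw (i + 1 + j) + Dw (i + 1 + j) ≤
          Nw (i + 1 + j) - Lw (i + 1 + j))).card : ℝ) := by
    have h3 := h1.trans ((Finset.card_union_le _ _).trans
      (Nat.add_le_add_left Finset.card_biUnion_le _))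
    exact_mod_cast h3
  have h3 : ∑ j ∈ Finset.range Y, (((Finset.range Y).filter fun t =>
        ¬ ((Nw i * t + (Nw i - Lw i)) % Nw (i + 1 + j) + Dw (i + 1 + j) ≤
          Nw (i + 1 + j) - Lw (i + 1 + j))).card : ℝ) ≤ Y / 2 := by
    have h4 : ∀ j ∈ Finset.range Y, (((Finset.range Y).filter fun t =>
        ¬ ((Nw i * t + (Nw i - Lw i)) % Nw (i + 1 + j) + Dw (i + 1 + j) ≤
          Nw (i + 1 + j) - Lw (i + 1 + j))).card : ℝ) ≤ (Y / 4 : ℝ) * (1 / 2) ^ j := by
      intro j _
      refine (bad_card (by omega) Y).trans ?_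
      have h5 : (1 / 4 : ℝ) ^ (i + 1 + j) ≤ (1 / 2) ^ j := by
        calc (1 / 4 : ℝ) ^ (i + 1 + j) ≤ (1 / 4) ^ j :=
              pow_le_pow_of_le_one (by norm_num) (by norm_num) (by omega)
          _ ≤ (1 / 2) ^ j := pow_le_pow_left₀ (by norm_num) (by norm_num) j
      have hY : (0 : ℝ) ≤ Y := Nat.cast_nonneg Y
      have h6 := mul_le_mul_of_nonneg_left h5 hY
      have h7 : (0 : ℝ) ≤ Y * (1 / 2) ^ j := by positivity
      linarith
    refine (Finset.sum_le_sum h4).trans ?_
    rw [← Finset.mul_sum]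
    have h5 : ∀ J : ℕ, ∑ j ∈ Finset.range J, (1 / 2 : ℝ) ^ j = 2 - 2 * (1 / 2) ^ J := by
      intro J
      induction J with
      | zero => norm_num
      | succ J ih => rw [Finset.sum_range_succ, ih, pow_succ]; ring
    rw [h5]
    have h6 : (0 : ℝ) < (1 / 2) ^ Y := by positivity
    have hY : (0 : ℝ) ≤ Y := Nat.cast_nonneg Y
    nlinarith
  linarith

open Classical in
theorem vis_card (i n : ℕ) (hn : 2 * Nw i ≤ n) :
    (n : ℝ) / (4 * Nw i) ≤ (((Finset.range n).filter fun k => k ∈ Vis i).card : ℝ) := by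
  have hNi := Nw_pos i
  have hNr : (0 : ℝ) < Nw i := by exact_mod_cast hNi
  have hLi := L_lt i
  have hLNi := LN i
  have h1 := vis_count i (n / Nw i)
  have h2 : ((Finset.range (n / Nw i)).filter fun t => (Nw i * t + (Nw i - Lw i)) ∈ Vis i).card ≤
      ((Finset.range n).filter fun k => k ∈ Vis i).card := by
    apply Finset.card_le_card_of_injOn (fun t => Nw i * t + (Nw i - Lw i))
    · intro t ht
      rw [Finset.mem_coe, Finset.mem_filter, Finset.mem_range] at ht ⊢
      refine ⟨?_, ht.2⟩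
      have h3 : Nw i * (t + 1) ≤ Nw i * (n / Nw i) := Nat.mul_le_mul_left _ ht.1
      have h4 := Nat.mul_div_le n (Nw i)
      rw [Nat.mul_add, mul_one] at h3
      show Nw i * t + (Nw i - Lw i) < n
      omega
    · intro t _ t' _ h
      have h' : Nw i * t = Nw i * t' := by
        simp only at h
        omega
      exact Nat.eq_of_mul_eq_mul_left hNi h'
  have h3 : (((Finset.range (n / Nw i)).filter fun t => (Nw i * t + (Nw i - Lw i)) ∈ Vis i).card : ℝ) ≤
      (((Finset.range n).filter fun k => k ∈ Vis i).card : ℝ) := by exact_mod_cast h2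
  refine le_trans ?_ (h1.trans h3)
  rw [div_le_iff₀ (by positivity)]
  have h4 : (n : ℝ) ≤ Nw i * (n / Nw i : ℕ) + Nw i := by
    have h5 := Nat.div_add_mod n (Nw i)
    have h6 := Nat.mod_lt n hNi
    exact_mod_cast (by omega : n ≤ Nw i * (n / Nw i) + Nw i)
  have h5 : (2 : ℝ) ≤ (n / Nw i : ℕ) := by
    exact_mod_cast (Nat.le_div_iff_mul_le hNi).2 hn
  nlinarith

/-- unit vectors of `ℓ¹` -/
noncomputable def e1 (k : ℕ) : lp (fun _ : ℕ => ℝ) 1 := lp.single 1 k (1 : ℝ)

theorem e1_apply (k l : ℕ) : e1 k l = if l = k then 1 else 0 := by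
  unfold e1
  rw [lp.single_apply, Pi.single_apply]

/-- approximation of a vector by the targets -/
theorem targets (a : X) (ε : ℝ) (hε : 0 < ε) (k₀ : ℕ) :
    ∃ i, k₀ ≤ i ∧ ‖toW a - Phi (mkB (P i) (P_bdd i))‖ < ε := by
  obtain ⟨c, K, hc⟩ := dense_fin a (ε / 2) (by positivity)
  obtain ⟨i, hi, hPi⟩ := P_dense (∑ k ∈ Finset.range K, c k • e1 k) (ε / 2) k₀ (by positivity)
  refine ⟨i, hi, ?_⟩
  have h1 : toW (∑ k ∈ Finset.range K, c k • E k) = Phi (∑ k ∈ Finset.range K, c k • ee k) := by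
    rw [map_sum, map_sum]
    exact Finset.sum_congr rfl fun k _ => by rw [map_smul, map_smul, toW_E]
  have h2 : ‖toW (∑ k ∈ Finset.range K, c k • E k) - Phi (mkB (P i) (P_bdd i))‖ ≤
      ‖P i - ∑ k ∈ Finset.range K, c k • e1 k‖ := by
    rw [h1, ← map_sub]
    refine Phi_norm_le _ _ (norm_nonneg _) fun j => A_le _ _ (fun l => ?_) j
    have h3 : (∑ k ∈ Finset.range K, c k • ee k : B) l =
        (∑ k ∈ Finset.range K, c k • e1 k : lp (fun _ : ℕ => ℝ) 1) l := by
      rw [lp.coeFn_sum, Finset.sum_apply, lp.coeFn_sum, Finset.sum_apply]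
      refine Finset.sum_congr rfl fun k _ => ?_
      rw [lp.coeFn_smul, Pi.smul_apply, ee_apply, lp.coeFn_smul, Pi.smul_apply, e1_apply]
    rw [lp.coeFn_sub, Pi.sub_apply, mkB_apply, h3, abs_sub_comm]
    have := lp.norm_apply_le_norm (by norm_num) (P i - ∑ k ∈ Finset.range K, c k • e1 k) l
    rwa [lp.coeFn_sub, Pi.sub_apply, Real.norm_eq_abs] at this
  have h3 : toW a - Phi (mkB (P i) (P_bdd i)) = toW (a - ∑ k ∈ Finset.range K, c k • E k) +
      (toW (∑ k ∈ Finset.range K, c k • E k) - Phi (mkB (P i) (P_bdd i))) := by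
    rw [map_sub]; abel
  rw [h3]
  refine (norm_add_le _ _).trans_lt ?_
  rw [norm_toW]
  linarith

/-- **frequent hypercyclicity** -/
theorem fhc (U : Set X) (hU : IsOpen U) (hUn : U.Nonempty) :
    ∃ δ : ℝ, 0 < δ ∧ ∃ N₀ : ℕ, ∀ N : ℕ, N₀ ≤ N →
      δ * (N : ℝ) ≤ (Nat.card {n : ℕ // n < N ∧ (T ^ n) u ∈ U} : ℝ) := by
  classical
  obtain ⟨a, ha⟩ := hUn
  obtain ⟨ε, hε, hεU⟩ := Metric.isOpen_iff.1 hU a ha
  obtain ⟨k₀, hk₀⟩ := exists_pow_lt_of_lt_one (by positivity : 0 < ε / 14) (by norm_num : (1 / 2 : ℝ) < 1)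
  obtain ⟨i, hi, hai⟩ := targets a (ε / 2) (by positivity) k₀
  have hNr : (0 : ℝ) < Nw i := by exact_mod_cast Nw_pos i
  refine ⟨1 / (4 * Nw i), by positivity, 2 * Nw i, fun N hN => ?_⟩
  have h1 := vis_card i N hN
  have h2 : ((Finset.range N).filter fun k => k ∈ Vis i).card ≤
      Nat.card {n : ℕ // n < N ∧ (T ^ n) u ∈ U} := by
    have h3 : Nat.card {n : ℕ // n < N ∧ (T ^ n) u ∈ U} =
        ((Finset.range N).filter fun n => (T ^ n) u ∈ U).card := by
      rw [Nat.subtype_card]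
      intro n
      rw [Finset.mem_filter, Finset.mem_range]
    rw [h3]
    apply Finset.card_le_card
    intro k hk
    rw [Finset.mem_filter] at hk ⊢
    refine ⟨hk.1, hεU ?_⟩
    rw [Metric.mem_ball, dist_eq_norm, ← norm_toW, map_sub]
    have h4 := visit_norm i k hk.2
    have h5 : toW ((T ^ k) u) - toW a = (toW ((T ^ k) u) - Phi (mkB (P i) (P_bdd i))) -
        (toW a - Phi (mkB (P i) (P_bdd i))) := by abel
    rw [h5]
    refine (norm_sub_le _ _).trans_lt ?_
    have h6 : (1 / 2 : ℝ) ^ i ≤ (1 / 2) ^ k₀ := pow_le_pow_of_le_one (by norm_num) (by norm_num) hi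
    linarith
  have h3 : (((Finset.range N).filter fun k => k ∈ Vis i).card : ℝ) ≤
      (Nat.card {n : ℕ // n < N ∧ (T ^ n) u ∈ U} : ℝ) := by exact_mod_cast h2
  calc 1 / (4 * (Nw i : ℝ)) * N = (N : ℝ) / (4 * Nw i) := by ring
    _ ≤ _ := h1.trans h3

theorem dense_orbit : Dense (Set.range fun n : ℕ => (T ^ n) u) := by
  rw [dense_iff_inter_open]
  intro U hU hUn
  obtain ⟨δ, hδ, N₀, hN⟩ := fhc U hU hUn
  have h1 := hN (N₀ + 1) (by omega)
  have h2 : 0 < Nat.card {n : ℕ // n < N₀ + 1 ∧ (T ^ n) u ∈ U} := by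
    by_contra hcon
    have h3 : Nat.card {n : ℕ // n < N₀ + 1 ∧ (T ^ n) u ∈ U} = 0 := by omega
    rw [h3] at h1
    push_cast at h1
    have : 0 < δ * ((N₀ : ℝ) + 1) := by positivity
    linarith
  obtain ⟨⟨n, _, hn⟩⟩ := (Nat.card_pos_iff.1 h2).1
  exact ⟨(T ^ n) u, hn, n, rfl⟩

instance : TopologicalSpace.SeparableSpace X :=
  ⟨⟨_, Set.countable_range fun n : ℕ => (T ^ n) u, dense_orbit⟩⟩

theorem E_ne : E 0 ≠ 0 := by
  intro h
  have h1 : rho 0 (toW (E 0)) = 0 := by rw [h, map_zero, map_zero]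
  rw [toW_E, rho_Phi, ee_apply, if_pos rfl] at h1
  exact one_ne_zero h1

end Pool.Agent.Q201.Crit
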