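import Mathlib

/-!
# Every separable Banach space (real or complex) has a cyclic operator; on every non-zero one the
operator can be chosen with a range inside a closed hyperplane
-/

set_option autoImplicit false

open Filter Topology ContinuousLinearMap

namespace Pool.Agent.Q201.CC

variable {𝕜 : Type*} [RCLike 𝕜]

theorem exists_sep {Y : Type*} [NormedAddCommGroup Y] [NormedSpace 𝕜 Y] (V : Submodule 𝕜 Y)
    (hV : IsClosed (V : Set Y)) (x : Y) (hx : x ∉ V) :
    ∃ f : Y →L[𝕜] 𝕜, (∀ v ∈ V, f v = 0) ∧ f x = 1 := by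
  have : IsClosed (V : Set Y) := hV
  have hne : (V.mkQ x : Y ⧸ V) ≠ 0 := by
    rwa [Submodule.mkQ_apply, ne_eq, Submodule.Quotient.mk_eq_zero]
  obtain ⟨g, hg⟩ := SeparatingDual.exists_eq_one (R := 𝕜) hne
  refine ⟨g.comp V.mkQL, fun v hv => ?_, ?_⟩
  · have : V.mkQ v = 0 := by rwa [Submodule.mkQ_apply, Submodule.Quotient.mk_eq_zero]
    rw [comp_apply, Submodule.mkQL_apply, this, map_zero]
  · rw [comp_apply, Submodule.mkQL_apply, hg]

section
variable {Y : Type*} [NormedAddCommGroup Y] [NormedSpace 𝕜 Y]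

open Classical in
/-- the first member of the sequence outside of a subspace -/
noncomputable def pick (u : ℕ → Y) (W : Submodule 𝕜 Y) : Y :=
  if h : ∃ k, u k ∉ W then u (Nat.find h) else 0

variable (𝕜) in
/-- increasing sequence of finite dimensional subspaces -/
noncomputable def VV (u : ℕ → Y) : ℕ → Submodule 𝕜 Y
  | 0 => ⊥
  | n + 1 => VV u n ⊔ Submodule.span 𝕜 {pick u (VV u n)}

theorem VV_zero (u : ℕ → Y) : VV 𝕜 u 0 = ⊥ := rfl

theorem VV_succ (u : ℕ → Y) (n : ℕ) :
    VV 𝕜 u (n + 1) = VV 𝕜 u n ⊔ Submodule.span 𝕜 {pick u (VV 𝕜 u n)} := rfl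

theorem VV_fin (u : ℕ → Y) (n : ℕ) : FiniteDimensional 𝕜 (VV 𝕜 u n) := by
  induction n with
  | zero => rw [VV_zero]; infer_instance
  | succ n ih => rw [VV_succ]; infer_instance

theorem VV_mono (u : ℕ → Y) : Monotone (VV 𝕜 u) := monotone_nat_of_le_succ fun n => by
  rw [VV_succ]
  exact le_sup_left

theorem pick_mem (u : ℕ → Y) (n : ℕ) : pick u (VV 𝕜 u n) ∈ VV 𝕜 u (n + 1) := by
  rw [VV_succ]
  exact Submodule.mem_sup_right (Submodule.mem_span_singleton_self _)

theorem mem_VV (u : ℕ → Y) (n : ℕ) : ∀ i < n, u i ∈ VV 𝕜 u n := by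
  classical
  induction n with
  | zero => intro i hi; omega
  | succ n ih =>
    intro i hi
    rcases Nat.lt_succ_iff_lt_or_eq.1 hi with h | h
    · exact VV_mono u (Nat.le_succ n) (ih i h)
    · subst h
      by_cases hu : u i ∈ VV 𝕜 u i
      · exact VV_mono u (Nat.le_succ i) hu
      · have hex : ∃ k, u k ∉ VV 𝕜 u i := ⟨i, hu⟩
        have h1 : Nat.find hex = i := by
          refine le_antisymm (Nat.find_min' hex hu) ?_
          by_contra hlt
          exact Nat.find_spec hex (ih _ (not_le.1 hlt))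
        have h2 : pick u (VV 𝕜 u i) = u i := by
          unfold pick
          rw [dif_pos hex]
          convert congrArg u h1
        rw [← h2]
        exact pick_mem u i

theorem pick_zero (u : ℕ → Y) (n : ℕ) (h : pick u (VV 𝕜 u n) ∈ VV 𝕜 u n) :
    pick u (VV 𝕜 u (n + 1)) = 0 := by
  classical
  have h1 : ¬ ∃ k, u k ∉ VV 𝕜 u n := by
    intro hex
    unfold pick at h
    rw [dif_pos hex] at h
    exact Nat.find_spec hex h
  have h2 : ¬ ∃ k, u k ∉ VV 𝕜 u (n + 1) := by
    rintro ⟨k, hk⟩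
    exact h1 ⟨k, fun h => hk (VV_mono u (Nat.le_succ n) h)⟩
  unfold pick
  rw [dif_neg h2]

end

/-- Every separable Banach space has a cyclic operator. -/
theorem exists_cyclic (Y : Type*) [NormedAddCommGroup Y] [NormedSpace 𝕜 Y] [CompleteSpace Y]
    [TopologicalSpace.SeparableSpace Y] : ∃ (A : Y →L[𝕜] Y) (y : Y),
      Dense (Submodule.span 𝕜 (Set.range fun n : ℕ => (A ^ n) y) : Set Y) := by
  classical
  obtain ⟨u, hud⟩ := TopologicalSpace.exists_dense_seq Y
  obtain ⟨x, hx⟩ : ∃ x : ℕ → Y, ∀ n, x n = pick u (VV 𝕜 u n) := ⟨_, fun _ => rfl⟩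
  have hx1 : ∀ m n, m < n → x m ∈ VV 𝕜 u n := fun m n h => by
    rw [hx]
    exact VV_mono u (Nat.succ_le_of_lt h) (pick_mem u m)
  have hf : ∀ n, ∃ f : Y →L[𝕜] 𝕜, (∀ v ∈ VV 𝕜 u n, f v = 0) ∧ (x n ∉ VV 𝕜 u n → f (x n) = 1) := by
    intro n
    have := VV_fin (𝕜 := 𝕜) u n
    by_cases h : x n ∈ VV 𝕜 u n
    · exact ⟨0, fun _ _ => rfl, fun h' => absurd h h'⟩
    · obtain ⟨f, hf1, hf2⟩ := exists_sep (VV 𝕜 u n) (VV 𝕜 u n).closed_of_finiteDimensional (x n) h
      exact ⟨f, hf1, fun _ => hf2⟩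
  choose f hf1 hf2 using hf
  obtain ⟨w, hw⟩ : ∃ w : ℕ → ℝ, ∀ n, w n = (1 / 2) ^ n / (‖f n‖ * ‖x (n + 1)‖ + 1) :=
    ⟨_, fun _ => rfl⟩
  have hw0 : ∀ n, 0 < w n := fun n => by rw [hw]; positivity
  obtain ⟨B, hBdef⟩ : ∃ B : ℕ → (Y →L[𝕜] Y), ∀ n, B n = ((w n : ℝ) : 𝕜) • (f n).smulRight (x (n + 1)) :=
    ⟨_, fun _ => rfl⟩
  have hB : ∀ n, ‖B n‖ ≤ (1 / 2) ^ n := by
    intro n
    rw [hBdef]
    rw [norm_smul, norm_smulRight_apply, RCLike.norm_ofReal, abs_of_pos (hw0 n)]
    rw [hw]
    rw [div_mul_eq_mul_div, div_le_iff₀ (by positivity)]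
    refine mul_le_mul_of_nonneg_left ?_ (by positivity)
    linarith
  have hsum : Summable B := Summable.of_norm_bounded
    (summable_geometric_of_lt_one (by norm_num) (by norm_num)) hB
  obtain ⟨A, hAs⟩ : ∃ A : Y →L[𝕜] Y, HasSum B A := ⟨_, hsum.hasSum⟩
  have hA : ∀ m, A (x m) = ∑ n ∈ Finset.range (m + 1), ((w n : 𝕜) * f n (x m)) • x (n + 1) := by
    intro m
    have h1 : HasSum (fun n => B n (x m)) (A (x m)) :=
      (ContinuousLinearMap.apply 𝕜 Y (x m)).hasSum hAs
    have h2 : HasSum (fun n => B n (x m)) (∑ n ∈ Finset.range (m + 1), B n (x m)) := by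
      refine hasSum_sum_of_ne_finset_zero fun n hn => ?_
      have hn' : m < n := by
        have := Finset.mem_range.not.1 hn
        omega
      rw [hBdef, smul_apply, smulRight_apply]
      rw [hf1 n (x m) (hx1 m n hn'), zero_smul, smul_zero]
    rw [h1.unique h2]
    refine Finset.sum_congr rfl fun n _ => ?_
    rw [hBdef, smul_apply, smulRight_apply, smul_smul]
  refine ⟨A, x 0, ?_⟩
  set W := Submodule.span 𝕜 (Set.range fun n : ℕ => (A ^ n) (x 0)) with hW
  have hinv : ∀ y ∈ W, A y ∈ W := by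
    intro y hy
    refine Submodule.span_induction ?_ ?_ ?_ ?_ hy
    · rintro _ ⟨n, rfl⟩
      refine Submodule.subset_span ⟨n + 1, ?_⟩
      simp only [pow_succ', mul_apply_eq_comp]
    · rw [map_zero]; exact Submodule.zero_mem _
    · intro a b _ _ ha hb
      rw [map_add]; exact Submodule.add_mem _ ha hb
    · intro c a _ ha
      rw [map_smul]; exact Submodule.smul_mem _ _ ha
  have hmem : ∀ m, ∀ i ≤ m, x i ∈ W := by
    intro m
    induction m with
    | zero =>
      intro i hi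
      have : i = 0 := by omega
      subst this
      exact Submodule.subset_span ⟨0, by simp⟩
    | succ m ih =>
      intro i hi
      rcases Nat.le_succ_iff.1 hi with h | h
      · exact ih i h
      · subst h
        by_cases hm : x m ∈ VV 𝕜 u m
        · have : x (m + 1) = 0 := by
            rw [hx] at hm ⊢
            exact pick_zero u m hm
          rw [this]
          exact W.zero_mem
        · have h1 := hinv _ (ih m le_rfl)
          rw [hA m, Finset.sum_range_succ, hf2 m hm, mul_one] at h1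
          have h2 : ∑ n ∈ Finset.range m, ((w n : 𝕜) * f n (x m)) • x (n + 1) ∈ W :=
            Submodule.sum_mem _ fun n hn =>
              Submodule.smul_mem _ _ (ih (n + 1) (by have := Finset.mem_range.1 hn; omega))
          have h3 := (Submodule.add_mem_iff_right W h2).1 h1
          have h4 : (w m : 𝕜) ≠ 0 := by exact_mod_cast (hw0 m).ne'
          exact (Submodule.smul_mem_iff W h4).1 h3
  have hVW : ∀ n, VV 𝕜 u n ≤ W := by
    intro n
    induction n with
    | zero => rw [VV_zero]; exact bot_le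
    | succ n ih =>
      rw [VV_succ]
      refine sup_le ih ?_
      rw [Submodule.span_le]
      rintro _ rfl
      rw [← hx]
      exact hmem n n le_rfl
  have hu : ∀ k, u k ∈ W := fun k => hVW (k + 1) (mem_VV u (k + 1) k (Nat.lt_succ_self k))
  refine Dense.mono ?_ hud
  rintro _ ⟨k, rfl⟩
  exact hu k

/-- On every non-zero separable Banach space there is a cyclic contraction whose range lies in the
kernel of a non-zero functional. -/
theorem exists_cyclic_ker (X : Type*) [NormedAddCommGroup X] [NormedSpace 𝕜 X] [CompleteSpace X]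
    [TopologicalSpace.SeparableSpace X] [Nontrivial X] : ∃ (S : X →L[𝕜] X) (x : X) (g : X →L[𝕜] 𝕜),
      ‖S‖ ≤ 1 ∧ Dense (Submodule.span 𝕜 (Set.range fun n : ℕ => (S ^ n) x) : Set X) ∧
      g x ≠ 0 ∧ ∀ y, g (S y) = 0 := by
  obtain ⟨x0, hx0⟩ := exists_ne (0 : X)
  obtain ⟨g, hg⟩ := SeparatingDual.exists_eq_one (R := 𝕜) hx0
  have hc : CompleteSpace g.ker := g.isClosed_ker.completeSpace_coe
  have hsc : SecondCountableTopology X := UniformSpace.secondCountable_of_separable X
  obtain ⟨A, z, hAz⟩ := exists_cyclic (𝕜 := 𝕜) g.ker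
  -- the projection onto the kernel
  let P : X →L[𝕜] g.ker := (ContinuousLinearMap.id 𝕜 X - g.smulRight x0).codRestrict g.ker (by
    intro y
    change g (y - g y • x0) = 0
    rw [map_sub, map_smul, hg, smul_eq_mul, mul_one, sub_self])
  let S0 : X →L[𝕜] X := g.ker.subtypeL.comp (A.comp P) + g.smulRight (z : X)
  have hgS : ∀ y, g (S0 y) = 0 := by
    intro y
    have h1 : g ((A (P y) : g.ker) : X) = 0 := (A (P y)).2
    have h2 : g (z : X) = 0 := z.2
    change g (((A (P y) : g.ker) : X) + g y • (z : X)) = 0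
    rw [map_add, h1, map_smul, h2, smul_zero, add_zero]
  have hP0 : P x0 = 0 := by
    apply Subtype.ext
    change x0 - g x0 • x0 = 0
    rw [hg, one_smul, sub_self]
  have hPk : ∀ v : g.ker, P (v : X) = v := by
    intro v
    apply Subtype.ext
    change (v : X) - g (v : X) • x0 = v
    have : g (v : X) = 0 := v.2
    rw [this, zero_smul, sub_zero]
  have hS0x : S0 x0 = z := by
    change ((A (P x0) : g.ker) : X) + g x0 • (z : X) = z
    rw [hP0, map_zero, hg, one_smul]
    simp
  have hS0k : ∀ v : g.ker, S0 (v : X) = (A v : g.ker) := by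
    intro v
    change ((A (P v) : g.ker) : X) + g v • (z : X) = _
    have : g (v : X) = 0 := v.2
    rw [hPk, this, zero_smul, add_zero]
  have hpow : ∀ n, (S0 ^ (n + 1)) x0 = ((A ^ n) z : g.ker) := by
    intro n
    induction n with
    | zero => simpa using hS0x
    | succ n ih =>
      rw [pow_succ', mul_apply_eq_comp, ih, hS0k, pow_succ', mul_apply_eq_comp]
  -- scaling
  obtain ⟨c, hc0, hcS⟩ : ∃ c : ℝ, 0 < c ∧ c * ‖S0‖ ≤ 1 :=
    ⟨(‖S0‖ + 1)⁻¹, by positivity, by
      rw [inv_mul_le_iff₀ (by positivity)]; linarith⟩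
  have hc0' : (c : 𝕜) ≠ 0 := by exact_mod_cast hc0.ne'
  refine ⟨(c : 𝕜) • S0, x0, g, ?_, ?_, by rw [hg]; exact one_ne_zero, fun y => ?_⟩
  · rw [norm_smul, RCLike.norm_ofReal, abs_of_pos hc0]
    exact hcS
  · have e : Submodule.span 𝕜 (Set.range fun n : ℕ => (((c : 𝕜) • S0) ^ n) x0) =
        Submodule.span 𝕜 (Set.range fun n : ℕ => (S0 ^ n) x0) := by
      apply le_antisymm
      · rw [Submodule.span_le]
        rintro _ ⟨n, rfl⟩
        have : (((c : 𝕜) • S0) ^ n) x0 = (c : 𝕜) ^ n • (S0 ^ n) x0 := by rw [smul_pow, smul_apply]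
        simp only [this]
        exact Submodule.smul_mem _ _ (Submodule.subset_span ⟨n, rfl⟩)
      · rw [Submodule.span_le]
        rintro _ ⟨n, rfl⟩
        have : (S0 ^ n) x0 = ((c : 𝕜) ^ n)⁻¹ • (((c : 𝕜) • S0) ^ n) x0 := by
          rw [smul_pow, smul_apply, smul_smul, inv_mul_cancel₀ (pow_ne_zero _ hc0'), one_smul]
        simp only [this]
        exact Submodule.smul_mem _ _ (Submodule.subset_span ⟨n, rfl⟩)
    rw [e]
    set W := Submodule.span 𝕜 (Set.range fun n : ℕ => (S0 ^ n) x0) with hW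
    have hx0W : x0 ∈ W := Submodule.subset_span ⟨0, by simp⟩
    have hkW : ∀ v ∈ Submodule.span 𝕜 (Set.range fun n : ℕ => (A ^ n) z), (v : X) ∈ W := by
      intro v hv
      refine Submodule.span_induction ?_ ?_ ?_ ?_ hv
      · rintro _ ⟨n, rfl⟩
        exact Submodule.subset_span ⟨n + 1, hpow n⟩
      · exact W.zero_mem
      · intro a b _ _ ha hb
        exact W.add_mem ha hb
      · intro r a _ ha
        exact W.smul_mem r ha
    rw [Metric.dense_iff]
    intro y r hr
    obtain ⟨v, hv1, hv2⟩ := Metric.dense_iff.1 hAz (P y) r hr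
    refine ⟨(v : X) + g y • x0, ?_, W.add_mem (hkW v hv2) (W.smul_mem _ hx0W)⟩
    rw [Metric.mem_ball, dist_eq_norm] at hv1 ⊢
    have h3 : (v : X) + g y • x0 - y = ((v - P y : g.ker) : X) := by
      change _ = (v : X) - (y - g y • x0)
      abel
    rw [h3]
    exact hv1
  · rw [smul_apply, map_smul, hgS, smul_zero]

end Pool.Agent.Q201.CC
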