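import Mathlib

/-!
# A semigroup of 2x2 blocks
-/

set_option autoImplicit false

open Filter Topology
open scoped ENNReal

namespace Pool.Agent.Q201.Dist

variable (𝕂 : Type) [RCLike 𝕂]

/-- `ℓ¹` of pairs -/
abbrev X : Type := lp (fun _ : ℕ => 𝕂 × 𝕂) 1

variable {𝕂}

theorem norm_eq (x : X 𝕂) : ‖x‖ = ∑' k, ‖x k‖ := by
  rw [lp.norm_eq_tsum_rpow (by norm_num)]
  simp

theorem summ (x : X 𝕂) : Summable fun k => ‖x k‖ := by
  have := (memℓp_gen_iff (by norm_num : 0 < (1 : ℝ≥0∞).toReal)).1 (lp.memℓp x)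
  simpa using this

theorem mem_of_summ (f : ℕ → 𝕂 × 𝕂) (h : Summable fun k => ‖f k‖) : Memℓp f 1 := by
  apply memℓp_gen
  simpa using h

/-- action of a block -/
def blk (α β : ℝ) (v : 𝕂 × 𝕂) : 𝕂 × 𝕂 := ((α : 𝕂) * v.1 + (β : 𝕂) * v.2, (α : 𝕂) * v.2)

theorem blk_norm (α β : ℝ) (v : 𝕂 × 𝕂) : ‖blk α β v‖ ≤ (|α| + |β|) * ‖v‖ := by
  have h1 : ‖v.1‖ ≤ ‖v‖ := norm_fst_le v
  have h2 : ‖v.2‖ ≤ ‖v‖ := norm_snd_le v
  unfold blk
  rw [Prod.norm_def]
  refine max_le ?_ ?_
  · refine (norm_add_le _ _).trans ?_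
    rw [norm_mul, norm_mul, RCLike.norm_ofReal, RCLike.norm_ofReal, add_mul]
    exact add_le_add (mul_le_mul_of_nonneg_left h1 (abs_nonneg _))
      (mul_le_mul_of_nonneg_left h2 (abs_nonneg _))
  · simp only
    rw [norm_mul, RCLike.norm_ofReal, add_mul]
    have h3 := mul_le_mul_of_nonneg_left h2 (abs_nonneg α)
    have h4 : 0 ≤ |β| * ‖v‖ := by positivity
    linarith

/-- block diagonal operator -/
noncomputable def D (α β : ℕ → ℝ) (C : ℝ) (h : ∀ k, |α k| + |β k| ≤ C) : X 𝕂 →L[𝕂] X 𝕂 :=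
  have hC : 0 ≤ C := (add_nonneg (abs_nonneg _) (abs_nonneg _)).trans (h 0)
  have hle : ∀ (x : X 𝕂) (k : ℕ), ‖blk (α k) (β k) (x k)‖ ≤ C * ‖x k‖ := fun x k =>
    (blk_norm _ _ _).trans (mul_le_mul_of_nonneg_right (h k) (norm_nonneg _))
  have hs : ∀ x : X 𝕂, Summable fun k => ‖blk (α k) (β k) (x k)‖ := fun x =>
    Summable.of_nonneg_of_le (fun _ => norm_nonneg _) (hle x) ((summ x).mul_left C)
  LinearMap.mkContinuous
    { toFun := fun x => ⟨fun k => blk (α k) (β k) (x k), mem_of_summ _ (hs x)⟩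
      map_add' := fun x y => by
        ext k
        · change (α k : 𝕂) * ((x + y) k).1 + (β k : 𝕂) * ((x + y) k).2 =
            ((α k : 𝕂) * (x k).1 + (β k : 𝕂) * (x k).2) + ((α k : 𝕂) * (y k).1 + (β k : 𝕂) * (y k).2)
          rw [lp.coeFn_add, Pi.add_apply, Prod.fst_add, Prod.snd_add]
          ring
        · change (α k : 𝕂) * ((x + y) k).2 = (α k : 𝕂) * (x k).2 + (α k : 𝕂) * (y k).2
          rw [lp.coeFn_add, Pi.add_apply, Prod.snd_add]
          ring
      map_smul' := fun c x => by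
        ext k
        · change (α k : 𝕂) * ((c • x) k).1 + (β k : 𝕂) * ((c • x) k).2 =
            c * ((α k : 𝕂) * (x k).1 + (β k : 𝕂) * (x k).2)
          rw [lp.coeFn_smul, Pi.smul_apply, Prod.smul_fst, Prod.smul_snd, smul_eq_mul, smul_eq_mul]
          ring
        · change (α k : 𝕂) * ((c • x) k).2 = c * ((α k : 𝕂) * (x k).2)
          rw [lp.coeFn_smul, Pi.smul_apply, Prod.smul_snd, smul_eq_mul]
          ring } C
    (fun x => by
      rw [norm_eq, norm_eq, ← tsum_mul_left]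
      exact (hs x).tsum_le_tsum (hle x) ((summ x).mul_left C))

theorem D_apply (α β : ℕ → ℝ) (C : ℝ) (h : ∀ k, |α k| + |β k| ≤ C) (x : X 𝕂) (k : ℕ) :
    D α β C h x k = blk (α k) (β k) (x k) := rfl

/-! ### parameters -/

/-- scales -/
noncomputable def P (k : ℕ) : ℝ := 2 ^ (10 * (k + 1) ^ 2)

theorem P_pos (k : ℕ) : 0 < P k := by unfold P; positivity

theorem P_one (k : ℕ) : 1 ≤ P k := by unfold P; exact one_le_pow₀ (by norm_num)

theorem P_mono {l k : ℕ} (h : l ≤ k) : P l ≤ P k := by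
  unfold P
  exact pow_le_pow_right₀ (by norm_num) (by gcongr)

/-- end of the influence of the scale -/
noncomputable def M (k : ℕ) : ℝ := 16 ^ k * P k

theorem M_pos (k : ℕ) : 0 < M k := by unfold M; have := P_pos k; positivity

theorem M_P (k : ℕ) : 2 ^ (16 * k) * M k ≤ P (k + 1) := by
  unfold M P
  have h1 : (16 : ℝ) ^ k = 2 ^ (4 * k) := by rw [pow_mul]; norm_num
  rw [h1, ← pow_add, ← pow_add]
  apply pow_le_pow_right₀ (by norm_num)
  nlinarith

theorem M_P' (k : ℕ) : 2 * M k ≤ P (k + 1) := by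
  unfold M P
  have h1 : (16 : ℝ) ^ k = 2 ^ (4 * k) := by rw [pow_mul]; norm_num
  rw [h1, ← pow_add, ← pow_succ']
  apply pow_le_pow_right₀ (by norm_num)
  nlinarith

theorem P_le_M (k : ℕ) : P k ≤ M k := by
  unfold M
  have h1 : (1 : ℝ) ≤ 16 ^ k := one_le_pow₀ (by norm_num)
  have h2 := P_pos k
  nlinarith

theorem P_big (k : ℕ) : 8 * 16 ^ k ≤ P k := by
  unfold P
  have h1 : (16 : ℝ) ^ k = 2 ^ (4 * k) := by rw [pow_mul]; norm_num
  have h2 : (8 : ℝ) = 2 ^ 3 := by norm_num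
  rw [h1, h2, ← pow_add]
  apply pow_le_pow_right₀ (by norm_num)
  nlinarith

/-- decay rates -/
noncomputable def lam (k : ℕ) : ℝ := (4 ^ k * P k)⁻¹
/-- off-diagonal entries -/
noncomputable def mu (k : ℕ) : ℝ := (P k)⁻¹

theorem lam_pos (k : ℕ) : 0 < lam k := by unfold lam; have := P_pos k; positivity
theorem mu_pos (k : ℕ) : 0 < mu k := by unfold mu; have := P_pos k; positivity
theorem mu_le (k : ℕ) : mu k ≤ 1 := by unfold mu; exact inv_le_one_of_one_le₀ (P_one k)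
theorem lam_le (k : ℕ) : lam k ≤ 1 := by
  unfold lam
  apply inv_le_one_of_one_le₀
  have h1 : (1 : ℝ) ≤ 4 ^ k := one_le_pow₀ (by norm_num)
  have h2 := P_one k
  nlinarith

/-- diagonal entry -/
noncomputable def al (t : ℝ) (k : ℕ) : ℝ := Real.exp (-(lam k * t))
/-- off-diagonal entry -/
noncomputable def be (t : ℝ) (k : ℕ) : ℝ := mu k * t * Real.exp (-(lam k * t))

theorem al_pos (t : ℝ) (k : ℕ) : 0 < al t k := Real.exp_pos _

theorem al_le (t : ℝ) (ht : 0 ≤ t) (k : ℕ) : al t k ≤ 1 := by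
  unfold al
  rw [Real.exp_le_one_iff]
  have := mul_nonneg (lam_pos k).le ht
  linarith

theorem be_nonneg (t : ℝ) (ht : 0 ≤ t) (k : ℕ) : 0 ≤ be t k := by
  unfold be
  exact mul_nonneg (mul_nonneg (mu_pos k).le ht) (Real.exp_pos _).le

theorem be_le (t : ℝ) (ht : 0 ≤ t) (k : ℕ) : be t k ≤ mu k * t := by
  unfold be
  exact mul_le_of_le_one_right (mul_nonneg (mu_pos k).le ht) (al_le t ht k)

theorem sum_le (t : ℝ) (ht : 0 ≤ t) (k : ℕ) : |al t k| + |be t k| ≤ 1 + t := by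
  rw [abs_of_pos (al_pos t k), abs_of_nonneg (be_nonneg t ht k)]
  have h1 := al_le t ht k
  have h2 := be_le t ht k
  have h3 : mu k * t ≤ 1 * t := mul_le_mul_of_nonneg_right (mu_le k) ht
  linarith

variable (𝕂) in
/-- the semigroup -/
noncomputable def U (t : ℝ) : X 𝕂 →L[𝕂] X 𝕂 :=
  if ht : 0 ≤ t then D (al t) (be t) (1 + t) (sum_le t ht) else 0

theorem U_apply (t : ℝ) (ht : 0 ≤ t) (x : X 𝕂) (k : ℕ) :
    U 𝕂 t x k = blk (al t k) (be t k) (x k) := by
  unfold U
  rw [dif_pos ht]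
  rfl

theorem blk_comp (a b a' b' : ℝ) (v : 𝕂 × 𝕂) :
    blk a b (blk a' b' v) = blk (a * a') (a * b' + b * a') v := by
  unfold blk
  ext
  · simp only; push_cast; ring
  · simp only; push_cast; ring

theorem U_zero : U 𝕂 0 = 1 := by
  ext x k
  · rw [U_apply 0 le_rfl]
    unfold blk al be
    simp
  · rw [U_apply 0 le_rfl]
    unfold blk al be
    simp

theorem U_add (s t : ℝ) (hs : 0 ≤ s) (ht : 0 ≤ t) : U 𝕂 (s + t) = U 𝕂 s * U 𝕂 t := by
  have key : ∀ (x : X 𝕂) (k : ℕ), U 𝕂 (s + t) x k = (U 𝕂 s * U 𝕂 t) x k := by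
    intro x k
    rw [mul_apply_eq_comp, U_apply _ (add_nonneg hs ht), U_apply _ hs, U_apply _ ht, blk_comp]
    have h1 : al (s + t) k = al s k * al t k := by
      unfold al
      rw [← Real.exp_add]
      congr 1
      ring
    have h2 : be (s + t) k = al s k * be t k + be s k * al t k := by
      unfold be
      change mu k * (s + t) * al (s + t) k = al s k * (mu k * t * al t k) + mu k * s * al s k * al t k
      rw [h1]
      ring
    rw [h1, h2]
  ext x k
  · rw [key]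
  · rw [key]

/-- growth bound of a block -/
theorem U_norm_coord (t : ℝ) (ht : 0 ≤ t) (x : X 𝕂) (k : ℕ) :
    ‖U 𝕂 t x k‖ ≤ (1 + mu k * t) * al t k * ‖x k‖ := by
  rw [U_apply t ht]
  refine (blk_norm _ _ _).trans (mul_le_mul_of_nonneg_right ?_ (norm_nonneg _))
  rw [abs_of_pos (al_pos t k), abs_of_nonneg (be_nonneg t ht k)]
  unfold be
  change al t k + mu k * t * al t k ≤ _
  linarith

theorem early (t : ℝ) (ht : 0 ≤ t) (x : X 𝕂) (k : ℕ) (h : t ≤ P k) : ‖U 𝕂 t x k‖ ≤ 2 * ‖x k‖ := by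
  refine (U_norm_coord t ht x k).trans (mul_le_mul_of_nonneg_right ?_ (norm_nonneg _))
  have h1 : mu k * t ≤ 1 := by
    unfold mu
    rw [inv_mul_le_iff₀ (P_pos k), mul_one]
    exact h
  have h2 := al_le t ht k
  have h3 := al_pos t k
  have h4 : 0 ≤ mu k * t := mul_nonneg (mu_pos k).le ht
  nlinarith

theorem late (k l : ℕ) (hl : l ≤ k) (t : ℝ) (h : M k ≤ t) (x : X 𝕂) :
    ‖U 𝕂 t x l‖ ≤ 12 / 4 ^ k * ‖x l‖ := by
  have hMk := M_pos k
  have ht : 0 < t := hMk.trans_le h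
  refine (U_norm_coord t ht.le x l).trans (mul_le_mul_of_nonneg_right ?_ (norm_nonneg _))
  have hPl := P_pos l
  set s := t / P l with hs
  have hs0 : 0 < s := div_pos ht hPl
  have hsk : 16 ^ k ≤ s := by
    rw [hs, le_div_iff₀ hPl]
    refine le_trans ?_ h
    unfold M
    exact mul_le_mul_of_nonneg_left (P_mono hl) (by positivity)
  have hs1 : 1 ≤ s := (one_le_pow₀ (by norm_num)).trans hsk
  have e1 : mu l * t = s := by unfold mu; rw [hs]; field_simp
  have e2 : al t l = Real.exp (-(s / 4 ^ l)) := by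
    unfold al lam
    congr 2
    rw [hs]
    field_simp
  rw [e1, e2]
  set q := s / 4 ^ l with hq
  have hq0 : 0 < q := by positivity
  have h3 : q ^ 3 / 6 ≤ Real.exp q := by
    have := Real.pow_div_factorial_le_exp q hq0.le 3
    norm_num [Nat.factorial] at this
    linarith
  rw [Real.exp_neg, ← div_eq_mul_inv, div_le_div_iff₀ (Real.exp_pos _) (by positivity)]
  have h4 : (4 : ℝ) ^ l ≤ 4 ^ k := pow_le_pow_right₀ (by norm_num) hl
  have h5 : (16 : ℝ) ^ k = 4 ^ k * 4 ^ k := by rw [← mul_pow]; norm_num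
  have h6 : q * 4 ^ l = s := by rw [hq]; field_simp
  -- (1+s) 4^k ≤ 12 q^3/6
  have hc : (0 : ℝ) < 4 ^ k := by positivity
  have hcl : (0 : ℝ) < 4 ^ l := by positivity
  have h7 : 4 ^ k ≤ q := by
    rw [hq, le_div_iff₀ hcl]
    calc (4 : ℝ) ^ k * 4 ^ l ≤ 4 ^ k * 4 ^ k := mul_le_mul_of_nonneg_left h4 hc.le
      _ = 16 ^ k := h5.symm
      _ ≤ s := hsk
  have h8 : (1 + s) * 4 ^ k ≤ 2 * s * 4 ^ k := by nlinarith
  have h9 : s * 4 ^ k ≤ q ^ 3 := by
    have h10 : s ≤ q * 4 ^ k := by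
      rw [← h6]; exact mul_le_mul_of_nonneg_left h4 hq0.le
    calc s * 4 ^ k ≤ (q * 4 ^ k) * 4 ^ k := mul_le_mul_of_nonneg_right h10 hc.le
      _ ≤ (q * q) * q := by
          apply mul_le_mul (mul_le_mul_of_nonneg_left h7 hq0.le) h7 hc.le (by positivity)
      _ = q ^ 3 := by ring
  linarith

/-- tails -/
noncomputable def tl (x : X 𝕂) (k : ℕ) : ℝ := ∑' l, ‖x (l + k)‖

theorem tl_tendsto (x : X 𝕂) : Tendsto (tl x) atTop (𝓝 0) := tendsto_sum_nat_add fun l => ‖x l‖

/-- orbits are small between the scales -/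
theorem small (x : X 𝕂) (k : ℕ) (t : ℝ) (h1 : M k ≤ t) (h2 : t ≤ P (k + 1)) :
    ‖U 𝕂 t x‖ ≤ 12 / 4 ^ k * ‖x‖ + 2 * tl x (k + 1) := by
  have ht : 0 ≤ t := (M_pos k).le.trans h1
  rw [norm_eq, ← (summ (U 𝕂 t x)).sum_add_tsum_nat_add (k + 1)]
  refine add_le_add ?_ ?_
  · have h3 : ∑ l ∈ Finset.range (k + 1), ‖U 𝕂 t x l‖ ≤ ∑ l ∈ Finset.range (k + 1), 12 / 4 ^ k * ‖x l‖ :=
      Finset.sum_le_sum fun l hl => late k l (by rw [Finset.mem_range] at hl; omega) t h1 x
    refine h3.trans ?_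
    rw [← Finset.mul_sum, norm_eq]
    refine mul_le_mul_of_nonneg_left ?_ (by positivity)
    exact (summ x).sum_le_tsum _ fun _ _ => norm_nonneg _
  · unfold tl
    rw [← tsum_mul_left]
    refine Summable.tsum_le_tsum (fun l => ?_) ((summable_nat_add_iff (k + 1)).2 (summ (U 𝕂 t x)))
      (((summable_nat_add_iff (k + 1)).2 (summ x)).mul_left 2)
    exact early t ht x (l + (k + 1)) (h2.trans (P_mono (by omega)))

/-- strong continuity -/
theorem U_cont (x : X 𝕂) : ContinuousOn (fun t => U 𝕂 t x) (Set.Ici 0) := by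
  have key : ∀ s t : ℝ, 0 ≤ s → 0 ≤ t → ‖U 𝕂 t x - U 𝕂 s x‖ ≤ (2 + s) * |t - s| * ‖x‖ := by
    intro s t hs ht
    have hexp : ∀ k, |al t k - al s k| ≤ |t - s| := by
      have h0 : ∀ (k : ℕ) (u v : ℝ), 0 ≤ u → u ≤ v → |al v k - al u k| ≤ v - u := by
        intro k u v hu huv
        have h1 : al v k = al u k * Real.exp (-(lam k * (v - u))) := by
          unfold al; rw [← Real.exp_add]; congr 1; ring
        have h2 : 1 - lam k * (v - u) ≤ Real.exp (-(lam k * (v - u))) := by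
          have := Real.add_one_le_exp (-(lam k * (v - u))); linarith
        have h3 : Real.exp (-(lam k * (v - u))) ≤ 1 := by
          rw [Real.exp_le_one_iff]
          have := mul_nonneg (lam_pos k).le (sub_nonneg.2 huv); linarith
        have h4 : lam k * (v - u) ≤ 1 * (v - u) := mul_le_mul_of_nonneg_right (lam_le k) (sub_nonneg.2 huv)
        have h5 := al_le u hu k
        have h6 := al_pos u k
        rw [h1, abs_le]
        constructor <;> nlinarith
      intro k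
      rcases le_total s t with h | h
      · rw [abs_of_nonneg (sub_nonneg.2 h)]; exact h0 k s t hs h
      · rw [abs_sub_comm, abs_sub_comm t s, abs_of_nonneg (sub_nonneg.2 h)]; exact h0 k t s ht h
    have hbe : ∀ k, |be t k - be s k| ≤ (1 + s) * |t - s| := by
      intro k
      have e : be t k - be s k = mu k * (t - s) * al t k + mu k * s * (al t k - al s k) := by
        change mu k * t * al t k - mu k * s * al s k = _
        ring
      rw [e]
      refine (abs_add_le _ _).trans ?_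
      rw [abs_mul, abs_mul, abs_mul, abs_mul, abs_of_pos (mu_pos k), abs_of_pos (al_pos t k),
        abs_of_nonneg hs]
      have h1 : mu k * |t - s| * al t k ≤ 1 * |t - s| * 1 :=
        mul_le_mul (mul_le_mul_of_nonneg_right (mu_le k) (abs_nonneg _)) (al_le t ht k)
          (al_pos t k).le (by positivity)
      have h2 : mu k * s * |al t k - al s k| ≤ 1 * s * |t - s| :=
        mul_le_mul (mul_le_mul_of_nonneg_right (mu_le k) hs) (hexp k) (abs_nonneg _) (by positivity)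
      linarith
    have hle : ∀ k, ‖(U 𝕂 t x - U 𝕂 s x) k‖ ≤ (2 + s) * |t - s| * ‖x k‖ := by
      intro k
      rw [lp.coeFn_sub, Pi.sub_apply, U_apply t ht, U_apply s hs]
      have e : blk (al t k) (be t k) (x k) - blk (al s k) (be s k) (x k) =
          blk (al t k - al s k) (be t k - be s k) (x k) := by
        unfold blk
        ext
        · simp only [Prod.fst_sub]; push_cast; ring
        · simp only [Prod.snd_sub]; push_cast; ring
      rw [e]
      refine (blk_norm _ _ _).trans (mul_le_mul_of_nonneg_right ?_ (norm_nonneg _))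
      have h1 := hexp k
      have h2 := hbe k
      linarith
    rw [norm_eq, norm_eq x, ← tsum_mul_left]
    exact (summ _).tsum_le_tsum hle ((summ x).mul_left _)
  rw [Metric.continuousOn_iff]
  intro s hs ε hε
  have hs0 : (0 : ℝ) ≤ s := hs
  refine ⟨ε / ((2 + s) * (‖x‖ + 1)), by positivity, fun t ht hts => ?_⟩
  rw [dist_eq_norm]
  refine (key s t hs0 ht).trans_lt ?_
  rw [Real.dist_eq, lt_div_iff₀ (by positivity)] at hts
  have h1 : 0 ≤ |t - s| := abs_nonneg _
  have h2 : 0 ≤ (2 + s) * |t - s| := by positivity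
  calc (2 + s) * |t - s| * ‖x‖ ≤ (2 + s) * |t - s| * (‖x‖ + 1) :=
        mul_le_mul_of_nonneg_left (by linarith) h2
    _ = |t - s| * ((2 + s) * (‖x‖ + 1)) := by ring
    _ < ε := hts

/-! ### the irregular vector -/

theorem y_summ : Summable fun k : ℕ => ‖((0, (((2 / 3 : ℝ) ^ k : ℝ) : 𝕂)) : 𝕂 × 𝕂)‖ := by
  have h : ∀ k : ℕ, ‖((0, (((2 / 3 : ℝ) ^ k : ℝ) : 𝕂)) : 𝕂 × 𝕂)‖ = (2 / 3) ^ k := by
    intro k
    rw [Prod.norm_def, norm_zero, RCLike.norm_ofReal, abs_of_pos (by positivity),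
      max_eq_right (by positivity)]
  simp only [h]
  exact summable_geometric_of_lt_one (by norm_num) (by norm_num)

variable (𝕂) in
/-- the irregular vector -/
noncomputable def y : X 𝕂 := ⟨fun k => (0, (((2 / 3 : ℝ) ^ k : ℝ) : 𝕂)), mem_of_summ _ y_summ⟩

theorem y_large (k : ℕ) (t : ℝ) (h1 : 2 ^ k * P k ≤ t) (h2 : t ≤ 4 ^ k * P k) :
    (4 / 3) ^ k / 3 ≤ ‖U 𝕂 t (y 𝕂)‖ := by
  have hP := P_pos k
  have ht : 0 ≤ t := le_trans (by positivity) h1
  refine le_trans ?_ (lp.norm_apply_le_norm (by norm_num) (U 𝕂 t (y 𝕂)) k)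
  rw [U_apply t ht]
  have h3 : (y 𝕂) k = (0, (((2 / 3 : ℝ) ^ k : ℝ) : 𝕂)) := rfl
  rw [h3]
  unfold blk
  refine le_trans ?_ (norm_fst_le _)
  simp only [mul_zero, zero_add]
  rw [norm_mul, RCLike.norm_ofReal, RCLike.norm_ofReal, abs_of_nonneg (be_nonneg t ht k),
    abs_of_pos (by positivity : (0 : ℝ) < (2 / 3) ^ k)]
  unfold be
  have h4 : 2 ^ k ≤ mu k * t := by
    unfold mu
    rw [inv_mul_eq_div, le_div_iff₀ hP]
    exact h1
  have h5 : lam k * t ≤ 1 := by
    unfold lam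
    rw [inv_mul_le_iff₀ (by positivity), mul_one]
    exact h2
  have h6 : 1 / 3 ≤ Real.exp (-(lam k * t)) := by
    have h7 : Real.exp (-1) ≤ Real.exp (-(lam k * t)) := Real.exp_le_exp.2 (by linarith)
    refine le_trans ?_ h7
    rw [Real.exp_neg, one_div]
    apply inv_anti₀ (Real.exp_pos 1)
    have := Real.exp_one_lt_d9
    linarith
  have e : (4 / 3 : ℝ) ^ k / 3 = 2 ^ k * (1 / 3) * (2 / 3) ^ k := by
    have : (4 / 3 : ℝ) ^ k = 2 ^ k * (2 / 3) ^ k := by rw [← mul_pow]; norm_num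
    rw [this]; ring
  rw [e]
  exact mul_le_mul_of_nonneg_right
    (mul_le_mul h4 h6 (by norm_num) (mul_nonneg (mu_pos k).le ht)) (by positivity)

/-! ### null orbits -/

theorem null_orbit (x : X 𝕂) (K : ℕ) (hx : ∀ k, K ≤ k → x k = 0) :
    Tendsto (fun t => U 𝕂 t x) atTop (𝓝 0) := by
  rw [tendsto_zero_iff_norm_tendsto_zero]
  rw [Metric.tendsto_nhds]
  intro ε hε
  -- choose the scale
  have hden : (0 : ℝ) < 12 * (‖x‖ + 1) := by
    have := norm_nonneg x
    linarith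
  obtain ⟨k, hk⟩ := ((tendsto_pow_atTop_nhds_zero_of_lt_one (by norm_num : (0 : ℝ) ≤ 1 / 4)
    (by norm_num : (1 / 4 : ℝ) < 1)).eventually (gt_mem_nhds
      (div_pos hε hden))).and (eventually_ge_atTop K) |>.exists
  filter_upwards [eventually_ge_atTop (M k)] with t ht
  rw [Real.dist_eq, sub_zero, abs_of_nonneg (norm_nonneg _)]
  have h1 : ‖U 𝕂 t x‖ ≤ 12 / 4 ^ k * ‖x‖ := by
    rw [norm_eq, norm_eq x, ← tsum_mul_left]
    refine Summable.tsum_le_tsum (fun l => ?_) (summ _) ((summ x).mul_left _)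
    rcases le_or_gt l k with hl | hl
    · exact late k l hl t ht x
    · have ht0 : 0 ≤ t := (M_pos k).le.trans ht
      have := U_norm_coord t ht0 x l
      rw [hx l (by omega), norm_zero, mul_zero] at this
      rw [hx l (by omega), norm_zero, mul_zero]
      exact this
  refine h1.trans_lt ?_
  have h2 := hk.1
  rw [lt_div_iff₀ hden] at h2
  have e : (12 : ℝ) / 4 ^ k * ‖x‖ = (1 / 4) ^ k * (12 * ‖x‖) := by
    rw [one_div_pow]; ring
  rw [e]
  have h3 : (0 : ℝ) < (1 / 4) ^ k := by positivity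
  nlinarith

variable (𝕂) in
/-- finitely supported vectors -/
def X0 : Submodule 𝕂 (X 𝕂) where
  carrier := {x | ∃ K, ∀ k, K ≤ k → x k = 0}
  zero_mem' := ⟨0, fun _ _ => rfl⟩
  add_mem' := by
    rintro x y ⟨K, hK⟩ ⟨L, hL⟩
    exact ⟨max K L, fun k hk => by
      rw [lp.coeFn_add, Pi.add_apply, hK k ((le_max_left _ _).trans hk),
        hL k ((le_max_right _ _).trans hk), add_zero]⟩
  smul_mem' := by
    rintro c x ⟨K, hK⟩
    exact ⟨K, fun k hk => by rw [lp.coeFn_smul, Pi.smul_apply, hK k hk, smul_zero]⟩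

theorem X0_dense : Dense (X0 𝕂 : Set (X 𝕂)) := by
  intro x
  have h1 : HasSum (fun i => lp.single 1 i (x i)) x := lp.hasSum_single (by norm_num) x
  refine mem_closure_of_tendsto h1 (Filter.Eventually.of_forall fun s => ?_)
  refine Submodule.sum_mem _ fun i _ => ⟨i + 1, fun k hk => ?_⟩
  rw [lp.single_apply, Pi.single_eq_of_ne (by omega)]

end Pool.Agent.Q201.Dist
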