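import Pool.Agent.Q201.Dist1

/-!
# Large and small times of the block semigroup
-/

set_option autoImplicit false

open Filter Topology
open scoped ENNReal NNReal

namespace Pool.Agent.Q201.Dist

variable {𝕂 : Type} [RCLike 𝕂]

theorem large_times (c : 𝕂) (hc : c ≠ 0) (σ : ℝ) :
    ∀ᶠ k : ℕ in atTop, ∀ t : ℝ, 2 ^ k * P k ≤ t → t ≤ 4 ^ k * P k → σ ≤ ‖U 𝕂 t (c • y 𝕂)‖ := by
  have hc' : 0 < ‖c‖ := norm_pos_iff.2 hc
  have h1 : Tendsto (fun k : ℕ => (4 / 3 : ℝ) ^ k) atTop atTop :=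
    tendsto_pow_atTop_atTop_of_one_lt (by norm_num)
  filter_upwards [h1.eventually_ge_atTop (3 * σ / ‖c‖)] with k hk t ht1 ht2
  rw [map_smul, norm_smul]
  have h2 := y_large (𝕂 := 𝕂) k t ht1 ht2
  rw [div_le_iff₀ hc'] at hk
  have h3 : ‖c‖ * ((4 / 3) ^ k / 3) ≤ ‖c‖ * ‖U 𝕂 t (y 𝕂)‖ := mul_le_mul_of_nonneg_left h2 hc'.le
  linarith

theorem small_times (z : X 𝕂) (ε : ℝ) (hε : 0 < ε) :
    ∀ᶠ k : ℕ in atTop, ∀ t : ℝ, M k ≤ t → t ≤ P (k + 1) → ‖U 𝕂 t z‖ < ε := by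
  have h1 : Tendsto (fun k : ℕ => 12 * ‖z‖ * (1 / 4 : ℝ) ^ k) atTop (𝓝 0) := by
    have := (tendsto_pow_atTop_nhds_zero_of_lt_one (by norm_num : (0 : ℝ) ≤ 1 / 4)
      (by norm_num : (1 / 4 : ℝ) < 1)).const_mul (12 * ‖z‖)
    rwa [mul_zero] at this
  have h2 : Tendsto (fun k : ℕ => 2 * tl z (k + 1)) atTop (𝓝 0) := by
    have := ((tendsto_add_atTop_iff_nat 1).2 (tl_tendsto z)).const_mul 2
    rwa [mul_zero] at this
  have h3 := h1.add h2
  rw [add_zero] at h3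
  filter_upwards [h3.eventually (gt_mem_nhds hε)] with k hk t ht1 ht2
  refine (small z k t ht1 ht2).trans_lt ?_
  have e : 12 / 4 ^ k * ‖z‖ = 12 * ‖z‖ * (1 / 4) ^ k := by rw [one_div_pow]; ring
  rw [e]
  exact hk

theorem P_tendsto : Tendsto P atTop atTop := by
  have h1 : Tendsto (fun k : ℕ => (16 : ℝ) ^ k) atTop atTop :=
    tendsto_pow_atTop_atTop_of_one_lt (by norm_num)
  refine tendsto_atTop_mono (fun k => ?_) h1
  have h2 := P_big k
  have h3 : (0 : ℝ) < 16 ^ k := by positivity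
  linarith

theorem M_tendsto : Tendsto M atTop atTop := tendsto_atTop_mono P_le_M P_tendsto

theorem M_strict : StrictMono M := by
  refine strictMono_nat_of_lt_succ fun k => ?_
  have h1 := M_P' k
  have h2 := P_le_M (k + 1)
  have h3 := M_pos k
  linarith

/-- for every large number there is a scale -/
theorem scale (K : ℕ) (N : ℝ) (hN : 2 * M K ≤ N) : ∃ k, K ≤ k ∧ 2 * M k ≤ N ∧ N < 2 * M (k + 1) := by
  classical
  have hex : ∃ k, N < 2 * M k := by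
    obtain ⟨k, hk⟩ := (M_tendsto.eventually_gt_atTop N).exists
    exact ⟨k, by have := M_pos k; linarith⟩
  set q := Nat.find hex with hq
  have h1 : N < 2 * M q := Nat.find_spec hex
  have h2 : K < q := by
    by_contra h
    have := M_strict.monotone (not_lt.1 h)
    linarith
  obtain ⟨k, hk⟩ := Nat.exists_eq_succ_of_ne_zero (by omega : q ≠ 0)
  refine ⟨k, by omega, ?_, by rw [← Nat.succ_eq_add_one, ← hk]; exact h1⟩
  have := Nat.find_min hex (m := k) (by omega)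
  exact not_lt.1 this

/-- the windows of small times are long -/
theorem window (K : ℕ) (s : ℝ) (hN : 2 * M K ≤ 1 + s ^ 2) :
    ∃ k, K ≤ k ∧ ((1 + s ^ 2 ≤ P (k + 1) ∧ s ≤ 1 + s ^ 2 - M k) ∨
      (P (k + 1) ≤ 1 + s ^ 2 ∧ s ≤ P (k + 1) - M k)) := by
  obtain ⟨k, hk, h1, h2⟩ := scale K _ hN
  refine ⟨k, hk, ?_⟩
  rcases le_total (1 + s ^ 2) (P (k + 1)) with h | h
  · left
    refine ⟨h, ?_⟩
    nlinarith [sq_nonneg (s - 1)]
  · right
    refine ⟨h, ?_⟩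
    have h3 := M_P' k
    have h4 : s ≤ P (k + 1) / 2 := by
      have hP := P_pos (k + 1)
      have h5 := P_big (k + 1)
      unfold M at h2
      refine abs_le_of_sq_le_sq' (a := s) (b := P (k + 1) / 2) ?_ (by positivity) |>.2
      have h6 : 8 * 16 ^ (k + 1) * P (k + 1) ≤ P (k + 1) * P (k + 1) :=
        mul_le_mul_of_nonneg_right h5 hP.le
      nlinarith
    linarith

theorem liminf_zero {α : Type} {l : Filter α} [l.NeBot] (u : α → ℝ≥0∞) (φ : ℕ → α)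
    (hφ : Tendsto φ atTop l) (r : ℕ → ℝ) (hr : Tendsto r atTop (𝓝 0))
    (h : ∀ᶠ k in atTop, u (φ k) ≤ ENNReal.ofReal (r k)) : liminf u l = 0 := by
  by_contra hne
  have h1 : 0 < liminf u l := pos_iff_ne_zero.2 hne
  obtain ⟨η, hη0, hη⟩ := ENNReal.lt_iff_exists_nnreal_btwn.1 h1
  have h2 : Tendsto (fun k => ENNReal.ofReal (r k)) atTop (𝓝 0) := by
    have := ENNReal.tendsto_ofReal hr
    rwa [ENNReal.ofReal_zero] at this
  have h3 : ∀ᶠ k in atTop, u (φ k) ≤ η := by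
    filter_upwards [h, h2.eventually (gt_mem_nhds hη0)] with k hk hk'
    exact hk.trans hk'.le
  have h4 : ∃ᶠ a in l, u a ≤ η := hφ.frequently h3.frequently
  exact absurd (liminf_le_of_frequently_le' h4) (not_le.2 hη)

theorem r1_tendsto : Tendsto (fun k : ℕ => (2 : ℝ) * (1 / 2) ^ k) atTop (𝓝 0) := by
  have := (tendsto_pow_atTop_nhds_zero_of_lt_one (by norm_num : (0 : ℝ) ≤ 1 / 2)
      (by norm_num : (1 / 2 : ℝ) < 1)).const_mul 2
  rwa [mul_zero] at this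

theorem ratio1 (k : ℕ) : 2 ^ k * P k ≤ 2 * (1 / 2) ^ k * (4 ^ k * P k - 1) := by
  have h1 : (4 : ℝ) ^ k = 2 ^ k * 2 ^ k := by rw [← mul_pow]; norm_num
  have h2 : (1 / 2 : ℝ) ^ k * 2 ^ k = 1 := by rw [← mul_pow]; norm_num
  have h3 : (1 / 2 : ℝ) ^ k ≤ 1 := pow_le_one₀ (by norm_num) (by norm_num)
  have h4 : (1 : ℝ) ≤ 2 ^ k := one_le_pow₀ (by norm_num)
  have h5 := P_one k
  have h6 : (0 : ℝ) < (1 / 2) ^ k := by positivity
  have e : 2 * (1 / 2 : ℝ) ^ k * (4 ^ k * P k - 1) =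
      2 * ((1 / 2) ^ k * 2 ^ k) * (2 ^ k * P k) - 2 * (1 / 2) ^ k := by rw [h1]; ring
  rw [e, h2]
  have h7 : 2 ≤ 2 ^ k * P k := by
    have := P_big k
    have h8 : (1 : ℝ) ≤ 16 ^ k := one_le_pow₀ (by norm_num)
    nlinarith
  nlinarith

theorem ratio2 (k : ℕ) : M k ≤ 2 * (1 / 2) ^ k * (P (k + 1) - 1) := by
  have h1 := M_P k
  have h2 : (1 / 2 : ℝ) ^ k * 2 ^ k = 1 := by rw [← mul_pow]; norm_num
  have h3 : (2 : ℝ) ^ k ≤ 2 ^ (16 * k) := pow_le_pow_right₀ (by norm_num) (by omega)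
  have h4 := M_pos k
  have h5 : 2 ^ k * M k ≤ P (k + 1) := (mul_le_mul_of_nonneg_right h3 h4.le).trans h1
  have h6 : (0 : ℝ) < (1 / 2) ^ k := by positivity
  have h7 : 2 ≤ P (k + 1) := by
    have := P_big (k + 1)
    have h8 : (1 : ℝ) ≤ 16 ^ (k + 1) := one_le_pow₀ (by norm_num)
    nlinarith
  have h8 : P (k + 1) ≤ 2 * (P (k + 1) - 1) := by linarith
  have h9 : (1 / 2 : ℝ) ^ k * (2 ^ k * M k) ≤ (1 / 2) ^ k * (2 * (P (k + 1) - 1)) :=
    mul_le_mul_of_nonneg_left (h5.trans h8) h6.le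
  have e : (1 / 2 : ℝ) ^ k * (2 ^ k * M k) = M k := by rw [← mul_assoc, h2, one_mul]
  rw [e] at h9
  linarith

theorem y_ne : y 𝕂 ≠ 0 := by
  intro h
  have h1 : (y 𝕂) 0 = 0 := by rw [h]; rfl
  have h2 : (y 𝕂) 0 = ((0 : 𝕂), (((2 / 3 : ℝ) ^ 0 : ℝ) : 𝕂)) := rfl
  rw [h2] at h1
  have h3 := congrArg Prod.snd h1
  simp at h3

/-- the scrambled set -/
theorem uncountable_line : ¬ (Set.range fun c : ℝ => ((c : 𝕂)) • y 𝕂).Countable := by
  intro h
  have hinj : Function.Injective fun c : ℝ => ((c : 𝕂)) • y 𝕂 := by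
    intro a b hab
    simp only at hab
    rw [← sub_eq_zero, ← sub_smul, smul_eq_zero, sub_eq_zero] at hab
    rcases hab with h1 | h1
    · exact RCLike.ofReal_injective h1
    · exact absurd h1 y_ne
  rw [← Set.image_univ] at h
  exact Set.not_countable_univ (Set.countable_of_injective_of_countable_image hinj.injOn h)

theorem U_pow (n : ℕ) : (U 𝕂 1) ^ n = U 𝕂 n := by
  induction n with
  | zero => rw [pow_zero, Nat.cast_zero, U_zero]
  | succ n ih => rw [pow_succ, ih, Nat.cast_succ, U_add _ _ (Nat.cast_nonneg n) zero_le_one]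

end Pool.Agent.Q201.Dist
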