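import Mathlib
import Pool.Agent.Helper932.FHCMain

/-!
# A frequently hypercyclic vector of `4 B` on `ℓ¹` whose visits to `{‖y‖ > 1}` have proportional gaps
-/

set_option autoImplicit false

open Filter Topology

namespace Pool.Agent.Q201.Gap

open Pool.Agent.Helper932.FHC (E e e_apply norm_e norm_eq_tsum exists_clm clm_norm_le clm_congr
  exists_targets)

/-! ### positions -/

/-- type -/
def ty (m : ℕ) : ℕ := padicValNat 2 m

/-- position -/
def p (m : ℕ) : ℕ := m + ∑ k ∈ Finset.range m, (ty k + ty (k + 1))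

theorem p_succ (m : ℕ) : p (m + 1) = p m + 1 + ty m + ty (m + 1) := by
  unfold p
  rw [Finset.sum_range_succ]
  ring

theorem p_step (m i : ℕ) : p m + ty m + ty (m + 1 + i) + (i + 1) ≤ p (m + 1 + i) := by
  induction i with
  | zero =>
    simp only [Nat.add_zero]
    rw [p_succ]; omega
  | succ i ih =>
    have : m + 1 + (i + 1) = (m + 1 + i) + 1 := by ring
    rw [this, p_succ]
    omega

theorem p_ge (m : ℕ) : m ≤ p m := by unfold p; omega

theorem p_ge' (m i : ℕ) : p m + i ≤ p (m + i) := by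
  induction i with
  | zero => simp
  | succ i ih => rw [← add_assoc m i 1, p_succ]; omega

theorem p_strictMono : StrictMono p := strictMono_nat_of_lt_succ fun m => by rw [p_succ]; omega

theorem sum_ty (m : ℕ) : ∑ k ∈ Finset.range m, ty (k + 1) = padicValNat 2 m.factorial := by
  induction m with
  | zero => simp
  | succ m ih =>
    rw [Finset.sum_range_succ, ih, Nat.factorial_succ,
      padicValNat.mul (Nat.succ_ne_zero m) (Nat.factorial_ne_zero m)]
    unfold ty
    ring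

theorem sum_ty_le (m : ℕ) : ∑ k ∈ Finset.range m, ty (k + 1) ≤ m := by
  rw [sum_ty]
  have := sub_one_mul_padicValNat_factorial (p := 2) m
  omega

theorem sum_ty_le' (m : ℕ) : ∑ k ∈ Finset.range m, ty k ≤ m := by
  rcases m with _ | m
  · simp
  · rw [Finset.sum_range_succ']
    have := sum_ty_le m
    have h0 : ty 0 = 0 := by unfold ty; simp
    omega

theorem p_le (m : ℕ) : p m ≤ 3 * m := by
  unfold p
  rw [Finset.sum_add_distrib]
  have := sum_ty_le m
  have := sum_ty_le' m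
  omega

theorem ty_le (m : ℕ) (hm : 12 ≤ m) : 4 * ty m ≤ m := by
  have h1 : 2 ^ ty m ≤ m := Nat.le_of_dvd (by omega) pow_padicValNat_dvd
  rcases Nat.lt_or_ge (ty m) 4 with h | h
  · omega
  · have h2 : ∀ t, 4 ≤ t → 4 * t ≤ 2 ^ t := by
      intro t ht
      induction t, ht using Nat.le_induction with
      | base => norm_num
      | succ t ht ih => rw [pow_succ]; omega
    have := h2 _ h
    omega

theorem ty_le_self (m : ℕ) : ty m ≤ m := by
  rcases Nat.eq_zero_or_pos m with h | h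
  · subst h; unfold ty; simp
  · have h1 : 2 ^ ty m ≤ m := Nat.le_of_dvd h pow_padicValNat_dvd
    have h2 : ty m < 2 ^ ty m := Nat.lt_two_pow_self
    omega

theorem ty_eq (i s : ℕ) : ty (2 ^ (i + 1) * s + 2 ^ i) = i := by
  have h1 : 2 ^ (i + 1) * s + 2 ^ i = 2 ^ i * (2 * s + 1) := by ring
  unfold ty
  rw [h1, padicValNat.mul (by positivity) (by omega), padicValNat.prime_pow,
    padicValNat.eq_zero_of_not_dvd (by omega), add_zero]

/-- the blocks which are used -/
def Al (m : ℕ) : Prop := ∃ j, 15 * 16 ^ j ≤ m ∧ m < 16 ^ (j + 1)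

theorem not_Al {m j : ℕ} (h1 : 16 ^ j ≤ m) (h2 : m < 15 * 16 ^ j) : ¬ Al m := by
  rintro ⟨l, h3, h4⟩
  rcases Nat.lt_or_ge l j with h | h
  · have : 16 ^ (l + 1) ≤ 16 ^ j := Nat.pow_le_pow_right (by norm_num) h
    omega
  · have : 16 ^ j ≤ 16 ^ l := Nat.pow_le_pow_right (by norm_num) h
    omega

/-! ### operators -/

/-- `ℓ¹` -/
abbrev E1 : Type := E ℝ

theorem exists_R : ∃ R : E1 →L[ℝ] E1, ∀ j, R (e ℝ j) = e ℝ (j + 1) :=
  exists_clm (fun j => e ℝ (j + 1)) 1 fun j => (norm_e _).le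

theorem exists_L : ∃ L : E1 →L[ℝ] E1, ∀ j, L (e ℝ j) = if j = 0 then 0 else e ℝ (j - 1) :=
  exists_clm (fun j => if j = 0 then (0 : E1) else e ℝ (j - 1)) 1 fun j => by
    split_ifs
    · rw [norm_zero]; norm_num
    · exact (norm_e _).le

/-- forward shift -/
noncomputable def R : E1 →L[ℝ] E1 := Classical.choose exists_R

/-- backward shift -/
noncomputable def L : E1 →L[ℝ] E1 := Classical.choose exists_L

theorem R_e (j : ℕ) : R (e ℝ j) = e ℝ (j + 1) := Classical.choose_spec exists_R j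

theorem L_e (j : ℕ) : L (e ℝ j) = if j = 0 then 0 else e ℝ (j - 1) := Classical.choose_spec exists_L j

theorem R_norm (z : E1) : ‖R z‖ ≤ ‖z‖ := by
  have := clm_norm_le R z 1 fun j _ => by rw [R_e, norm_e]
  rwa [one_mul] at this

theorem R_pow_norm (n : ℕ) (z : E1) : ‖(R ^ n) z‖ ≤ ‖z‖ := by
  induction n with
  | zero => simp
  | succ n ih => rw [pow_succ', mul_apply_eq_comp]; exact (R_norm _).trans ih

theorem L_R (z : E1) : L (R z) = z := by
  have := clm_congr (L ∘L R) (ContinuousLinearMap.id ℝ E1) z fun j _ => by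
    rw [ContinuousLinearMap.comp_apply, R_e, L_e, if_neg (Nat.succ_ne_zero j), Nat.add_sub_cancel]
    rfl
  exact this

theorem L_R_pow (n : ℕ) (z : E1) : (L ^ n) ((R ^ n) z) = z := by
  induction n with
  | zero => simp
  | succ n ih =>
    rw [pow_succ, pow_succ' R, mul_apply_eq_comp, mul_apply_eq_comp, L_R]
    exact ih

theorem L_pow_e (n j : ℕ) (h : j < n) : (L ^ n) (e ℝ j) = 0 := by
  induction n generalizing j with
  | zero => omega
  | succ n ih =>
    rw [pow_succ, mul_apply_eq_comp, L_e]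
    split_ifs with h0
    · rw [map_zero]
    · exact ih (j - 1) (by omega)

theorem L_pow_supp (n i : ℕ) (z : E1) (hz : ∀ l, i < l → z l = 0) (h : i < n) : (L ^ n) z = 0 := by
  have := clm_congr (L ^ n) 0 z fun j hj => by
    have hji : j ≤ i := by
      by_contra hcon
      exact hj (hz j (by omega))
    rw [L_pow_e n j (by omega)]
    rfl
  rw [this]
  rfl

/-- the operator -/
noncomputable def T : E1 →L[ℝ] E1 := (4 : ℝ) • L

theorem T_pow (n : ℕ) (z : E1) : (T ^ n) z = (4 : ℝ) ^ n • (L ^ n) z := by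
  unfold T
  rw [smul_pow]
  rfl

/-! ### the vector -/

/-- the targets -/
noncomputable def P : ℕ → E1 := Classical.choose (exists_targets ℝ)

theorem P_norm (i : ℕ) : ‖P i‖ ≤ 2 ^ i := (Classical.choose_spec (exists_targets ℝ)).1 i

theorem P_supp (i l : ℕ) (h : i < l) : P i l = 0 := (Classical.choose_spec (exists_targets ℝ)).2.1 i l h

theorem P_dense (u : E1) (ε : ℝ) (k : ℕ) (hε : 0 < ε) : ∃ i, k ≤ i ∧ ‖P i - u‖ < ε :=
  (Classical.choose_spec (exists_targets ℝ)).2.2 u ε k hε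

open Classical in
/-- the blocks -/
noncomputable def a (m : ℕ) : E1 := if Al m then ((1 / 4 : ℝ) ^ p m) • (R ^ p m) (P (ty m)) else 0

theorem a_norm (m : ℕ) : ‖a m‖ ≤ (1 / 2) ^ m := by
  unfold a
  split_ifs
  · rw [norm_smul, Real.norm_eq_abs, abs_of_pos (by positivity)]
    have h1 := (R_pow_norm (p m) (P (ty m))).trans (P_norm (ty m))
    have h2 : (2 : ℝ) ^ ty m ≤ 2 ^ m := pow_le_pow_right₀ (by norm_num) (ty_le_self m)
    have h3 : (1 / 4 : ℝ) ^ p m ≤ (1 / 4) ^ m := pow_le_pow_of_le_one (by norm_num) (by norm_num) (p_ge m)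
    calc (1 / 4 : ℝ) ^ p m * ‖(R ^ p m) (P (ty m))‖ ≤ (1 / 4) ^ m * 2 ^ m :=
          mul_le_mul h3 (h1.trans h2) (norm_nonneg _) (by positivity)
      _ = (1 / 2) ^ m := by rw [← mul_pow]; norm_num
  · rw [norm_zero]; positivity

theorem a_summable : Summable a :=
  Summable.of_norm_bounded (summable_geometric_of_lt_one (by norm_num) (by norm_num)) a_norm

/-- the vector -/
noncomputable def z : E1 := ∑' m, a m

theorem T_z (n : ℕ) : HasSum (fun m => (T ^ n) (a m)) ((T ^ n) z) :=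
  (T ^ n).hasSum a_summable.hasSum

/-- blocks far to the left do not contribute -/
theorem T_a_left (n m : ℕ) (h : p m + ty m < n) : (T ^ n) (a m) = 0 := by
  unfold a
  split_ifs
  · have e1 : n = (n - p m) + p m := by omega
    rw [T_pow, map_smul]
    have h2 : (L ^ n) ((R ^ p m) (P (ty m))) = 0 := by
      conv_lhs => rw [e1, pow_add]
      rw [mul_apply_eq_comp, L_R_pow]
      exact L_pow_supp _ (ty m) _ (P_supp (ty m)) (by omega)
    rw [h2, smul_zero, smul_zero]
  · rw [map_zero]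

/-- the block at the current position -/
theorem T_a_self (m : ℕ) (h : Al m) : (T ^ p m) (a m) = P (ty m) := by
  unfold a
  rw [if_pos h, T_pow, map_smul, L_R_pow, smul_smul, ← mul_pow]
  norm_num

/-- blocks to the right -/
theorem T_a_right (n m : ℕ) (h : n + ty m ≤ p m) : ‖(T ^ n) (a m)‖ ≤ (1 / 2) ^ (p m - n) := by
  unfold a
  split_ifs
  · have e1 : p m = n + (p m - n) := by omega
    rw [T_pow, map_smul]
    have h2 : (L ^ n) ((R ^ p m) (P (ty m))) = (R ^ (p m - n)) (P (ty m)) := by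
      conv_lhs => rw [e1, pow_add]
      rw [mul_apply_eq_comp, L_R_pow]
    rw [h2, smul_smul, norm_smul, Real.norm_eq_abs, abs_of_pos (by positivity)]
    have h3 : (4 : ℝ) ^ n * (1 / 4) ^ p m = (1 / 4) ^ (p m - n) := by
      conv_lhs => rw [e1, pow_add]
      rw [← mul_assoc, ← mul_pow]
      norm_num
    rw [h3]
    have h4 := (R_pow_norm (p m - n) (P (ty m))).trans (P_norm (ty m))
    have h5 : (2 : ℝ) ^ ty m ≤ 2 ^ (p m - n) := pow_le_pow_right₀ (by norm_num) (by omega)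
    calc (1 / 4 : ℝ) ^ (p m - n) * ‖(R ^ (p m - n)) (P (ty m))‖ ≤ (1 / 4) ^ (p m - n) * 2 ^ (p m - n) :=
          mul_le_mul_of_nonneg_left (h4.trans h5) (by positivity)
      _ = (1 / 2) ^ (p m - n) := by rw [← mul_pow]; norm_num
  · rw [map_zero, norm_zero]; positivity

/-- general tail estimate -/
theorem tail (n M D : ℕ) (h : ∀ i, n + ty (M + i) ≤ p (M + i)) (hD : n + D ≤ p M) :
    ‖(T ^ n) z - ∑ m ∈ Finset.range M, (T ^ n) (a m)‖ ≤ 2 * (1 / 2) ^ D := by
  have h1 := (T_z n).summable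
  have h2 := h1.sum_add_tsum_nat_add M
  rw [(T_z n).tsum_eq] at h2
  rw [← h2, add_sub_cancel_left]
  have h3 : HasSum (fun i : ℕ => (1 / 2 : ℝ) ^ D * (1 / 2) ^ i) ((1 / 2) ^ D * 2) := by
    have := (hasSum_geometric_of_lt_one (r := (1 / 2 : ℝ)) (by norm_num) (by norm_num)).mul_left
      ((1 / 2 : ℝ) ^ D)
    norm_num at this ⊢
    exact this
  rw [mul_comm]
  refine tsum_of_norm_bounded h3 fun i => ?_
  have h4 := h i
  rw [add_comm M i] at h4
  refine (T_a_right n (i + M) h4).trans ?_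
  rw [← pow_add]
  apply pow_le_pow_of_le_one (by norm_num) (by norm_num)
  have := p_ge' M i
  rw [add_comm M i] at this
  omega

/-- visits to the targets -/
theorem visit (m : ℕ) (h : Al m) : ‖(T ^ p m) z - P (ty m)‖ ≤ (1 / 2) ^ ty m := by
  have h1 := tail (p m) (m + 1) (ty m + 1) (fun i => by have := p_step m i; omega) (by
    rw [p_succ]; omega)
  have h2 : ∑ k ∈ Finset.range (m + 1), (T ^ p m) (a k) = P (ty m) := by
    rw [Finset.sum_range_succ, T_a_self m h, Finset.sum_eq_zero, zero_add]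
    intro k hk
    apply T_a_left
    rw [Finset.mem_range] at hk
    obtain ⟨i, rfl⟩ := Nat.exists_eq_add_of_lt hk
    have := p_step k i
    have e1 : k + i + 1 = k + 1 + i := by ring
    rw [e1]
    omega
  rw [h2] at h1
  refine h1.trans (le_of_eq ?_)
  rw [pow_succ]
  ring

/-- the orbit is small during the gaps -/
theorem gap (j n : ℕ) (h1 : 4 * 16 ^ j ≤ n) (h2 : n < 8 * 16 ^ j) : ‖(T ^ n) z‖ ≤ 1 := by
  have hj : 1 ≤ 16 ^ j := Nat.one_le_pow _ _ (by norm_num)
  have h3 := tail n (15 * 16 ^ j) 1 (fun i => by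
    have h4 := p_ge (15 * 16 ^ j + i)
    have h5 := ty_le (15 * 16 ^ j + i) (by omega)
    omega) (by
    have h4 := p_ge (15 * 16 ^ j)
    omega)
  have h4 : ∑ m ∈ Finset.range (15 * 16 ^ j), (T ^ n) (a m) = 0 := by
    apply Finset.sum_eq_zero
    intro m hm
    rw [Finset.mem_range] at hm
    by_cases hmj : m < 16 ^ j
    · apply T_a_left
      have h5 := p_le m
      have h6 := ty_le_self m
      omega
    · unfold a
      rw [if_neg (not_Al (by omega) hm), map_zero]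
  rw [h4, sub_zero] at h3
  refine h3.trans ?_
  norm_num

/-- frequent visits -/
theorem freq (U : Set E1) (hU : IsOpen U) (hne : U.Nonempty) :
    ∃ δ : ℝ, 0 < δ ∧ ∀ᶠ n : ℕ in atTop,
      δ * (n : ℝ) ≤ (({k : ℕ | k < n ∧ (T ^ k) z ∈ U}.ncard : ℕ) : ℝ) := by
  obtain ⟨u, hu⟩ := hne
  obtain ⟨ε, hε, hball⟩ := Metric.isOpen_iff.1 hU u hu
  obtain ⟨k0, hk0⟩ := exists_pow_lt_of_lt_one (half_pos hε) (by norm_num : (1 / 2 : ℝ) < 1)
  obtain ⟨i, hi, hPi⟩ := P_dense u (ε / 2) k0 (half_pos hε)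
  have hi2 : (1 / 2 : ℝ) ^ i < ε / 2 :=
    (pow_le_pow_of_le_one (by norm_num) (by norm_num) hi).trans_lt hk0
  refine ⟨1 / (768 * 2 ^ (i + 1)), by positivity, ?_⟩
  rw [eventually_atTop]
  refine ⟨3 * 16 ^ (i + 2), fun n hn => ?_⟩
  -- choose the scale
  have hn3 : 0 < n / 3 := by
    have : 3 ≤ n := le_trans (by have : 1 ≤ 16 ^ (i + 2) := Nat.one_le_pow _ _ (by norm_num)
                                 omega) hn
    omega
  have hlog1 := Nat.pow_log_le_self 16 hn3.ne'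
  have hlog2 := Nat.lt_pow_succ_log_self (by norm_num : 1 < 16) (n / 3)
  have hlog3 : i + 2 ≤ Nat.log 16 (n / 3) := by
    apply (Nat.le_log_iff_pow_le (by norm_num) hn3.ne').2
    omega
  obtain ⟨j, hj⟩ : ∃ j, Nat.log 16 (n / 3) = j + 1 := ⟨Nat.log 16 (n / 3) - 1, by omega⟩
  rw [hj] at hlog1 hlog2 hlog3
  have hji : i + 1 ≤ 4 * j := by omega
  set q := 2 ^ (4 * j - (i + 1)) with hq
  have hq16 : 2 ^ (i + 1) * q = 16 ^ j := by
    rw [hq, ← pow_add, Nat.add_sub_cancel' hji, pow_mul]; norm_num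
  -- the visits
  have hsub : (((Finset.Ico (15 * q) (16 * q)).image fun s => p (2 ^ (i + 1) * s + 2 ^ i) : Finset ℕ)
      : Set ℕ) ⊆ {k : ℕ | k < n ∧ (T ^ k) z ∈ U} := by
    intro k hk
    rw [Finset.mem_coe, Finset.mem_image] at hk
    obtain ⟨s, hs, rfl⟩ := hk
    rw [Finset.mem_Ico] at hs
    set m := 2 ^ (i + 1) * s + 2 ^ i with hm
    have hpow : 2 ^ (i + 1) = 2 ^ i + 2 ^ i := by rw [pow_succ]; ring
    have hpos : 0 < 2 ^ i := by positivity
    have hm1 : 15 * 16 ^ j ≤ m := by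
      have : 2 ^ (i + 1) * (15 * q) ≤ 2 ^ (i + 1) * s := Nat.mul_le_mul_left _ hs.1
      have e1 : 2 ^ (i + 1) * (15 * q) = 15 * 16 ^ j := by rw [← hq16]; ring
      omega
    have hm2 : m < 16 ^ (j + 1) := by
      have : 2 ^ (i + 1) * (s + 1) ≤ 2 ^ (i + 1) * (16 * q) := Nat.mul_le_mul_left _ hs.2
      have e1 : 2 ^ (i + 1) * (16 * q) = 16 ^ (j + 1) := by rw [pow_succ 16, ← hq16]; ring
      have e2 : 2 ^ (i + 1) * (s + 1) = 2 ^ (i + 1) * s + 2 ^ (i + 1) := by ring
      omega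
    refine ⟨?_, ?_⟩
    · have := p_le m
      have h5 : 3 * 16 ^ (j + 1) ≤ n := by
        have := Nat.div_mul_le_self n 3
        omega
      omega
    · apply hball
      have h5 := visit m ⟨j, hm1, hm2⟩
      rw [hm, ty_eq] at h5
      rw [← hm] at h5
      rw [Metric.mem_ball, dist_eq_norm]
      calc ‖(T ^ p m) z - u‖ = ‖((T ^ p m) z - P i) + (P i - u)‖ := by rw [sub_add_sub_cancel]
        _ ≤ ‖(T ^ p m) z - P i‖ + ‖P i - u‖ := norm_add_le _ _
        _ < ε / 2 + ε / 2 := add_lt_add (h5.trans_lt hi2) hPi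
        _ = ε := add_halves ε
  have hcard : q ≤ ({k : ℕ | k < n ∧ (T ^ k) z ∈ U}).ncard := by
    have hfin : ({k : ℕ | k < n ∧ (T ^ k) z ∈ U}).Finite :=
      (Set.finite_Iio n).subset fun k hk => hk.1
    have h1 := Set.ncard_le_ncard hsub hfin
    rw [Set.ncard_coe_finset, Finset.card_image_of_injective, Nat.card_Ico] at h1
    · omega
    · intro s s' h
      have h2 := p_strictMono.injective h
      have hpos : 0 < 2 ^ (i + 1) := by positivity
      have h3 : 2 ^ (i + 1) * s = 2 ^ (i + 1) * s' := by omega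
      exact Nat.eq_of_mul_eq_mul_left hpos h3
  have hcard' : (q : ℝ) ≤ (({k : ℕ | k < n ∧ (T ^ k) z ∈ U}.ncard : ℕ) : ℝ) := by exact_mod_cast hcard
  refine le_trans ?_ hcard'
  have h6 : n < 768 * 16 ^ j := by
    have : 16 ^ (j + 1 + 1) = 256 * 16 ^ j := by rw [pow_succ, pow_succ]; ring
    omega
  have h7 : (n : ℝ) ≤ 768 * (2 ^ (i + 1) * q) := by
    have : (n : ℝ) ≤ 768 * 16 ^ j := by exact_mod_cast h6.le
    rw [show ((2 : ℝ) ^ (i + 1) * q) = 16 ^ j by exact_mod_cast hq16]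
    exact this
  rw [div_mul_eq_mul_div, one_mul, div_le_iff₀ (by positivity)]
  linarith

/-- no positive density in a set with proportional gaps -/
theorem no_density (A : Set ℕ) (hA : ∀ j n : ℕ, 4 * 16 ^ j ≤ n → n < 8 * 16 ^ j → n ∉ A) (d : ℝ)
    (hd : Tendsto (fun n : ℕ => (({k : ℕ | k < n ∧ k ∈ A}.ncard : ℕ) : ℝ) / (n : ℝ)) atTop (𝓝 d)) :
    d = 0 := by
  have hpow : Tendsto (fun j : ℕ => 16 ^ j) atTop atTop := tendsto_pow_atTop_atTop_of_one_lt (by norm_num)
  have h4 : Tendsto (fun j : ℕ => 4 * 16 ^ j) atTop atTop :=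
    tendsto_atTop_mono (fun j => by omega) hpow
  have h8 : Tendsto (fun j : ℕ => 8 * 16 ^ j) atTop atTop :=
    tendsto_atTop_mono (fun j => by omega) hpow
  have h5 := hd.comp h4
  have h9 := (hd.comp h8).const_mul 2
  have heq : ∀ j : ℕ, {k : ℕ | k < 8 * 16 ^ j ∧ k ∈ A} = {k : ℕ | k < 4 * 16 ^ j ∧ k ∈ A} := by
    intro j
    ext k
    constructor
    · rintro ⟨h1, h2⟩
      refine ⟨?_, h2⟩
      by_contra hcon
      exact hA j k (by omega) h1 h2
    · rintro ⟨h1, h2⟩
      exact ⟨by omega, h2⟩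
  have h10 : Tendsto ((fun n : ℕ => (({k : ℕ | k < n ∧ k ∈ A}.ncard : ℕ) : ℝ) / (n : ℝ)) ∘
      fun j : ℕ => 4 * 16 ^ j) atTop (𝓝 (2 * d)) := by
    refine h9.congr fun j => ?_
    simp only [Function.comp]
    rw [heq j]
    push_cast
    have : (0 : ℝ) < 16 ^ j := by positivity
    field_simp
    ring
  have h11 := tendsto_nhds_unique h5 h10
  linarith

theorem main :
    (∀ U : Set E1, IsOpen U → U.Nonempty →
        ∃ δ : ℝ, 0 < δ ∧ ∀ᶠ n : ℕ in atTop,
          δ * (n : ℝ) ≤ (({k : ℕ | k < n ∧ (⇑T)^[k] z ∈ U}.ncard : ℕ) : ℝ)) ∧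
      ∃ U : Set E1, IsOpen U ∧ U.Nonempty ∧
        ∀ A : Set ℕ, A ⊆ {k : ℕ | (⇑T)^[k] z ∈ U} →
          ¬ ∃ d : ℝ, 0 < d ∧
            Tendsto
              (fun n : ℕ => (({k : ℕ | k < n ∧ k ∈ A}.ncard : ℕ) : ℝ) / (n : ℝ))
              atTop (nhds d) := by
  have hit : ∀ k : ℕ, (⇑T)^[k] z = (T ^ k) z := fun k => by rw [FunLike.coe_pow_eq_iterate]
  refine ⟨fun U hU hne => ?_, {y : E1 | 1 < ‖y‖}, isOpen_lt continuous_const continuous_norm, ?_, ?_⟩
  · have := freq U hU hne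
    simpa only [hit] using this
  · refine ⟨(2 : ℝ) • e ℝ 0, ?_⟩
    change 1 < ‖(2 : ℝ) • e ℝ 0‖
    rw [norm_smul, norm_e]
    norm_num
  · rintro A hA ⟨d, hd0, hd⟩
    have := no_density A (fun j n h1 h2 hn => by
      have h3 := hA hn
      change 1 < ‖(⇑T)^[n] z‖ at h3
      rw [hit] at h3
      exact absurd (gap j n h1 h2) (not_le.2 h3)) d hd
    linarith

end Pool.Agent.Q201.Gap
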