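import Mathlib

/-!
# Newton polynomials and Hermite-type rescaling

`c m` is the binomial polynomial of degree `m`; the polynomials `Y k` satisfy `Y k (i) → i` and
`Y k (k + i) → i`.
-/

set_option autoImplicit false

open Filter Topology Polynomial fwdDiff

namespace Pool.Agent.Q201.Newton

variable {𝕂 : Type} [RCLike 𝕂]

/-- binomial polynomials -/
noncomputable def c (𝕂 : Type) [RCLike 𝕂] : ℕ → 𝕂[X]
  | 0 => 1
  | m + 1 => C (((m : 𝕂) + 1)⁻¹) * (c 𝕂 m * (X - C (m : 𝕂)))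

theorem c_zero : c 𝕂 0 = 1 := rfl

theorem c_succ (m : ℕ) : c 𝕂 (m + 1) = C (((m : 𝕂) + 1)⁻¹) * (c 𝕂 m * (X - C (m : 𝕂))) := rfl

theorem succ_ne (m : ℕ) : (m : 𝕂) + 1 ≠ 0 := by
  have := Nat.cast_add_one_ne_zero (R := 𝕂) m
  exact this

theorem c_mul (m : ℕ) : X * c 𝕂 m = C ((m : 𝕂) + 1) * c 𝕂 (m + 1) + C (m : 𝕂) * c 𝕂 m := by
  rw [c_succ, ← mul_assoc (C ((m : 𝕂) + 1)), ← C_mul, mul_inv_cancel₀ (succ_ne m), C_1]
  ring

theorem c_natDegree (m : ℕ) : (c 𝕂 m).natDegree ≤ m := by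
  induction m with
  | zero => rw [c_zero]; simp
  | succ m ih =>
    rw [c_succ]
    refine (natDegree_C_mul_le _ _).trans ?_
    refine natDegree_mul_le.trans ?_
    have := natDegree_X_sub_C_le (m : 𝕂)
    omega

theorem c_eval_succ (m : ℕ) (y : 𝕂) :
    (c 𝕂 (m + 1)).eval (y + 1) - (c 𝕂 (m + 1)).eval y = (c 𝕂 m).eval y := by
  induction m with
  | zero => simp [c_succ, c_zero]
  | succ m ih =>
    have h1 : (c 𝕂 (m + 1)).eval (y + 1) = (c 𝕂 (m + 1)).eval y + (c 𝕂 m).eval y := by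
      rw [← ih]; ring
    rw [c_succ (m + 1)]
    simp only [eval_mul, eval_C, eval_sub, eval_X]
    rw [h1]
    have h2 : (c 𝕂 (m + 1)).eval y = ((m : 𝕂) + 1)⁻¹ * ((c 𝕂 m).eval y * (y - m)) := by
      rw [c_succ]
      simp only [eval_mul, eval_C, eval_sub, eval_X]
    have h3 := succ_ne (𝕂 := 𝕂) m
    have h4 : (c 𝕂 m).eval y * (y - m) = ((m : 𝕂) + 1) * (c 𝕂 (m + 1)).eval y := by
      rw [h2]; field_simp
    have h5 := succ_ne (𝕂 := 𝕂) (m + 1)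
    push_cast at h5 ⊢
    have h6 : ((c 𝕂 (m + 1)).eval y + (c 𝕂 m).eval y) * (y + 1 - (m + 1)) -
        (c 𝕂 (m + 1)).eval y * (y - (m + 1)) = (m + 1 + 1) * (c 𝕂 (m + 1)).eval y := by
      calc _ = (c 𝕂 (m + 1)).eval y * (m + 1 - m) + ((c 𝕂 m).eval y * (y - m)) := by ring
        _ = _ := by rw [h4]; ring
    rw [← mul_sub, h6, ← mul_assoc, inv_mul_cancel₀ h5, one_mul]

theorem fwdDiff_c_succ (m : ℕ) : fwdDiff (1 : 𝕂) (fun y => (c 𝕂 (m + 1)).eval y) = fun y => (c 𝕂 m).eval y := by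
  funext y
  exact c_eval_succ m y

/-- every polynomial is a combination of the binomial polynomials -/
theorem span_c : Submodule.span 𝕂 (Set.range (c 𝕂)) = ⊤ := by
  have hX : ∀ p ∈ Submodule.span 𝕂 (Set.range (c 𝕂)), X * p ∈ Submodule.span 𝕂 (Set.range (c 𝕂)) := by
    intro p hp
    refine Submodule.span_induction ?_ ?_ ?_ ?_ hp
    · rintro _ ⟨m, rfl⟩
      rw [c_mul, ← smul_eq_C_mul, ← smul_eq_C_mul]
      exact Submodule.add_mem _ (Submodule.smul_mem _ _ (Submodule.subset_span ⟨_, rfl⟩))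
        (Submodule.smul_mem _ _ (Submodule.subset_span ⟨_, rfl⟩))
    · rw [mul_zero]; exact Submodule.zero_mem _
    · intro p q _ _ hp hq; rw [mul_add]; exact Submodule.add_mem _ hp hq
    · intro a p _ hp; rw [mul_smul_comm]; exact Submodule.smul_mem _ _ hp
  have hXn : ∀ n : ℕ, (X : 𝕂[X]) ^ n ∈ Submodule.span 𝕂 (Set.range (c 𝕂)) := by
    intro n
    induction n with
    | zero => rw [pow_zero]; exact Submodule.subset_span ⟨0, rfl⟩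
    | succ n ih => rw [pow_succ']; exact hX _ ih
  rw [eq_top_iff]
  intro p _
  rw [p.as_sum_range_C_mul_X_pow]
  refine Submodule.sum_mem _ fun i _ => ?_
  rw [← smul_eq_C_mul]
  exact Submodule.smul_mem _ _ (hXn i)

/-! ### differences along sequences of functions -/

theorem diff_tendsto (f : ℕ → 𝕂 → 𝕂) (x : ℕ → 𝕂) (g : 𝕂 → 𝕂) (y : 𝕂)
    (h : ∀ i : ℕ, Tendsto (fun k => f k (x k + i)) atTop (𝓝 (g (y + i)))) (j : ℕ) :
    Tendsto (fun k => (fwdDiff (1 : 𝕂))^[j] (f k) (x k)) atTop (𝓝 ((fwdDiff (1 : 𝕂))^[j] g y)) := by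
  simp only [fwdDiff_iter_eq_sum_shift, nsmul_one]
  refine tendsto_finsetSum _ fun i _ => ?_
  exact (h i).const_smul _

theorem diff_bdd (f : ℕ → 𝕂 → 𝕂) (x : ℕ → 𝕂)
    (h : ∀ i : ℕ, ∃ A : ℝ, ∀ k, ‖f k (x k + i)‖ ≤ A) (j : ℕ) :
    ∃ A : ℝ, ∀ k, ‖(fwdDiff (1 : 𝕂))^[j] (f k) (x k)‖ ≤ A := by
  choose A hA using h
  refine ⟨∑ i ∈ Finset.range (j + 1), |(((-1 : ℤ) ^ (j - i) * j.choose i : ℤ) : ℝ)| * A i, fun k => ?_⟩
  rw [fwdDiff_iter_eq_sum_shift]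
  refine (norm_sum_le _ _).trans (Finset.sum_le_sum fun i _ => ?_)
  rw [nsmul_one, zsmul_eq_mul, norm_mul]
  have : ‖((((-1 : ℤ) ^ (j - i) * j.choose i : ℤ) : ℤ) : 𝕂)‖ =
      |(((-1 : ℤ) ^ (j - i) * j.choose i : ℤ) : ℝ)| := by
    rw [← Real.norm_eq_abs]
    have e : ((((-1 : ℤ) ^ (j - i) * j.choose i : ℤ) : ℤ) : 𝕂) =
        (((((-1 : ℤ) ^ (j - i) * j.choose i : ℤ) : ℝ)) : 𝕂) := by push_cast; rfl
    rw [e, RCLike.norm_ofReal, Real.norm_eq_abs]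
  rw [this]
  exact mul_le_mul_of_nonneg_left (hA i k) (abs_nonneg _)

/-! ### the interpolating polynomials -/

/-- `k R(X/k)` with `R(s) = s - 3s² + 2s³` -/
noncomputable def Y (𝕂 : Type) [RCLike 𝕂] (k : ℕ) : 𝕂[X] :=
  X - C (3 / (k : 𝕂)) * X ^ 2 + C (2 / (k : 𝕂) ^ 2) * X ^ 3

theorem Y_natDegree (k : ℕ) : (Y 𝕂 k).natDegree ≤ 3 := by
  unfold Y
  compute_degree

theorem Y_eval (k : ℕ) (y : 𝕂) :
    (Y 𝕂 k).eval y = y - 3 / (k : 𝕂) * y ^ 2 + 2 / (k : 𝕂) ^ 2 * y ^ 3 := by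
  unfold Y
  simp only [eval_add, eval_sub, eval_mul, eval_C, eval_pow, eval_X]

theorem inv_tendsto : Tendsto (fun k : ℕ => ((k : 𝕂))⁻¹) atTop (𝓝 0) := by
  rw [tendsto_zero_iff_norm_tendsto_zero]
  have : (fun k : ℕ => ‖((k : 𝕂))⁻¹‖) = fun k : ℕ => ((k : ℝ))⁻¹ := by
    funext k
    rw [norm_inv, RCLike.norm_natCast]
  rw [this]
  exact tendsto_inv_atTop_nhds_zero_nat

theorem Y_tendsto_zero (i : ℕ) : Tendsto (fun k => (Y 𝕂 k).eval (0 + (i : 𝕂))) atTop (𝓝 (0 + (i : 𝕂))) := by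
  have h : (fun k => (Y 𝕂 k).eval (0 + (i : 𝕂))) = fun k : ℕ =>
      (i : 𝕂) - 3 * (i : 𝕂) ^ 2 * (k : 𝕂)⁻¹ + 2 * (i : 𝕂) ^ 3 * (k : 𝕂)⁻¹ ^ 2 := by
    funext k
    rw [Y_eval, zero_add, div_eq_mul_inv, div_eq_mul_inv, inv_pow]
    ring
  rw [h]
  have h1 := inv_tendsto (𝕂 := 𝕂)
  have h2 := ((h1.const_mul (3 * (i : 𝕂) ^ 2)).const_sub (i : 𝕂)).add
    ((h1.pow 2).const_mul (2 * (i : 𝕂) ^ 3))
  convert h2 using 2
  ring

theorem Y_tendsto_k (i : ℕ) : Tendsto (fun k : ℕ => (Y 𝕂 k).eval ((k : 𝕂) + (i : 𝕂))) atTop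
    (𝓝 (0 + (i : 𝕂))) := by
  have h : (fun k : ℕ => (i : 𝕂) + 3 * (i : 𝕂) ^ 2 * (k : 𝕂)⁻¹ + 2 * (i : 𝕂) ^ 3 * (k : 𝕂)⁻¹ ^ 2) =ᶠ[atTop]
      fun k : ℕ => (Y 𝕂 k).eval ((k : 𝕂) + (i : 𝕂)) := by
    filter_upwards [eventually_gt_atTop 0] with k hk
    have hk0 : (k : 𝕂) ≠ 0 := Nat.cast_ne_zero.2 (by omega)
    rw [Y_eval]
    field_simp
    ring
  refine Tendsto.congr' h ?_
  have h1 := inv_tendsto (𝕂 := 𝕂)
  have h2 := ((h1.const_mul (3 * (i : 𝕂) ^ 2)).const_add (i : 𝕂)).add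
    ((h1.pow 2).const_mul (2 * (i : 𝕂) ^ 3))
  convert h2 using 2
  ring

end Pool.Agent.Q201.Newton
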