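import Mathlib
import Pool.Agent.Q201.Newton

/-!
# A Banach space of sequences of polynomials

Sequences `(P k)` of polynomials of bounded degree, with the norm
`sup_k sup_j max (|Δ^j P_k (0)|, |Δ^j P_k (k)|)`; `T = Δ`, so that `I + T` is the translation.
-/

set_option autoImplicit false

open Filter Topology Polynomial
open scoped ENNReal

namespace Pool.Agent.Q201.GenKer

open Pool.Agent.Q201.Newton

variable (𝕂 : Type) [RCLike 𝕂]

/-- the big space -/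
abbrev W : Type := lp (fun _ : ℕ × ℕ × Bool => 𝕂) ⊤

variable {𝕂}

/-- the two base points -/
noncomputable def pt (k : ℕ) (σ : Bool) : 𝕂 := if σ then (k : 𝕂) else 0

/-- the array of a sequence of polynomials -/
noncomputable def arr (P : ℕ → 𝕂[X]) (a : ℕ × ℕ × Bool) : 𝕂 :=
  (fwdDiff (1 : 𝕂))^[a.2.1] (fun y => (P a.1).eval y) (pt a.1 a.2.2)

/-- admissible sequences -/
def Adm (P : ℕ → 𝕂[X]) : Prop :=
  (∃ D, ∀ k, (P k).natDegree ≤ D) ∧
    ∀ (σ : Bool) (i : ℕ), ∃ A : ℝ, ∀ k, ‖(P k).eval (pt k σ + (i : 𝕂))‖ ≤ A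

theorem diff_eq_zero (p : 𝕂[X]) (j : ℕ) (h : p.natDegree < j) (x : 𝕂) :
    (fwdDiff (1 : 𝕂))^[j] (fun y => p.eval y) x = 0 := by
  have := Polynomial.fwdDiff_iter_eq_zero_of_degree_lt h
  exact congrFun this x

theorem arr_bdd (P : ℕ → 𝕂[X]) (hP : Adm P) : ∃ A : ℝ, ∀ a, ‖arr P a‖ ≤ A := by
  obtain ⟨⟨D, hD⟩, hb⟩ := hP
  have h1 : ∀ (σ : Bool) (j : ℕ), ∃ A : ℝ, ∀ k, ‖arr P (k, j, σ)‖ ≤ A := fun σ j =>
    diff_bdd (fun k y => (P k).eval y) (fun k => pt k σ) (hb σ) j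
  choose A hA using h1
  have hA0 : ∀ σ j, 0 ≤ A σ j := fun σ j => (norm_nonneg _).trans (hA σ j 0)
  refine ⟨∑ j ∈ Finset.range (D + 1), (A true j + A false j), ?_⟩
  rintro ⟨k, j, σ⟩
  rcases Nat.lt_or_ge D j with hj | hj
  · have h2 : arr P (k, j, σ) = 0 := diff_eq_zero (P k) j (lt_of_le_of_lt (hD k) hj) _
    rw [h2, norm_zero]
    exact Finset.sum_nonneg fun j _ => add_nonneg (hA0 _ _) (hA0 _ _)
  · have h2 : A σ j ≤ A true j + A false j := by
      cases σ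
      · linarith [hA0 true j]
      · linarith [hA0 false j]
    refine (hA σ j k).trans (h2.trans ?_)
    exact Finset.single_le_sum (f := fun j => A true j + A false j)
      (fun j _ => add_nonneg (hA0 _ _) (hA0 _ _)) (Finset.mem_range.2 (by omega))

/-- a bounded array -/
noncomputable def mkW (y : ℕ × ℕ × Bool → 𝕂) (h : ∃ A : ℝ, ∀ a, ‖y a‖ ≤ A) : W 𝕂 :=
  ⟨y, memℓp_infty ⟨h.choose, by rintro _ ⟨k, rfl⟩; exact h.choose_spec k⟩⟩

theorem mkW_apply (y : ℕ × ℕ × Bool → 𝕂) (h : ∃ A : ℝ, ∀ a, ‖y a‖ ≤ A) (a : ℕ × ℕ × Bool) :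
    mkW y h a = y a := rfl

/-- the array as an element of `W` -/
noncomputable def arrW (P : ℕ → 𝕂[X]) (hP : Adm P) : W 𝕂 := mkW (arr P) (arr_bdd P hP)

theorem arrW_apply (P : ℕ → 𝕂[X]) (hP : Adm P) (a : ℕ × ℕ × Bool) : arrW P hP a = arr P a := rfl

theorem W_le (y : W 𝕂) (a : ℕ × ℕ × Bool) : ‖y a‖ ≤ ‖y‖ := lp.norm_apply_le_norm (by simp) y a

variable (𝕂) in
/-- the shift -/
noncomputable def TW : W 𝕂 →L[𝕂] W 𝕂 :=
  LinearMap.mkContinuous
    { toFun := fun y => ⟨fun a => y (a.1, a.2.1 + 1, a.2.2),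
        memℓp_infty ⟨‖y‖, by rintro _ ⟨a, rfl⟩; exact W_le y _⟩⟩
      map_add' := fun x y => by
        ext a
        rfl
      map_smul' := fun c x => by
        ext a
        rfl } 1
    (fun y => by
      rw [one_mul]
      exact lp.norm_le_of_forall_le (norm_nonneg _) fun a => W_le y _)

theorem TW_apply (y : W 𝕂) (k j : ℕ) (σ : Bool) : TW 𝕂 y (k, j, σ) = y (k, j + 1, σ) := rfl

theorem TW_pow_apply (n : ℕ) (y : W 𝕂) (k j : ℕ) (σ : Bool) :
    ((TW 𝕂) ^ n) y (k, j, σ) = y (k, j + n, σ) := by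
  induction n generalizing j with
  | zero => rfl
  | succ n ih =>
    rw [pow_succ', mul_apply_eq_comp, TW_apply, ih]
    have : j + 1 + n = j + (n + 1) := by ring
    rw [this]

/-- translation of the arrays -/
theorem transl (P : ℕ → 𝕂[X]) (hP : Adm P) (n k j : ℕ) (σ : Bool) :
    ((1 + TW 𝕂) ^ n) (arrW P hP) (k, j, σ) =
      (fwdDiff (1 : 𝕂))^[j] (fun y => (P k).eval y) (pt k σ + n) := by
  induction n generalizing j with
  | zero =>
    rw [pow_zero, Nat.cast_zero, add_zero]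
    rfl
  | succ n ih =>
    rw [pow_succ', mul_apply_eq_comp]
    have h1 : ∀ z : W 𝕂, (1 + TW 𝕂) z (k, j, σ) = z (k, j, σ) + z (k, j + 1, σ) := fun z => rfl
    rw [h1, ih, ih, Function.iterate_succ_apply']
    unfold fwdDiff
    push_cast
    rw [add_sub_cancel, add_assoc]

/-- the relation between the two base points, on arrays -/
theorem rel_arr (P : ℕ → 𝕂[X]) (hP : Adm P) (k : ℕ) :
    ((1 + TW 𝕂) ^ k) (arrW P hP) (k, 0, false) = arrW P hP (k, 0, true) := by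
  rw [transl, arrW_apply]
  unfold arr pt
  simp

/-! ### null sequences -/

/-- null sequences -/
def Nul (P : ℕ → 𝕂[X]) : Prop :=
  (∃ D, ∀ k, (P k).natDegree ≤ D) ∧
    ∀ (σ : Bool) (i : ℕ), Tendsto (fun k => (P k).eval (pt k σ + (i : 𝕂))) atTop (𝓝 0)

theorem bdd_of_tendsto (f : ℕ → 𝕂) (l : 𝕂) (h : Tendsto f atTop (𝓝 l)) : ∃ A : ℝ, ∀ k, ‖f k‖ ≤ A := by
  obtain ⟨A, hA⟩ := h.norm.bddAbove_range
  exact ⟨A, fun k => hA ⟨k, rfl⟩⟩

theorem Nul.adm {P : ℕ → 𝕂[X]} (h : Nul P) : Adm P :=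
  ⟨h.1, fun σ i => bdd_of_tendsto _ _ (h.2 σ i)⟩

theorem Nul.small {P : ℕ → 𝕂[X]} (h : Nul P) (ε : ℝ) (hε : 0 < ε) :
    ∃ K, ∀ k, K ≤ k → ∀ j σ, ‖arr P (k, j, σ)‖ ≤ ε := by
  obtain ⟨⟨D, hD⟩, hb⟩ := h
  have h1 : ∀ (σ : Bool) (j : ℕ), ∀ᶠ k in atTop, ‖arr P (k, j, σ)‖ ≤ ε := by
    intro σ j
    have h2 := diff_tendsto (fun k y => (P k).eval y) (fun k => pt k σ) (fun _ => 0) 0 (hb σ) j
    have h3 : (fwdDiff (1 : 𝕂))^[j] (fun _ : 𝕂 => (0 : 𝕂)) 0 = 0 := by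
      rw [fwdDiff_iter_eq_sum_shift]
      simp
    rw [h3] at h2
    have h4 := h2.norm
    rw [norm_zero] at h4
    exact h4.eventually_le_const hε
  have h2 : ∀ᶠ k in atTop, ∀ j ∈ Finset.range (D + 1), ‖arr P (k, j, true)‖ ≤ ε ∧
      ‖arr P (k, j, false)‖ ≤ ε := by
    rw [Filter.eventually_all_finset]
    exact fun j _ => (h1 true j).and (h1 false j)
  obtain ⟨K, hK⟩ := eventually_atTop.1 h2
  refine ⟨K, fun k hk j σ => ?_⟩
  rcases Nat.lt_or_ge D j with hj | hj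
  · have h2 : arr P (k, j, σ) = 0 := diff_eq_zero (P k) j (lt_of_le_of_lt (hD k) hj) _
    rw [h2, norm_zero]
    exact hε.le
  · have h3 := hK k hk j (Finset.mem_range.2 (by omega))
    cases σ
    · exact h3.2
    · exact h3.1

/-- the sequence concentrated at one place -/
noncomputable def sgl (k₀ : ℕ) (p : 𝕂[X]) (k : ℕ) : 𝕂[X] := if k = k₀ then p else 0

theorem sgl_nul (k₀ : ℕ) (p : 𝕂[X]) : Nul (sgl k₀ p) := by
  refine ⟨⟨p.natDegree, fun k => ?_⟩, fun σ i => ?_⟩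
  · unfold sgl
    split_ifs
    · exact le_rfl
    · simp
  · refine tendsto_const_nhds.congr' ?_
    filter_upwards [eventually_gt_atTop k₀] with k hk
    unfold sgl
    rw [if_neg (by omega), eval_zero]

variable (𝕂) in
/-- concentrated arrays, linearly in the polynomial -/
noncomputable def sglL (k₀ : ℕ) : 𝕂[X] →ₗ[𝕂] W 𝕂 where
  toFun p := arrW (sgl k₀ p) (sgl_nul k₀ p).adm
  map_add' p q := by
    ext a
    rw [lp.coeFn_add, Pi.add_apply, arrW_apply, arrW_apply, arrW_apply]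
    unfold arr sgl
    split_ifs
    · have : (fun y => (p + q).eval y) = (fun y => p.eval y) + fun y => q.eval y := by
        funext y; simp
      rw [this, fwdDiff_iter_add, Pi.add_apply]
    · simp [fwdDiff_iter_eq_sum_shift]
  map_smul' r p := by
    ext a
    rw [RingHom.id_apply, lp.coeFn_smul, Pi.smul_apply, arrW_apply, arrW_apply]
    unfold arr sgl
    split_ifs
    · have : (fun y => (r • p).eval y) = r • fun y => p.eval y := by
        funext y; simp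
      rw [this, fwdDiff_iter_const_smul, Pi.smul_apply]
    · simp [fwdDiff_iter_eq_sum_shift]

variable (𝕂) in
/-- span of the concentrated arrays -/
noncomputable def V0 : Submodule 𝕂 (W 𝕂) := Submodule.span 𝕂 (Set.range fun s : ℕ × ℕ => sglL 𝕂 s.1 (c 𝕂 s.2))

theorem sglL_mem (k₀ : ℕ) (p : 𝕂[X]) : sglL 𝕂 k₀ p ∈ V0 𝕂 := by
  have hp : p ∈ Submodule.span 𝕂 (Set.range (c 𝕂)) := by rw [span_c]; trivial
  refine Submodule.span_induction ?_ ?_ ?_ ?_ hp
  · rintro _ ⟨l, rfl⟩; exact Submodule.subset_span ⟨(k₀, l), rfl⟩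
  · rw [map_zero]; exact Submodule.zero_mem _
  · intro p q _ _ hp hq; rw [map_add]; exact Submodule.add_mem _ hp hq
  · intro a p _ hp; rw [map_smul]; exact Submodule.smul_mem _ _ hp

/-- null arrays are limits of combinations of concentrated arrays -/
theorem nul_mem {P : ℕ → 𝕂[X]} (h : Nul P) (hP : Adm P) : arrW P hP ∈ (V0 𝕂).topologicalClosure := by
  change arrW P hP ∈ closure ((V0 𝕂) : Set (W 𝕂))
  rw [Metric.mem_closure_iff]
  intro ε hε
  obtain ⟨K, hK⟩ := h.small (ε / 2) (by positivity)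
  refine ⟨∑ k₀ ∈ Finset.range K, sglL 𝕂 k₀ (P k₀), Submodule.sum_mem _ fun k₀ _ => sglL_mem _ _, ?_⟩
  rw [dist_eq_norm]
  refine lt_of_le_of_lt (lp.norm_le_of_forall_le (C := ε / 2) (by positivity) ?_) (by linarith)
  rintro ⟨k, j, σ⟩
  rw [lp.coeFn_sub, Pi.sub_apply, arrW_apply, lp.coeFn_sum, Finset.sum_apply]
  have h1 : ∀ k₀, (sglL 𝕂 k₀ (P k₀) : W 𝕂) (k, j, σ) = if k = k₀ then arr P (k, j, σ) else 0 := by
    intro k₀
    change arr (sgl k₀ (P k₀)) (k, j, σ) = _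
    unfold arr sgl
    split_ifs with h2
    · subst h2; rfl
    · simp [fwdDiff_iter_eq_sum_shift]
  simp only [h1, Finset.sum_ite_eq, Finset.mem_range]
  split_ifs with h2
  · rw [sub_self, norm_zero]; positivity
  · rw [sub_zero]; exact hK k (by omega) j σ

end Pool.Agent.Q201.GenKer
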