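import Mathlib
import Pool.Agent.Q201.GenKer

/-!
# The space and the operator
-/

set_option autoImplicit false

open Filter Topology Polynomial
open scoped ENNReal

namespace Pool.Agent.Q201.GenKer

open Pool.Agent.Q201.Newton

variable {𝕂 : Type} [RCLike 𝕂]

variable (𝕂) in
/-- the interpolating sequences -/
noncomputable def itp (m : ℕ) (k : ℕ) : 𝕂[X] := (c 𝕂 m).comp (Y 𝕂 k)

theorem Y_pt (σ : Bool) (i : ℕ) :
    Tendsto (fun k => (Y 𝕂 k).eval (pt k σ + (i : 𝕂))) atTop (𝓝 (0 + (i : 𝕂))) := by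
  cases σ
  · simpa only [pt, Bool.false_eq_true, if_false] using Y_tendsto_zero (𝕂 := 𝕂) i
  · simpa only [pt, if_true] using Y_tendsto_k (𝕂 := 𝕂) i

theorem itp_tendsto (m : ℕ) (σ : Bool) (i : ℕ) :
    Tendsto (fun k => (itp 𝕂 m k).eval (pt k σ + (i : 𝕂))) atTop (𝓝 ((c 𝕂 m).eval (0 + (i : 𝕂)))) := by
  unfold itp
  simp only [eval_comp]
  exact ((c 𝕂 m).continuous.tendsto _).comp (Y_pt σ i)

theorem itp_natDegree (m k : ℕ) : (itp 𝕂 m k).natDegree ≤ m * 3 := by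
  unfold itp
  refine natDegree_comp_le.trans ?_
  exact Nat.mul_le_mul (c_natDegree m) (Y_natDegree k)

theorem itp_adm (m : ℕ) : Adm (itp 𝕂 m) :=
  ⟨⟨m * 3, itp_natDegree m⟩, fun σ i => bdd_of_tendsto _ _ (itp_tendsto m σ i)⟩

variable (𝕂) in
/-- the interpolating arrays -/
noncomputable def iW (m : ℕ) : W 𝕂 := arrW (itp 𝕂 m) (itp_adm m)

/-! ### action of the shift on the generators -/

theorem TW_sgl_zero (k₀ : ℕ) : TW 𝕂 (sglL 𝕂 k₀ (c 𝕂 0)) = 0 := by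
  ext ⟨k, j, σ⟩
  rw [TW_apply]
  change arr (sgl k₀ (c 𝕂 0)) (k, j + 1, σ) = 0
  unfold arr
  apply diff_eq_zero
  unfold sgl
  simp only
  split_ifs
  · rw [c_zero, natDegree_one]; omega
  · rw [natDegree_zero]; omega

theorem TW_sgl_succ (k₀ l : ℕ) : TW 𝕂 (sglL 𝕂 k₀ (c 𝕂 (l + 1))) = sglL 𝕂 k₀ (c 𝕂 l) := by
  ext ⟨k, j, σ⟩
  rw [TW_apply]
  change arr (sgl k₀ (c 𝕂 (l + 1))) (k, j + 1, σ) = arr (sgl k₀ (c 𝕂 l)) (k, j, σ)
  unfold arr sgl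
  simp only
  rw [Function.iterate_succ_apply]
  split_ifs
  · rw [fwdDiff_c_succ]
  · simp [fwdDiff_iter_eq_sum_shift]

theorem TW_iW_zero : TW 𝕂 (iW 𝕂 0) = 0 := by
  ext ⟨k, j, σ⟩
  rw [TW_apply]
  change arr (itp 𝕂 0) (k, j + 1, σ) = 0
  unfold arr
  apply diff_eq_zero
  have := itp_natDegree (𝕂 := 𝕂) 0 k
  simp only
  omega

/-- the defect -/
noncomputable def dfc (𝕂 : Type) [RCLike 𝕂] (m k : ℕ) : 𝕂[X] :=
  (itp 𝕂 (m + 1) k).comp (X + 1) - itp 𝕂 (m + 1) k - itp 𝕂 m k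

theorem dfc_eval (m k : ℕ) (y : 𝕂) : (dfc 𝕂 m k).eval y =
    (itp 𝕂 (m + 1) k).eval (y + 1) - (itp 𝕂 (m + 1) k).eval y - (itp 𝕂 m k).eval y := by
  unfold dfc
  simp only [eval_sub, eval_comp, eval_add, eval_X, eval_one]

theorem dfc_nul (m : ℕ) : Nul (dfc 𝕂 m) := by
  refine ⟨⟨(m + 1) * 3, fun k => ?_⟩, fun σ i => ?_⟩
  · unfold dfc
    refine (natDegree_sub_le _ _).trans (max_le ((natDegree_sub_le _ _).trans (max_le ?_ ?_)) ?_)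
    · refine natDegree_comp_le.trans ?_
      have h1 : (X + 1 : 𝕂[X]).natDegree ≤ 1 := by
        have := natDegree_X_add_C (1 : 𝕂)
        rw [C_1] at this
        omega
      calc _ ≤ (m + 1) * 3 * 1 := Nat.mul_le_mul (itp_natDegree _ _) h1
        _ = _ := by ring
    · exact itp_natDegree _ _
    · exact (itp_natDegree _ _).trans (by omega)
  · simp only [dfc_eval]
    have h1 := itp_tendsto (𝕂 := 𝕂) (m + 1) σ (i + 1)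
    have h2 := itp_tendsto (𝕂 := 𝕂) (m + 1) σ i
    have h3 := itp_tendsto (𝕂 := 𝕂) m σ i
    have h4 := (h1.sub h2).sub h3
    have e1 : (c 𝕂 (m + 1)).eval (0 + ((i + 1 : ℕ) : 𝕂)) - (c 𝕂 (m + 1)).eval (0 + (i : 𝕂)) -
        (c 𝕂 m).eval (0 + (i : 𝕂)) = 0 := by
      rw [← c_eval_succ m (0 + (i : 𝕂))]
      push_cast
      rw [← add_assoc]
      ring
    rw [e1] at h4
    refine h4.congr fun k => ?_
    push_cast
    rw [← add_assoc]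

theorem TW_iW_succ (m : ℕ) : TW 𝕂 (iW 𝕂 (m + 1)) = iW 𝕂 m + arrW (dfc 𝕂 m) (dfc_nul m).adm := by
  ext ⟨k, j, σ⟩
  rw [TW_apply, lp.coeFn_add, Pi.add_apply]
  change arr (itp 𝕂 (m + 1)) (k, j + 1, σ) = arr (itp 𝕂 m) (k, j, σ) + arr (dfc 𝕂 m) (k, j, σ)
  unfold arr
  simp only
  rw [Function.iterate_succ_apply, ← Pi.add_apply, ← fwdDiff_iter_add]
  have h1 : (fwdDiff (1 : 𝕂) fun y => eval y (itp 𝕂 (m + 1) k)) =
      ((fun y => eval y (itp 𝕂 m k)) + fun y => eval y (dfc 𝕂 m k)) := by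
    funext y
    rw [Pi.add_apply, dfc_eval]
    unfold fwdDiff
    ring
  rw [h1]

/-! ### the space -/

variable (𝕂) in
/-- generators -/
noncomputable def gen : (ℕ × ℕ) ⊕ ℕ → W 𝕂
  | Sum.inl s => sglL 𝕂 s.1 (c 𝕂 s.2)
  | Sum.inr m => iW 𝕂 m

variable (𝕂) in
/-- the linear span of the generators -/
noncomputable def V : Submodule 𝕂 (W 𝕂) := Submodule.span 𝕂 (Set.range (gen 𝕂))

variable (𝕂) in
/-- the Banach space -/
noncomputable def XS : Submodule 𝕂 (W 𝕂) := (V 𝕂).topologicalClosure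

theorem V_le : V 𝕂 ≤ XS 𝕂 := Submodule.le_topologicalClosure _

theorem gen_mem (s : (ℕ × ℕ) ⊕ ℕ) : gen 𝕂 s ∈ V 𝕂 := Submodule.subset_span ⟨s, rfl⟩

theorem V0_le : V0 𝕂 ≤ V 𝕂 := by
  unfold V0
  rw [Submodule.span_le]
  rintro _ ⟨s, rfl⟩
  exact gen_mem (Sum.inl s)

theorem V0_cl_le : (V0 𝕂).topologicalClosure ≤ XS 𝕂 := Submodule.topologicalClosure_mono V0_le

theorem nul_mem_XS {P : ℕ → 𝕂[X]} (h : Nul P) (hP : Adm P) : arrW P hP ∈ XS 𝕂 :=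
  V0_cl_le (nul_mem h hP)

theorem TW_gen (s : (ℕ × ℕ) ⊕ ℕ) : TW 𝕂 (gen 𝕂 s) ∈ XS 𝕂 := by
  rcases s with ⟨k₀, l⟩ | m
  · rcases l with _ | l
    · change TW 𝕂 (sglL 𝕂 k₀ (c 𝕂 0)) ∈ _
      rw [TW_sgl_zero]
      exact Submodule.zero_mem _
    · change TW 𝕂 (sglL 𝕂 k₀ (c 𝕂 (l + 1))) ∈ _
      rw [TW_sgl_succ]
      exact V_le (gen_mem (Sum.inl (k₀, l)))
  · rcases m with _ | m
    · change TW 𝕂 (iW 𝕂 0) ∈ _
      rw [TW_iW_zero]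
      exact Submodule.zero_mem _
    · change TW 𝕂 (iW 𝕂 (m + 1)) ∈ _
      rw [TW_iW_succ]
      exact Submodule.add_mem _ (V_le (gen_mem (Sum.inr m))) (nul_mem_XS (dfc_nul m) _)

theorem XS_closed : IsClosed (XS 𝕂 : Set (W 𝕂)) := Submodule.isClosed_topologicalClosure _

theorem XS_induction {M : Submodule 𝕂 (W 𝕂)} (hM : IsClosed (M : Set (W 𝕂)))
    (h : ∀ s, gen 𝕂 s ∈ M) : XS 𝕂 ≤ M := by
  refine Submodule.topologicalClosure_minimal _ ?_ hM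
  unfold V
  rw [Submodule.span_le]
  rintro _ ⟨s, rfl⟩
  exact h s

theorem TW_mem (y : W 𝕂) (hy : y ∈ XS 𝕂) : TW 𝕂 y ∈ XS 𝕂 := by
  have h1 : XS 𝕂 ≤ (XS 𝕂).comap (TW 𝕂 : W 𝕂 →ₗ[𝕂] W 𝕂) :=
    XS_induction (XS_closed.preimage (TW 𝕂).continuous) fun s => TW_gen s
  exact h1 hy

variable (𝕂) in
/-- the space as a type -/
def SX : Type := ↥(XS 𝕂)

noncomputable instance : NormedAddCommGroup (SX 𝕂) := inferInstanceAs (NormedAddCommGroup ↥(XS 𝕂))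
noncomputable instance : NormedSpace 𝕂 (SX 𝕂) := inferInstanceAs (NormedSpace 𝕂 ↥(XS 𝕂))
instance : CompleteSpace (SX 𝕂) := XS_closed.completeSpace_coe

variable (𝕂) in
/-- the inclusion -/
noncomputable def toW : SX 𝕂 →L[𝕂] W 𝕂 := (XS 𝕂).subtypeL

theorem toW_mem (a : SX 𝕂) : toW 𝕂 a ∈ XS 𝕂 := Subtype.mem (show ↥(XS 𝕂) from a)

theorem norm_toW (a : SX 𝕂) : ‖toW 𝕂 a‖ = ‖a‖ := rfl

/-- an element of the space -/
def mkX (a : W 𝕂) (ha : a ∈ XS 𝕂) : SX 𝕂 := (⟨a, ha⟩ : ↥(XS 𝕂))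

theorem toW_mkX (a : W 𝕂) (ha : a ∈ XS 𝕂) : toW 𝕂 (mkX a ha) = a := rfl

theorem toW_inj {a b : SX 𝕂} (h : toW 𝕂 a = toW 𝕂 b) : a = b := Subtype.ext h

variable (𝕂) in
/-- the operator -/
noncomputable def T : SX 𝕂 →L[𝕂] SX 𝕂 :=
  ((TW 𝕂).comp (toW 𝕂)).codRestrict (XS 𝕂) fun a => TW_mem _ (toW_mem a)

theorem toW_T (a : SX 𝕂) : toW 𝕂 (T 𝕂 a) = TW 𝕂 (toW 𝕂 a) := rfl

theorem toW_T_pow (n : ℕ) (a : SX 𝕂) : toW 𝕂 ((T 𝕂 ^ n) a) = (TW 𝕂 ^ n) (toW 𝕂 a) := by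
  induction n with
  | zero => rfl
  | succ n ih => rw [pow_succ', mul_apply_eq_comp, toW_T, ih, pow_succ', mul_apply_eq_comp]

theorem toW_S_pow (n : ℕ) (a : SX 𝕂) :
    toW 𝕂 (((1 + T 𝕂) ^ n) a) = ((1 + TW 𝕂) ^ n) (toW 𝕂 a) := by
  induction n with
  | zero => rfl
  | succ n ih =>
    rw [pow_succ', mul_apply_eq_comp, pow_succ', mul_apply_eq_comp, ← ih]
    have h1 : ∀ b : SX 𝕂, (1 + T 𝕂) b = b + T 𝕂 b := fun b => rfl
    have h2 : ∀ b : W 𝕂, (1 + TW 𝕂) b = b + TW 𝕂 b := fun b => rfl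
    rw [h1, h2, map_add, toW_T]

/-- **dense range** -/
theorem dense_range : Dense (Set.range (T 𝕂)) := by
  set M : Submodule 𝕂 (W 𝕂) := ((XS 𝕂).map (TW 𝕂 : W 𝕂 →ₗ[𝕂] W 𝕂)).topologicalClosure with hM
  have hMc : IsClosed (M : Set (W 𝕂)) := Submodule.isClosed_topologicalClosure _
  have hin : ∀ y ∈ XS 𝕂, TW 𝕂 y ∈ M := fun y hy =>
    Submodule.le_topologicalClosure _ ⟨y, hy, rfl⟩
  have h0 : V0 𝕂 ≤ M := by
    unfold V0
    rw [Submodule.span_le]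
    rintro _ ⟨⟨k₀, l⟩, rfl⟩
    change sglL 𝕂 k₀ (c 𝕂 l) ∈ M
    rw [← TW_sgl_succ]
    exact hin _ (V_le (gen_mem (Sum.inl (k₀, l + 1))))
  have h0' : (V0 𝕂).topologicalClosure ≤ M := Submodule.topologicalClosure_minimal _ h0 hMc
  have h1 : XS 𝕂 ≤ M := by
    refine XS_induction hMc fun s => ?_
    rcases s with ⟨k₀, l⟩ | m
    · exact h0 (Submodule.subset_span ⟨(k₀, l), rfl⟩)
    · have h2 : iW 𝕂 m = TW 𝕂 (iW 𝕂 (m + 1)) - arrW (dfc 𝕂 m) (dfc_nul m).adm := by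
        rw [TW_iW_succ, add_sub_cancel_right]
      change iW 𝕂 m ∈ M
      rw [h2]
      exact Submodule.sub_mem _ (hin _ (V_le (gen_mem (Sum.inr (m + 1)))))
        (h0' (nul_mem (dfc_nul m) _))
  rw [Metric.dense_iff]
  intro a r hr
  have h2 : toW 𝕂 a ∈ closure (((XS 𝕂).map (TW 𝕂 : W 𝕂 →ₗ[𝕂] W 𝕂) : Submodule 𝕂 (W 𝕂)) : Set (W 𝕂)) :=
    h1 (toW_mem a)
  obtain ⟨b, hb, hab⟩ := Metric.mem_closure_iff.1 h2 r hr
  obtain ⟨y, hy, rfl⟩ := hb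
  refine ⟨T 𝕂 (mkX y hy), ?_, ⟨mkX y hy, rfl⟩⟩
  rw [Metric.mem_ball, dist_comm, dist_eq_norm, ← norm_toW, map_sub, toW_T, toW_mkX]
  rw [dist_eq_norm] at hab
  exact hab

theorem nilp_V (y : W 𝕂) (hy : y ∈ V 𝕂) : ∃ n, (TW 𝕂 ^ n) y = 0 := by
  have hstep : ∀ (z : W 𝕂) (n m : ℕ), (TW 𝕂 ^ n) z = 0 → (TW 𝕂 ^ (m + n)) z = 0 := by
    intro z n m h
    rw [pow_add, mul_apply_eq_comp, h, map_zero]
  refine Submodule.span_induction ?_ ?_ ?_ ?_ hy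
  · rintro _ ⟨s, rfl⟩
    rcases s with ⟨k₀, l⟩ | m
    · change ∃ n, (TW 𝕂 ^ n) (sglL 𝕂 k₀ (c 𝕂 l)) = 0
      refine ⟨l + 1, ?_⟩
      ext ⟨k, j, σ⟩
      rw [TW_pow_apply]
      change arr (sgl k₀ (c 𝕂 l)) (k, j + (l + 1), σ) = 0
      unfold arr sgl
      apply diff_eq_zero
      simp only
      split_ifs
      · have := c_natDegree (𝕂 := 𝕂) l; omega
      · rw [natDegree_zero]; omega
    · change ∃ n, (TW 𝕂 ^ n) (iW 𝕂 m) = 0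
      refine ⟨m * 3 + 1, ?_⟩
      ext ⟨k, j, σ⟩
      rw [TW_pow_apply]
      change arr (itp 𝕂 m) (k, j + (m * 3 + 1), σ) = 0
      unfold arr
      apply diff_eq_zero
      have := itp_natDegree (𝕂 := 𝕂) m k
      simp only
      omega
  · exact ⟨0, map_zero _⟩
  · rintro x y _ _ ⟨n, hn⟩ ⟨m, hm⟩
    refine ⟨m + n, ?_⟩
    rw [map_add, hstep x n m hn, add_comm m n, hstep y m n hm, add_zero]
  · rintro a x _ ⟨n, hn⟩
    exact ⟨n, by rw [map_smul, hn, smul_zero]⟩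

/-- **dense generalized kernel** -/
theorem dense_genker : Dense (⋃ n : ℕ, {x : SX 𝕂 | (T 𝕂 ^ n) x = 0}) := by
  rw [Metric.dense_iff]
  intro a r hr
  have h2 : toW 𝕂 a ∈ closure ((V 𝕂 : Submodule 𝕂 (W 𝕂)) : Set (W 𝕂)) := toW_mem a
  obtain ⟨b, hb, hab⟩ := Metric.mem_closure_iff.1 h2 r hr
  obtain ⟨n, hn⟩ := nilp_V b hb
  refine ⟨mkX b (V_le hb), ?_, Set.mem_iUnion.2 ⟨n, ?_⟩⟩
  · rw [Metric.mem_ball, dist_comm, dist_eq_norm, ← norm_toW, map_sub, toW_mkX]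
    rw [dist_eq_norm] at hab
    exact hab
  · apply toW_inj
    rw [toW_T_pow, toW_mkX, hn, map_zero]

/-- **separability** -/
instance : TopologicalSpace.SeparableSpace (SX 𝕂) := by
  have h1 : TopologicalSpace.IsSeparable (Set.range (gen 𝕂)) := (Set.countable_range _).isSeparable
  have h2 : TopologicalSpace.IsSeparable ((V 𝕂 : Submodule 𝕂 (W 𝕂)) : Set (W 𝕂)) := h1.span
  have h3 : TopologicalSpace.IsSeparable ((XS 𝕂 : Submodule 𝕂 (W 𝕂)) : Set (W 𝕂)) := h2.closure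
  exact h3.separableSpace

/-- the relation between the two base points -/
theorem rel (a : SX 𝕂) (k : ℕ) :
    (toW 𝕂 (((1 + T 𝕂) ^ k) a)) (k, 0, false) = (toW 𝕂 a) (k, 0, true) := by
  rw [toW_S_pow]
  let L : W 𝕂 →L[𝕂] 𝕂 :=
    (lp.evalCLM 𝕂 (fun _ : ℕ × ℕ × Bool => 𝕂) ⊤ (k, 0, false)).comp ((1 + TW 𝕂) ^ k) -
      lp.evalCLM 𝕂 (fun _ : ℕ × ℕ × Bool => 𝕂) ⊤ (k, 0, true)
  have hL : ∀ y : W 𝕂, L y = ((1 + TW 𝕂) ^ k) y (k, 0, false) - y (k, 0, true) := fun y => rfl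
  have h1 : XS 𝕂 ≤ LinearMap.ker (L : W 𝕂 →ₗ[𝕂] 𝕂) := by
    refine XS_induction ?_ fun s => ?_
    · exact L.isClosed_ker
    · change L (gen 𝕂 s) = 0
      rw [hL]
      rcases s with ⟨k₀, l⟩ | m
      · exact sub_eq_zero.2 (rel_arr (sgl k₀ (c 𝕂 l)) (sgl_nul k₀ (c 𝕂 l)).adm k)
      · exact sub_eq_zero.2 (rel_arr (itp 𝕂 m) (itp_adm m) k)
  have h2 : L (toW 𝕂 a) = 0 := h1 (toW_mem a)
  rw [hL] at h2
  exact sub_eq_zero.1 h2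

variable (𝕂) in
/-- the constant sequence `1` -/
noncomputable def e : SX 𝕂 := mkX (iW 𝕂 0) (V_le (gen_mem (Sum.inr 0)))

theorem e_apply (k : ℕ) : (toW 𝕂 (e 𝕂)) (k, 0, false) = 1 := by
  change arr (itp 𝕂 0) (k, 0, false) = 1
  unfold arr itp
  simp [c_zero]

/-- the main estimate -/
theorem main_est (a : SX 𝕂) (n : ℕ) (s : 𝕂) : ‖s‖ ≤ ‖((1 + T 𝕂) ^ n) a - s • e 𝕂‖ + ‖a‖ := by
  have h1 := W_le (toW 𝕂 (((1 + T 𝕂) ^ n) a - s • e 𝕂)) (n, 0, false)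
  rw [norm_toW, map_sub, map_smul, lp.coeFn_sub, Pi.sub_apply, lp.coeFn_smul, Pi.smul_apply, e_apply,
    rel, smul_eq_mul, mul_one] at h1
  have h2 := W_le (toW 𝕂 a) (n, 0, true)
  rw [norm_toW] at h2
  have h3 : ‖s‖ ≤ ‖toW 𝕂 a (n, 0, true) - s‖ + ‖toW 𝕂 a (n, 0, true)‖ := by
    have := norm_sub_norm_le s (toW 𝕂 a (n, 0, true))
    rw [norm_sub_rev] at this
    linarith
  linarith

theorem not_hypercyclic : ¬ ∃ a : SX 𝕂, Dense (Set.range fun n : ℕ => ((1 + T 𝕂) ^ n) a) := by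
  rintro ⟨a, ha⟩
  obtain ⟨_, hb, n, rfl⟩ := Metric.dense_iff.1 ha (((‖a‖ + 2 : ℝ) : 𝕂) • e 𝕂) 1 one_pos
  rw [Metric.mem_ball, dist_eq_norm] at hb
  have h1 := main_est a n ((‖a‖ + 2 : ℝ) : 𝕂)
  rw [RCLike.norm_ofReal, abs_of_nonneg (by positivity)] at h1
  linarith

/-- no iterate meets -/
theorem not_transitive : ∃ U V : Set (SX 𝕂), IsOpen U ∧ IsOpen V ∧ U.Nonempty ∧ V.Nonempty ∧
    ∀ n : ℕ, ((⇑((1 + T 𝕂) ^ n)) '' U) ∩ V = ∅ := by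
  refine ⟨Metric.ball 0 (1 / 2), Metric.ball (e 𝕂) (1 / 2), Metric.isOpen_ball, Metric.isOpen_ball,
    ⟨0, Metric.mem_ball_self (by norm_num)⟩, ⟨e 𝕂, Metric.mem_ball_self (by norm_num)⟩, fun n => ?_⟩
  rw [Set.eq_empty_iff_forall_notMem]
  rintro _ ⟨⟨a, ha, rfl⟩, hb⟩
  rw [Metric.mem_ball, dist_eq_norm] at ha hb
  rw [sub_zero] at ha
  have h1 := main_est a n 1
  rw [norm_one, one_smul] at h1
  linarith

instance : Nontrivial (SX 𝕂) := by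
  refine ⟨e 𝕂, 0, fun h => ?_⟩
  have := e_apply (𝕂 := 𝕂) 0
  rw [h, map_zero] at this
  exact zero_ne_one this

end Pool.Agent.Q201.GenKer
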