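import Mathlib

/-!
# The shift generated by a Jordan block is not conjugate to a product of weighted shifts
-/

set_option autoImplicit false

open Filter Topology
open scoped ENNReal

namespace Pool.Agent.Q201.MatShift

variable {𝕂 : Type} [RCLike 𝕂] {p : ℝ≥0∞} [Fact (1 ≤ p)]

/-! ### general facts on `ℓ_p(ℤ; E)` -/

section general

variable {E : Type} [NormedAddCommGroup E] [NormedSpace 𝕂 E]

theorem toReal_pos (hp : p ≠ ⊤) : 0 < p.toReal :=
  ENNReal.toReal_pos (zero_lt_one.trans_le (Fact.out : 1 ≤ p)).ne' hp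

theorem ne_zero' : p ≠ 0 := (zero_lt_one.trans_le (Fact.out : 1 ≤ p)).ne'

theorem norm_shift (hp : p ≠ ⊤) (x y : lp (fun _ : ℤ => E) p) (h : ∀ n, y n = x (n + 1)) :
    ‖y‖ = ‖x‖ := by
  rw [lp.norm_eq_tsum_rpow (toReal_pos hp), lp.norm_eq_tsum_rpow (toReal_pos hp)]
  congr 1
  simp only [h]
  exact (Equiv.addRight (1 : ℤ)).tsum_eq fun i => ‖x i‖ ^ p.toReal

/-- the operator `x ↦ (A x_{n+1})_n` -/
theorem exists_op (hp : p ≠ ⊤) (A : E →L[𝕂] E) :
    ∃ T : lp (fun _ : ℤ => E) p →L[𝕂] lp (fun _ : ℤ => E) p, ∀ x n, T x n = A (x (n + 1)) := by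
  have hp0 := toReal_pos hp
  have hsum : ∀ x : lp (fun _ : ℤ => E) p, Summable fun n : ℤ => ‖x (n + 1)‖ ^ p.toReal := fun x =>
    (Equiv.addRight (1 : ℤ)).summable_iff.2 ((memℓp_gen_iff hp0).1 (lp.memℓp x))
  have hle : ∀ (x : lp (fun _ : ℤ => E) p) (n : ℤ), ‖A (x (n + 1))‖ ^ p.toReal ≤
      ‖A‖ ^ p.toReal * ‖x (n + 1)‖ ^ p.toReal := by
    intro x n
    rw [← Real.mul_rpow (norm_nonneg _) (norm_nonneg _)]
    exact Real.rpow_le_rpow (norm_nonneg _) (A.le_opNorm _) hp0.le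
  have hmem : ∀ x : lp (fun _ : ℤ => E) p, Memℓp (fun n : ℤ => A (x (n + 1))) p := fun x =>
    memℓp_gen (Summable.of_nonneg_of_le (fun n => Real.rpow_nonneg (norm_nonneg _) _) (hle x)
      ((hsum x).mul_left _))
  refine ⟨LinearMap.mkContinuous
    { toFun := fun x => ⟨fun n : ℤ => A (x (n + 1)), hmem x⟩
      map_add' := fun x y => by
        ext n
        change A ((x + y) (n + 1)) = A (x (n + 1)) + A (y (n + 1))
        rw [lp.coeFn_add, Pi.add_apply, map_add]
      map_smul' := fun c x => by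
        ext n
        change A ((c • x) (n + 1)) = c • A (x (n + 1))
        rw [lp.coeFn_smul, Pi.smul_apply, map_smul] } ‖A‖ (fun x => ?_), fun x n => rfl⟩
  refine lp.norm_le_of_tsum_le hp0 (by positivity) ?_
  rw [Real.mul_rpow (norm_nonneg _) (norm_nonneg _), lp.norm_rpow_eq_tsum hp0,
    ← (Equiv.addRight (1 : ℤ)).tsum_eq fun i => ‖x i‖ ^ p.toReal, ← tsum_mul_left]
  exact Summable.tsum_le_tsum (hle x) (Summable.of_nonneg_of_le
    (fun n => Real.rpow_nonneg (norm_nonneg _) _) (hle x) ((hsum x).mul_left _))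
    ((hsum x).mul_left _)

/-- vectors with bounded (forward) orbits -/
def Bdd {F : Type*} [NormedAddCommGroup F] [NormedSpace 𝕂 F] (T : F →L[𝕂] F) : Submodule 𝕂 F where
  carrier := {x | ∃ C : ℝ, ∀ m : ℕ, ‖(T ^ m) x‖ ≤ C}
  zero_mem' := ⟨0, fun m => by rw [map_zero, norm_zero]⟩
  add_mem' := by
    rintro x y ⟨C, hC⟩ ⟨D, hD⟩
    exact ⟨C + D, fun m => by rw [map_add]; exact (norm_add_le _ _).trans (add_le_add (hC m) (hD m))⟩
  smul_mem' := by
    rintro a x ⟨C, hC⟩
    exact ⟨‖a‖ * C, fun m => by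
      rw [map_smul, norm_smul]; exact mul_le_mul_of_nonneg_left (hC m) (norm_nonneg _)⟩

theorem mem_Bdd {F : Type*} [NormedAddCommGroup F] [NormedSpace 𝕂 F] (T : F →L[𝕂] F) (x : F) :
    x ∈ Bdd T ↔ ∃ C : ℝ, ∀ m : ℕ, ‖(T ^ m) x‖ ≤ C := Iff.rfl

end general

/-! ### the Jordan block -/

variable (𝕂) in
/-- the plane -/
abbrev E2 : Type := EuclideanSpace 𝕂 (Fin 2)

variable (𝕂) in
/-- the Jordan block -/
noncomputable def J : E2 𝕂 →L[𝕂] E2 𝕂 :=
  LinearMap.toContinuousLinearMap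
    { toFun := fun v => !₂[v 0 + v 1, v 1]
      map_add' := fun v w => by
        ext i
        fin_cases i
        · simp; ring
        · simp
      map_smul' := fun c v => by
        ext i
        fin_cases i
        · simp; ring
        · simp }

theorem J_zero (v : E2 𝕂) : J 𝕂 v 0 = v 0 + v 1 := rfl
theorem J_one (v : E2 𝕂) : J 𝕂 v 1 = v 1 := rfl

/-- formula for the powers -/
theorem pow_formula (T : lp (fun _ : ℤ => E2 𝕂) p →L[𝕂] lp (fun _ : ℤ => E2 𝕂) p)
    (hT : ∀ x n, T x n = J 𝕂 (x (n + 1))) (m : ℕ) (x : lp (fun _ : ℤ => E2 𝕂) p) (n : ℤ) :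
    ((T ^ m) x n) 0 = (x (n + m)) 0 + (m : 𝕂) * (x (n + m)) 1 ∧ ((T ^ m) x n) 1 = (x (n + m)) 1 := by
  induction m generalizing n with
  | zero =>
    rw [pow_zero, Nat.cast_zero, Nat.cast_zero, add_zero, zero_mul, add_zero]
    exact ⟨rfl, rfl⟩
  | succ m ih =>
    rw [pow_succ', mul_apply_eq_comp, hT, J_zero, J_one, (ih (n + 1)).1, (ih (n + 1)).2]
    have : n + 1 + (m : ℤ) = n + ((m + 1 : ℕ) : ℤ) := by push_cast; ring
    rw [this]
    refine ⟨?_, rfl⟩
    push_cast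
    ring

theorem coord_le (v : E2 𝕂) (i : Fin 2) : ‖v i‖ ≤ ‖v‖ := PiLp.norm_apply_le v i

/-- vectors with bounded orbits have vanishing second coordinates -/
theorem bdd_iff (hp : p ≠ ⊤) (T : lp (fun _ : ℤ => E2 𝕂) p →L[𝕂] lp (fun _ : ℤ => E2 𝕂) p)
    (hT : ∀ x n, T x n = J 𝕂 (x (n + 1))) (x : lp (fun _ : ℤ => E2 𝕂) p) :
    x ∈ Bdd T ↔ ∀ n, (x n) 1 = 0 := by
  constructor
  · rintro ⟨C, hC⟩ n
    by_contra hne
    have hpos : 0 < ‖(x n) 1‖ := norm_pos_iff.2 hne
    obtain ⟨m, hm⟩ := exists_nat_gt ((C + ‖(x n) 0‖) / ‖(x n) 1‖)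
    rw [div_lt_iff₀ hpos] at hm
    have h1 := (pow_formula T hT m x (n - m)).1
    rw [sub_add_cancel] at h1
    have h2 : ‖((T ^ m) x (n - m)) 0‖ ≤ C :=
      (coord_le _ 0).trans ((lp.norm_apply_le_norm ne_zero' _ _).trans (hC m))
    rw [h1] at h2
    have h3 : ‖(m : 𝕂) * (x n) 1‖ = m * ‖(x n) 1‖ := by rw [norm_mul, RCLike.norm_natCast]
    have h4 : ‖(m : 𝕂) * (x n) 1‖ ≤ ‖(x n) 0 + (m : 𝕂) * (x n) 1‖ + ‖(x n) 0‖ := by
      have := norm_sub_le ((x n) 0 + (m : 𝕂) * (x n) 1) ((x n) 0)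
      rwa [add_sub_cancel_left] at this
    rw [h3] at h4
    linarith
  · intro h
    have hinv : ∀ m : ℕ, (∀ n, ((T ^ m) x n) 1 = 0) ∧ ‖(T ^ m) x‖ = ‖x‖ := by
      intro m
      induction m with
      | zero => exact ⟨h, rfl⟩
      | succ m ih =>
        refine ⟨fun n => ?_, ?_⟩
        · rw [(pow_formula T hT (m + 1) x n).2, h]
        · rw [pow_succ', mul_apply_eq_comp, ← ih.2]
          refine norm_shift hp _ _ fun n => ?_
          rw [hT]
          ext i
          fin_cases i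
          · change J 𝕂 _ 0 = _
            rw [J_zero, ih.1, add_zero]; rfl
          · rfl
    exact ⟨‖x‖, fun m => (hinv m).2.le⟩

/-! ### products of weighted shifts -/

variable {k : ℕ}

theorem P_single (ω : Fin k → ℤ → 𝕂)
    (P : (Fin k → lp (fun _ : ℤ => 𝕂) p) →L[𝕂] (Fin k → lp (fun _ : ℤ => 𝕂) p))
    (hP : ∀ y j n, P y j n = ω j (n + 1) * y j (n + 1)) (j : Fin k) (n : ℤ) :
    P (Pi.single j (lp.single p n (1 : 𝕂))) = ω j n • Pi.single j (lp.single p (n - 1) (1 : 𝕂)) := by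
  ext i l
  rw [hP]
  by_cases hi : i = j
  · subst hi
    rw [Pi.single_eq_same, Pi.smul_apply, Pi.single_eq_same, lp.coeFn_smul, Pi.smul_apply,
      lp.single_apply, lp.single_apply, Pi.single_apply, Pi.single_apply, smul_eq_mul]
    by_cases hl : l = n - 1
    · subst hl; simp
    · rw [if_neg (by omega), if_neg hl, mul_zero, mul_zero]
  · rw [Pi.single_eq_of_ne hi, Pi.smul_apply, Pi.single_eq_of_ne hi, smul_zero]
    simp

theorem P_comm (ω : Fin k → ℤ → 𝕂)
    (P : (Fin k → lp (fun _ : ℤ => 𝕂) p) →L[𝕂] (Fin k → lp (fun _ : ℤ => 𝕂) p))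
    (hP : ∀ y j n, P y j n = ω j (n + 1) * y j (n + 1)) (y : Fin k → lp (fun _ : ℤ => 𝕂) p)
    (S : Finset (Fin k)) [DecidablePred (· ∈ S)] (m : ℕ) :
    (P ^ m) (fun j => if j ∈ S then 0 else y j) = fun j => if j ∈ S then 0 else (P ^ m) y j := by
  induction m with
  | zero => rfl
  | succ m ih =>
    rw [pow_succ', mul_apply_eq_comp, ih, mul_apply_eq_comp]
    ext j n
    rw [hP]
    split_ifs
    · simp
    · rw [hP]

/-- lower bound for the powers of a product of weighted shifts -/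
theorem P_lower (ω : Fin k → ℤ → 𝕂)
    (P : (Fin k → lp (fun _ : ℤ => 𝕂) p) →L[𝕂] (Fin k → lp (fun _ : ℤ => 𝕂) p))
    (hP : ∀ y j n, P y j n = ω j (n + 1) * y j (n + 1)) (j : Fin k) (n : ℤ)
    (y : Fin k → lp (fun _ : ℤ => 𝕂) p) (m : ℕ) :
    ‖(P ^ m) (Pi.single j (lp.single p n (1 : 𝕂)))‖ * ‖y j n‖ ≤ ‖(P ^ m) y‖ := by
  have h1 : ∀ m : ℕ, ∃ r : 𝕂, (P ^ m) (Pi.single j (lp.single p n (1 : 𝕂))) =
      r • Pi.single j (lp.single p (n - m) (1 : 𝕂)) ∧ ∀ y : Fin k → lp (fun _ : ℤ => 𝕂) p,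
      (P ^ m) y j (n - m) = r * y j n := by
    intro m
    induction m with
    | zero =>
      refine ⟨1, ?_, fun y => ?_⟩
      · rw [one_smul, Nat.cast_zero, sub_zero]; rfl
      · rw [one_mul, Nat.cast_zero, sub_zero]; rfl
    | succ m ih =>
      obtain ⟨r, hr1, hr2⟩ := ih
      refine ⟨r * ω j (n - m), ?_, fun y => ?_⟩
      · rw [pow_succ', mul_apply_eq_comp, hr1, map_smul, P_single ω P hP, smul_smul]
        have : n - (m : ℤ) - 1 = n - ((m + 1 : ℕ) : ℤ) := by push_cast; ring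
        rw [this]
      · rw [pow_succ', mul_apply_eq_comp, hP]
        have : n - ((m + 1 : ℕ) : ℤ) + 1 = n - (m : ℤ) := by push_cast; ring
        rw [this, hr2]
        ring
  obtain ⟨r, hr1, hr2⟩ := h1 m
  rw [hr1, norm_smul]
  have h2 : ‖(Pi.single j (lp.single p (n - m) (1 : 𝕂)) : Fin k → lp (fun _ : ℤ => 𝕂) p)‖ = 1 := by
    rw [Pi.norm_single, lp.norm_single (zero_lt_one.trans_le (Fact.out : 1 ≤ p)), norm_one]
  rw [h2, mul_one, ← norm_mul, ← hr2]
  exact (lp.norm_apply_le_norm ne_zero' _ _).trans (norm_le_pi_norm _ _)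

/-- the main dichotomy -/
theorem dichotomy (hp : p ≠ ⊤) (ω : Fin k → ℤ → 𝕂) (hω : ∀ j n, ω j n ≠ 0)
    (P : (Fin k → lp (fun _ : ℤ => 𝕂) p) →L[𝕂] (Fin k → lp (fun _ : ℤ => 𝕂) p))
    (hP : ∀ y j n, P y j n = ω j (n + 1) * y j (n + 1)) (hcl : IsClosed (Bdd P : Set (Fin k → lp (fun _ : ℤ => 𝕂) p))) (j : Fin k) :
    (∀ y ∈ Bdd P, y j = 0) ∨ ∀ z : lp (fun _ : ℤ => 𝕂) p, Pi.single j z ∈ Bdd P := by
  by_cases h : ∀ y ∈ Bdd P, y j = 0
  · exact Or.inl h
  · right
    push Not at h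
    obtain ⟨y, ⟨C, hC⟩, hyj⟩ := h
    obtain ⟨n₀, hn₀⟩ : ∃ n₀, y j n₀ ≠ 0 := by
      by_contra hcon
      push Not at hcon
      apply hyj
      ext n
      exact hcon n
    set s : ℤ → (Fin k → lp (fun _ : ℤ => 𝕂) p) := fun n => Pi.single j (lp.single p n (1 : 𝕂)) with hs
    have hPs : ∀ n, P (s n) = ω j n • s (n - 1) := fun n => P_single ω P hP j n
    have h0 : s n₀ ∈ Bdd P := by
      refine ⟨C / ‖y j n₀‖, fun m => ?_⟩
      rw [le_div_iff₀ (norm_pos_iff.2 hn₀)]
      exact (P_lower ω P hP j n₀ y m).trans (hC m)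
    have hdown : ∀ n, s n ∈ Bdd P → s (n - 1) ∈ Bdd P := by
      rintro n ⟨D, hD⟩
      refine ⟨D / ‖ω j n‖, fun m => ?_⟩
      rw [le_div_iff₀ (norm_pos_iff.2 (hω j n))]
      have h1 := hD (m + 1)
      rw [pow_succ, mul_apply_eq_comp, hPs, map_smul, norm_smul] at h1
      linarith
    have hup : ∀ n, s (n - 1) ∈ Bdd P → s n ∈ Bdd P := by
      rintro n ⟨D, hD⟩
      refine ⟨max ‖s n‖ (‖ω j n‖ * D), fun m => ?_⟩
      rcases m with _ | m
      · exact le_max_left _ _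
      · rw [pow_succ, mul_apply_eq_comp, hPs, map_smul, norm_smul]
        exact (mul_le_mul_of_nonneg_left (hD m) (norm_nonneg _)).trans (le_max_right _ _)
    have hall : ∀ n, s n ∈ Bdd P := by
      have h1 : ∀ i : ℕ, s (n₀ + i) ∈ Bdd P := by
        intro i
        induction i with
        | zero => simpa using h0
        | succ i ih =>
          apply hup
          have : n₀ + ((i + 1 : ℕ) : ℤ) - 1 = n₀ + i := by push_cast; ring
          rw [this]
          exact ih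
      have h2 : ∀ i : ℕ, s (n₀ - i) ∈ Bdd P := by
        intro i
        induction i with
        | zero => simpa using h0
        | succ i ih =>
          have : n₀ - ((i + 1 : ℕ) : ℤ) = n₀ - i - 1 := by push_cast; ring
          rw [this]
          exact hdown _ ih
      intro n
      rcases le_total n₀ n with hn | hn
      · have := h1 (n - n₀).toNat
        rwa [Int.toNat_of_nonneg (by omega), add_sub_cancel] at this
      · have := h2 (n₀ - n).toNat
        rwa [Int.toNat_of_nonneg (by omega), sub_sub_cancel] at this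
    intro z
    have h1 : HasSum (fun i => lp.single p i (z i : 𝕂)) z := lp.hasSum_single hp z
    have h2 : HasSum (fun i => (Pi.single j (lp.single p i (z i : 𝕂)) : Fin k → lp (fun _ : ℤ => 𝕂) p))
        (Pi.single j z) := by
      rw [Pi.hasSum]
      intro i
      by_cases hi : i = j
      · subst hi; simpa using h1
      · simp only [Pi.single_eq_of_ne hi]
        exact hasSum_zero
    refine hcl.mem_of_tendsto h2 (Filter.Eventually.of_forall fun S => ?_)
    refine Submodule.sum_mem _ fun i _ => ?_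
    have h3 : (Pi.single j (lp.single p i (z i : 𝕂)) : Fin k → lp (fun _ : ℤ => 𝕂) p) = z i • s i := by
      rw [hs]
      simp only
      rw [← Pi.single_smul, ← lp.single_smul, smul_eq_mul, mul_one]
    rw [h3]
    exact Submodule.smul_mem _ _ (hall i)

/-- **no conjugacy** -/
theorem no_conj (hp : p ≠ ⊤) (T : lp (fun _ : ℤ => E2 𝕂) p →L[𝕂] lp (fun _ : ℤ => E2 𝕂) p)
    (hT : ∀ x n, T x n = J 𝕂 (x (n + 1))) (ω : Fin k → ℤ → 𝕂) (hω : ∀ j n, ω j n ≠ 0)
    (P : (Fin k → lp (fun _ : ℤ => 𝕂) p) →L[𝕂] (Fin k → lp (fun _ : ℤ => 𝕂) p))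
    (hP : ∀ y j n, P y j n = ω j (n + 1) * y j (n + 1))
    (H : lp (fun _ : ℤ => E2 𝕂) p ≃L[𝕂] (Fin k → lp (fun _ : ℤ => 𝕂) p))
    (hH : ∀ x, H (T x) = P (H x)) : False := by
  classical
  have hHm : ∀ m x, H ((T ^ m) x) = (P ^ m) (H x) := by
    intro m
    induction m with
    | zero => intro x; rfl
    | succ m ih => intro x; rw [pow_succ', mul_apply_eq_comp, hH, ih, pow_succ', mul_apply_eq_comp]
  have hBH : ∀ x, x ∈ Bdd T ↔ H x ∈ Bdd P := by
    intro x
    constructor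
    · rintro ⟨C, hC⟩
      refine ⟨‖(H : lp (fun _ : ℤ => E2 𝕂) p →L[𝕂] (Fin k → lp (fun _ : ℤ => 𝕂) p))‖ * C, fun m => ?_⟩
      rw [← hHm]
      exact ((H : lp (fun _ : ℤ => E2 𝕂) p →L[𝕂] (Fin k → lp (fun _ : ℤ => 𝕂) p)).le_opNorm _).trans
        (mul_le_mul_of_nonneg_left (hC m) (norm_nonneg _))
    · rintro ⟨C, hC⟩
      refine ⟨‖(H.symm : (Fin k → lp (fun _ : ℤ => 𝕂) p) →L[𝕂] lp (fun _ : ℤ => E2 𝕂) p)‖ * C,
        fun m => ?_⟩
      have h1 : (T ^ m) x = H.symm ((P ^ m) (H x)) := by rw [← hHm, H.symm_apply_apply]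
      rw [h1]
      exact ((H.symm : (Fin k → lp (fun _ : ℤ => 𝕂) p) →L[𝕂] lp (fun _ : ℤ => E2 𝕂) p).le_opNorm _).trans
        (mul_le_mul_of_nonneg_left (hC m) (norm_nonneg _))
  have hcl : IsClosed (Bdd P : Set (Fin k → lp (fun _ : ℤ => 𝕂) p)) := by
    have h1 : (Bdd P : Set (Fin k → lp (fun _ : ℤ => 𝕂) p)) =
        ⋂ n : ℤ, {y | (H.symm y n) 1 = 0} := by
      ext y
      rw [Set.mem_iInter]
      have h2 := hBH (H.symm y)
      rw [H.apply_symm_apply, bdd_iff hp T hT] at h2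
      exact h2.symm
    rw [h1]
    refine isClosed_iInter fun n => ?_
    have h3 : Continuous fun y => (H.symm y n) 1 := by
      have h4 : Continuous fun v : E2 𝕂 => v 1 := (EuclideanSpace.proj (1 : Fin 2) : E2 𝕂 →L[𝕂] 𝕂).continuous
      have h5 : Continuous fun x : lp (fun _ : ℤ => E2 𝕂) p => x n :=
        (lp.evalCLM 𝕂 (fun _ : ℤ => E2 𝕂) p n).continuous
      exact h4.comp (h5.comp H.symm.continuous)
    exact isClosed_eq h3 continuous_const
  -- the set of bounded factors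
  set S : Finset (Fin k) := Finset.univ.filter fun j =>
    ∀ z : lp (fun _ : ℤ => 𝕂) p, Pi.single j z ∈ Bdd P with hS
  have hS1 : ∀ j ∈ S, ∀ z, Pi.single j z ∈ Bdd P := fun j hj => (Finset.mem_filter.1 hj).2
  have hS2 : ∀ j, j ∉ S → ∀ y ∈ Bdd P, y j = 0 := by
    intro j hj
    rcases dichotomy hp ω hω P hP hcl j with h | h
    · exact h
    · exact absurd (Finset.mem_filter.2 ⟨Finset.mem_univ _, h⟩) hj
  -- the vector
  set x : lp (fun _ : ℤ => E2 𝕂) p := lp.single p 0 (EuclideanSpace.single 1 1) with hx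
  set y := H x with hy
  set z : Fin k → lp (fun _ : ℤ => 𝕂) p := fun j => if j ∈ S then 0 else y j with hz
  have hyz : y - z ∈ Bdd P := by
    have h1 : y - z = ∑ j ∈ S, Pi.single j (y j) := by
      ext i
      rw [Pi.sub_apply, Finset.sum_apply]
      by_cases hi : i ∈ S
      · rw [Finset.sum_eq_single_of_mem i hi (fun j _ hj => Pi.single_eq_of_ne hj.symm _),
          Pi.single_eq_same, hz]
        simp only
        rw [if_pos hi, sub_zero]
      · rw [Finset.sum_eq_zero (fun j hj => Pi.single_eq_of_ne (fun h : i = j => hi (by rw [h]; exact hj)) _), hz]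
        simp only
        rw [if_neg hi, sub_self]
    rw [h1]
    exact Submodule.sum_mem _ fun j hj => hS1 j hj _
  have hzB : z ∈ Bdd P := by
    refine ⟨‖(H : lp (fun _ : ℤ => E2 𝕂) p →L[𝕂] (Fin k → lp (fun _ : ℤ => 𝕂) p))‖, fun m => ?_⟩
    -- split the orbit of `x`
    set a : lp (fun _ : ℤ => E2 𝕂) p := lp.single p (-(m : ℤ)) (EuclideanSpace.single 0 (m : 𝕂)) with ha
    set b : lp (fun _ : ℤ => E2 𝕂) p := lp.single p (-(m : ℤ)) (EuclideanSpace.single 1 1) with hb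
    have h1 : (T ^ m) x = a + b := by
      ext n i
      have h2 := pow_formula T hT m x n
      rw [lp.coeFn_add, Pi.add_apply, PiLp.add_apply, ha, hb, lp.single_apply, lp.single_apply]
      have h3 : ∀ l i, (x l) i = if l = 0 then (if i = 1 then 1 else 0) else 0 := by
        intro l i
        rw [hx, lp.single_apply, Pi.single_apply]
        split_ifs with h4 h5
        · subst h5; simp
        · simp [h5]
        · rfl
      have h4 : (n + (m : ℤ) = 0) ↔ n = -(m : ℤ) := by omega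
      fin_cases i
      · change ((T ^ m) x n) 0 = _
        rw [h2.1, h3, h3]
        simp only [h4]
        by_cases hn : n = -(m : ℤ)
        · subst hn; simp
        · simp [hn]
      · change ((T ^ m) x n) 1 = _
        rw [h2.2, h3]
        simp only [h4]
        by_cases hn : n = -(m : ℤ)
        · subst hn; simp
        · simp [hn]
    have haB : a ∈ Bdd T := by
      rw [bdd_iff hp T hT]
      intro n
      rw [ha, lp.single_apply, Pi.single_apply]
      split_ifs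
      · simp
      · rfl
    have hb1 : ‖b‖ = 1 := by
      rw [hb, lp.norm_single (zero_lt_one.trans_le (Fact.out : 1 ≤ p))]
      simp
    have h5 : (P ^ m) z = fun j => if j ∈ S then 0 else (H b) j := by
      rw [hz, P_comm ω P hP y S m, hy, ← hHm, h1, map_add]
      funext j
      split_ifs with hj
      · rfl
      · rw [Pi.add_apply, hS2 j hj _ ((hBH a).1 haB), zero_add]
    rw [h5, pi_norm_le_iff_of_nonneg (norm_nonneg _)]
    intro j
    split_ifs
    · rw [norm_zero]; exact norm_nonneg _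
    · have h6 := (H : lp (fun _ : ℤ => E2 𝕂) p →L[𝕂] (Fin k → lp (fun _ : ℤ => 𝕂) p)).le_opNorm b
      rw [hb1, mul_one] at h6
      exact (norm_le_pi_norm _ j).trans h6
  have hyB : H x ∈ Bdd P := by
    have : y = (y - z) + z := by abel
    rw [← hy, this]
    exact Submodule.add_mem _ hyz hzB
  have hxB := (bdd_iff hp T hT x).1 ((hBH x).2 hyB) 0
  rw [hx, lp.single_apply_self] at hxB
  simp at hxB

end Pool.Agent.Q201.MatShift
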