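import Mathlib
import Pool.Agent.Q201.Newton

/-!
# Multiple recurrence of `I + T` when `T` has a dense backward chain
-/

set_option autoImplicit false

open Filter Topology Polynomial

namespace Pool.Agent.Q201.MultRec

open Pool.Agent.Q201.Newton

variable {𝕂 : Type} [RCLike 𝕂]

/-! ### Newton coefficients of the binomial polynomials -/

theorem c_eval_zero (j : ℕ) : (c 𝕂 (j + 1)).eval 0 = 0 := by
  induction j with
  | zero => simp [c_succ, c_zero]
  | succ j ih => rw [c_succ]; simp [ih]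

theorem diff_c_add (l m : ℕ) :
    (fwdDiff (1 : 𝕂))^[l] (fun y => (c 𝕂 (m + l)).eval y) = fun y => (c 𝕂 m).eval y := by
  induction l with
  | zero => rfl
  | succ l ih => rw [Function.iterate_succ_apply, ← add_assoc, fwdDiff_c_succ, ih]

theorem diff_c (l m : ℕ) : (fwdDiff (1 : 𝕂))^[l] (fun y => (c 𝕂 m).eval y) 0 = if l = m then 1 else 0 := by
  rcases lt_trichotomy l m with h | h | h
  · obtain ⟨j, rfl⟩ : ∃ j, m = (j + 1) + l := ⟨m - l - 1, by omega⟩
    rw [diff_c_add, if_neg (by omega)]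
    exact c_eval_zero j
  · subst h
    have := diff_c_add (𝕂 := 𝕂) l 0
    rw [zero_add] at this
    rw [this, if_pos rfl, c_zero]
    exact eval_one
  · rw [if_neg (by omega)]
    have := Polynomial.fwdDiff_iter_eq_zero_of_degree_lt (lt_of_le_of_lt (c_natDegree (𝕂 := 𝕂) m) h)
    exact congrFun this 0

/-! ### Hermite interpolation -/

/-- a polynomial `R` with `R(s) = 0`, `R'(s) = 1` for `s ≤ N`, in factorised form -/
theorem exists_R (N : ℕ) : ∃ R : 𝕂[X], ∀ s ≤ N, ∃ G : 𝕂[X],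
    R = (X - C (s : 𝕂)) * G ∧ G.eval (s : 𝕂) = 1 := by
  classical
  set q : ℕ → 𝕂 := fun s => (∏ r ∈ (Finset.range (N + 1)).erase s, ((s : 𝕂) - r))⁻¹ with hq
  set Q : 𝕂[X] := Lagrange.interpolate (Finset.range (N + 1)) (fun i : ℕ => (i : 𝕂)) q with hQ
  have hinj : Set.InjOn (fun i : ℕ => (i : 𝕂)) (Finset.range (N + 1) : Finset ℕ) :=
    fun a _ b _ h => Nat.cast_injective h
  refine ⟨(∏ r ∈ Finset.range (N + 1), (X - C (r : 𝕂))) * Q, fun s hs => ?_⟩
  have hs' : s ∈ Finset.range (N + 1) := Finset.mem_range.2 (by omega)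
  refine ⟨(∏ r ∈ (Finset.range (N + 1)).erase s, (X - C (r : 𝕂))) * Q, ?_, ?_⟩
  · rw [← mul_assoc, Finset.mul_prod_erase _ (fun r : ℕ => (X - C (r : 𝕂))) hs']
  · rw [eval_mul, eval_prod]
    have h1 : Q.eval (s : 𝕂) = q s := Lagrange.eval_interpolate_at_node q hinj hs'
    rw [h1, hq]
    simp only [eval_sub, eval_X, eval_C]
    apply mul_inv_cancel₀
    rw [Finset.prod_ne_zero_iff]
    intro r hr
    rw [sub_ne_zero]
    intro h
    exact (Finset.mem_erase.1 hr).1 (Nat.cast_injective h).symm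

/-- the rescaled polynomial -/
noncomputable def Yr (R : 𝕂[X]) (k : ℕ) : 𝕂[X] := C (k : 𝕂) * R.comp (C ((k : 𝕂)⁻¹) * X)

theorem Yr_eval (R : 𝕂[X]) (k : ℕ) (y : 𝕂) : (Yr R k).eval y = k * R.eval ((k : 𝕂)⁻¹ * y) := by
  unfold Yr
  simp only [eval_mul, eval_comp, eval_C, eval_X]

theorem Yr_natDegree (R : 𝕂[X]) (k : ℕ) : (Yr R k).natDegree ≤ R.natDegree := by
  unfold Yr
  refine (natDegree_C_mul_le _ _).trans (natDegree_comp_le.trans ?_)
  calc _ ≤ R.natDegree * 1 := Nat.mul_le_mul_left _ ((natDegree_C_mul_le _ _).trans natDegree_X_le)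
    _ = _ := mul_one _

theorem Yr_tendsto (R G : 𝕂[X]) (s i : ℕ) (h1 : R = (X - C (s : 𝕂)) * G) (h2 : G.eval (s : 𝕂) = 1) :
    Tendsto (fun k : ℕ => (Yr R k).eval (((k * s : ℕ) : 𝕂) + (i : 𝕂))) atTop (𝓝 (0 + (i : 𝕂))) := by
  have h3 : (fun k : ℕ => (i : 𝕂) * G.eval ((s : 𝕂) + (k : 𝕂)⁻¹ * i)) =ᶠ[atTop]
      fun k : ℕ => (Yr R k).eval (((k * s : ℕ) : 𝕂) + (i : 𝕂)) := by
    filter_upwards [eventually_gt_atTop 0] with k hk
    have hk0 : (k : 𝕂) ≠ 0 := Nat.cast_ne_zero.2 (by omega)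
    rw [Yr_eval]
    have e1 : (k : 𝕂)⁻¹ * (((k * s : ℕ) : 𝕂) + (i : 𝕂)) = (s : 𝕂) + (k : 𝕂)⁻¹ * i := by
      push_cast
      rw [mul_add, inv_mul_cancel_left₀ hk0]
    rw [e1, h1, eval_mul, eval_sub, eval_X, eval_C, add_sub_cancel_left, ← mul_assoc, ← mul_assoc,
      mul_inv_cancel₀ hk0, one_mul]
  refine Tendsto.congr' h3 ?_
  have h4 : Tendsto (fun k : ℕ => (s : 𝕂) + (k : 𝕂)⁻¹ * i) atTop (𝓝 ((s : 𝕂) + 0 * i)) :=
    ((inv_tendsto (𝕂 := 𝕂)).mul_const (i : 𝕂)).const_add _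
  rw [zero_mul, add_zero] at h4
  have h5 := ((G.continuous.tendsto (s : 𝕂)).comp h4).const_mul (i : 𝕂)
  rw [h2, mul_one] at h5
  rw [zero_add]
  exact h5

/-! ### the general theorem -/

variable {E : Type*} [NormedAddCommGroup E] [NormedSpace 𝕂 E]

theorem S_apply (T : E →L[𝕂] E) (f : ℕ → E) (h0 : T (f 0) = 0) (h1 : ∀ l, T (f (l + 1)) = f l)
    (a : ℕ → 𝕂) (D : ℕ) (ha : a D = 0) :
    (1 + T) (∑ l ∈ Finset.range D, a l • f l) = ∑ l ∈ Finset.range D, (a l + a (l + 1)) • f l := by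
  have h2 : ∀ D, T (∑ l ∈ Finset.range (D + 1), a l • f l) = ∑ l ∈ Finset.range D, a (l + 1) • f l := by
    intro D
    rw [map_sum, Finset.sum_range_succ', map_smul, h0, smul_zero, add_zero]
    exact Finset.sum_congr rfl fun l _ => by rw [map_smul, h1]
  have h3 : ∀ z : E, (1 + T) z = z + T z := fun z => rfl
  have h4 : T (∑ l ∈ Finset.range D, a l • f l) = ∑ l ∈ Finset.range D, a (l + 1) • f l := by
    rw [← h2 D, Finset.sum_range_succ, ha, zero_smul, add_zero]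
  rw [h3, h4, ← Finset.sum_add_distrib]
  exact Finset.sum_congr rfl fun l _ => (add_smul _ _ _).symm

theorem S_pow_apply (T : E →L[𝕂] E) (f : ℕ → E) (h0 : T (f 0) = 0) (h1 : ∀ l, T (f (l + 1)) = f l)
    (P : 𝕂[X]) (D : ℕ) (hD : P.natDegree < D) (n : ℕ) :
    ((1 + T) ^ n) (∑ l ∈ Finset.range D, (fwdDiff (1 : 𝕂))^[l] (fun y => P.eval y) 0 • f l) =
      ∑ l ∈ Finset.range D, (fwdDiff (1 : 𝕂))^[l] (fun y => P.eval y) (n : 𝕂) • f l := by
  induction n with
  | zero =>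
    rw [Nat.cast_zero]
    rfl
  | succ n ih =>
    rw [pow_succ', mul_apply_eq_comp, ih, S_apply T f h0 h1 (fun l => (fwdDiff (1 : 𝕂))^[l]
      (fun y => P.eval y) (n : 𝕂)) D]
    · refine Finset.sum_congr rfl fun l _ => ?_
      congr 1
      rw [Function.iterate_succ_apply']
      unfold fwdDiff
      push_cast
      ring
    · have := Polynomial.fwdDiff_iter_eq_zero_of_degree_lt hD
      exact congrFun this _

/-- **multiple recurrence**: if `T f₀ = 0`, `T f_{l+1} = f_l` and the span of the `f_l` is dense -/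
theorem mult_rec (T : E →L[𝕂] E) (f : ℕ → E) (h0 : T (f 0) = 0) (h1 : ∀ l, T (f (l + 1)) = f l)
    (hd : Dense (Submodule.span 𝕂 (Set.range f) : Set E)) (U : Set E) (hU : IsOpen U)
    (hUn : U.Nonempty) (N : ℕ) :
    ∃ k₀ : ℕ, ∀ k, k₀ ≤ k → ∃ x : E, ∀ s ≤ N, ((1 + T) ^ (k * s)) x ∈ U := by
  obtain ⟨u, hu, huU⟩ := hd.inter_open_nonempty U hU hUn |>.imp fun _ h => And.symm h
  obtain ⟨b, hb⟩ := Finsupp.mem_span_range_iff_exists_finsupp.1 hu
  obtain ⟨d, hdb⟩ := b.support.exists_nat_subset_range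
  have hu' : u = ∑ l ∈ Finset.range d, b l • f l := by
    rw [← hb]
    exact Finsupp.sum_of_support_subset b hdb (fun i a => a • f i) (fun i _ => zero_smul 𝕂 _)
  have hb0 : ∀ l, d ≤ l → b l = 0 := by
    intro l hl
    by_contra hne
    have := hdb (Finsupp.mem_support_iff.2 hne)
    rw [Finset.mem_range] at this
    omega
  obtain ⟨R, hR⟩ := exists_R (𝕂 := 𝕂) N
  set p : 𝕂[X] := ∑ m ∈ Finset.range d, b m • c 𝕂 m with hp
  set D : ℕ := p.natDegree * R.natDegree + d + 1 with hDdef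
  have hpl : ∀ l, (fwdDiff (1 : 𝕂))^[l] (fun y => p.eval y) 0 = b l := by
    intro l
    have e1 : (fun y => p.eval y) = ∑ m ∈ Finset.range d, b m • fun y => (c 𝕂 m).eval y := by
      funext y
      rw [hp, eval_finsetSum, Finset.sum_apply]
      exact Finset.sum_congr rfl fun m _ => by rw [eval_smul, Pi.smul_apply]
    rw [e1, fwdDiff_iter_finsetSum, Finset.sum_apply]
    have e2 : ∀ m, (fwdDiff (1 : 𝕂))^[l] (b m • fun y => (c 𝕂 m).eval y) 0 = if l = m then b m else 0 := by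
      intro m
      rw [fwdDiff_iter_const_smul, Pi.smul_apply, diff_c]
      split_ifs
      · rw [smul_eq_mul, mul_one]
      · rw [smul_zero]
    simp only [e2, Finset.sum_ite_eq, Finset.mem_range]
    split_ifs with h
    · rfl
    · exact (hb0 l (by omega)).symm
  have hlim : ∀ s ≤ N, Tendsto (fun k : ℕ => ∑ l ∈ Finset.range D,
      (fwdDiff (1 : 𝕂))^[l] (fun y => (p.comp (Yr R k)).eval y) ((k * s : ℕ) : 𝕂) • f l) atTop (𝓝 u) := by
    intro s hs
    obtain ⟨G, hG1, hG2⟩ := hR s hs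
    have e1 : u = ∑ l ∈ Finset.range D, b l • f l := by
      rw [hu']
      refine Finset.sum_subset (fun l hl => ?_) fun l _ hl => ?_
      · rw [Finset.mem_range] at hl ⊢
        omega
      · rw [Finset.mem_range] at hl
        rw [hb0 l (by omega), zero_smul]
    rw [e1]
    refine tendsto_finsetSum _ fun l _ => Tendsto.smul_const ?_ _
    rw [← hpl l]
    refine diff_tendsto (fun (k : ℕ) (y : 𝕂) => (p.comp (Yr R k)).eval y)
      (fun k : ℕ => ((k * s : ℕ) : 𝕂)) (fun y => p.eval y) 0 (fun i => ?_) l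
    simp only [eval_comp]
    exact (p.continuous.tendsto _).comp (Yr_tendsto R G s i hG1 hG2)
  have hev : ∀ᶠ k : ℕ in atTop, ∀ s ∈ Finset.range (N + 1), ∑ l ∈ Finset.range D,
      (fwdDiff (1 : 𝕂))^[l] (fun y => (p.comp (Yr R k)).eval y) ((k * s : ℕ) : 𝕂) • f l ∈ U := by
    rw [Filter.eventually_all_finset]
    intro s hs
    rw [Finset.mem_range] at hs
    exact (hlim s (by omega)).eventually (hU.mem_nhds huU)
  obtain ⟨k₀, hk₀⟩ := eventually_atTop.1 hev
  refine ⟨k₀, fun k hk => ⟨∑ l ∈ Finset.range D,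
    (fwdDiff (1 : 𝕂))^[l] (fun y => (p.comp (Yr R k)).eval y) 0 • f l, fun s hs => ?_⟩⟩
  rw [S_pow_apply T f h0 h1 (p.comp (Yr R k)) D]
  · exact hk₀ k hk s (Finset.mem_range.2 (by omega))
  · have : (p.comp (Yr R k)).natDegree ≤ p.natDegree * R.natDegree :=
      natDegree_comp_le.trans (Nat.mul_le_mul_left _ (Yr_natDegree R k))
    omega

end Pool.Agent.Q201.MultRec
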