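import Mathlib

/-!
# Real functions with Taylor series of radius zero at every point
-/

set_option autoImplicit false

open Filter Topology

namespace Pool.Agent.Q201.Prings

/-- rapidly increasing integers -/
def cc : ℕ → ℕ
  | 0 => 2
  | n + 1 => 2 * (n + 1) ^ 2 * (n + 1) ^ (2 * (n + 1) + 2) * (2 * (n + 1) + 1).factorial *
      (cc n) ^ (4 * (n + 1) + 3)

theorem cc_succ (n : ℕ) : cc (n + 1) = 2 * (n + 1) ^ 2 * (n + 1) ^ (2 * (n + 1) + 2) *
    (2 * (n + 1) + 1).factorial * (cc n) ^ (4 * (n + 1) + 3) := rfl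

theorem cc_ge_two (n : ℕ) : 2 ≤ cc n := by
  induction n with
  | zero => exact le_rfl
  | succ n ih =>
    rw [cc_succ]
    have h1 : 1 ≤ (n + 1) ^ 2 := Nat.one_le_pow _ _ (by omega)
    have h2 : 1 ≤ (n + 1) ^ (2 * (n + 1) + 2) := Nat.one_le_pow _ _ (by omega)
    have h3 : 1 ≤ (2 * (n + 1) + 1).factorial := Nat.factorial_pos _
    have h4 : 1 ≤ (cc n) ^ (4 * (n + 1) + 3) := Nat.one_le_pow _ _ (by omega)
    calc 2 = 2 * 1 * 1 * 1 * 1 := rfl
      _ ≤ _ := by gcongr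

theorem cc_step (n : ℕ) : 2 * cc n ≤ cc (n + 1) := by
  rw [cc_succ]
  have h0 := cc_ge_two n
  have h1 : 1 ≤ (n + 1) ^ 2 := Nat.one_le_pow _ _ (by omega)
  have h2 : 1 ≤ (n + 1) ^ (2 * (n + 1) + 2) := Nat.one_le_pow _ _ (by omega)
  have h3 : 1 ≤ (2 * (n + 1) + 1).factorial := Nat.factorial_pos _
  have h4 : cc n ≤ (cc n) ^ (4 * (n + 1) + 3) := Nat.le_self_pow (by omega) _
  calc 2 * cc n = 2 * 1 * 1 * 1 * cc n := by ring
    _ ≤ _ := by gcongr

theorem cc_mono : Monotone cc := monotone_nat_of_le_succ fun n => by have := cc_step n; omega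

theorem cc_ge_pow (n : ℕ) : 2 ^ n ≤ cc n := by
  induction n with
  | zero => norm_num [cc]
  | succ n ih => have := cc_step n; rw [pow_succ]; omega

theorem cc_ge_fact (n : ℕ) (hn : 1 ≤ n) : n ^ (2 * n + 2) * (2 * n + 1).factorial ≤ cc n := by
  obtain ⟨m, rfl⟩ : ∃ m, n = m + 1 := ⟨n - 1, by omega⟩
  rw [cc_succ]
  have h1 : 1 ≤ (m + 1) ^ 2 := Nat.one_le_pow _ _ (by omega)
  have h4 : 1 ≤ (cc m) ^ (4 * (m + 1) + 3) := Nat.one_le_pow _ _ (by have := cc_ge_two m; omega)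
  calc (m + 1) ^ (2 * (m + 1) + 2) * (2 * (m + 1) + 1).factorial
      = 1 * 1 * (m + 1) ^ (2 * (m + 1) + 2) * (2 * (m + 1) + 1).factorial * 1 := by ring
    _ ≤ _ := by gcongr; norm_num

theorem cc_ge_prev (n : ℕ) (hn : 1 ≤ n) : n * n * (cc (n - 1)) ^ (4 * n + 3) ≤ cc n := by
  obtain ⟨m, rfl⟩ : ∃ m, n = m + 1 := ⟨n - 1, by omega⟩
  rw [cc_succ, Nat.add_sub_cancel]
  have h2 : 1 ≤ (m + 1) ^ (2 * (m + 1) + 2) := Nat.one_le_pow _ _ (by omega)
  have h3 : 1 ≤ (2 * (m + 1) + 1).factorial := Nat.factorial_pos _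
  calc (m + 1) * (m + 1) * (cc m) ^ (4 * (m + 1) + 3)
      = 1 * (m + 1) ^ 2 * 1 * 1 * (cc m) ^ (4 * (m + 1) + 3) := by ring
    _ ≤ _ := by gcongr; norm_num

/-- `a_n b_n^k` -/
noncomputable def ab (n k : ℕ) : ℝ := (cc n : ℝ) ^ (2 * k + 1) / (cc n : ℝ) ^ (4 * n)

/-- frequencies -/
noncomputable def bb (n : ℕ) : ℝ := (cc n : ℝ) ^ 2

theorem cc_pos (n : ℕ) : (0 : ℝ) < cc n := by
  have := cc_ge_two n
  exact_mod_cast (by omega : 0 < cc n)

theorem cc_one (n : ℕ) : (1 : ℝ) ≤ cc n := by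
  have := cc_ge_two n
  exact_mod_cast (by omega : 1 ≤ cc n)

theorem ab_pos (n k : ℕ) : 0 < ab n k := by
  unfold ab
  have := cc_pos n
  positivity

theorem ab_succ (n k : ℕ) : ab n (k + 1) = ab n k * bb n := by
  unfold ab bb
  rw [div_mul_eq_mul_div, ← pow_add]
  congr 2

theorem ab_small (m k : ℕ) (h : k + 1 ≤ 2 * m) : ab m k ≤ (1 / 2) ^ m := by
  have h0 := cc_pos m
  have h1 : ab m k ≤ 1 / cc m := by
    unfold ab
    rw [div_le_div_iff₀ (by positivity) h0, ← pow_succ, one_mul]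
    exact pow_le_pow_right₀ (cc_one m) (by omega)
  refine h1.trans ?_
  rw [one_div_pow]
  apply one_div_le_one_div_of_le (by positivity)
  exact_mod_cast cc_ge_pow m

theorem ab_summable (k : ℕ) : Summable fun n => ab n k := by
  refine Summable.of_norm_bounded_eventually_nat (g := fun n => (1 / 2 : ℝ) ^ n)
    (summable_geometric_of_lt_one (by norm_num) (by norm_num)) ?_
  filter_upwards [eventually_ge_atTop (k + 1)] with n hn
  rw [Real.norm_of_nonneg (ab_pos _ _).le]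
  exact ab_small n k (by omega)

theorem ab_tail (n k : ℕ) (h : k ≤ 2 * n + 1) : ∑' m, ab (m + (n + 1)) k ≤ 1 := by
  have h1 : ∀ m, ab (m + (n + 1)) k ≤ (1 / 2) ^ (n + 1) * (1 / 2) ^ m := by
    intro m
    refine (ab_small _ _ (by omega)).trans ?_
    rw [pow_add, mul_comm]
  have hs := (summable_nat_add_iff (n + 1)).2 (ab_summable k)
  have hg : Summable fun m : ℕ => (1 / 2 : ℝ) ^ (n + 1) * (1 / 2) ^ m :=
    (summable_geometric_of_lt_one (by norm_num) (by norm_num)).mul_left _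
  refine (hs.tsum_le_tsum h1 hg).trans ?_
  rw [tsum_mul_left, tsum_geometric_of_lt_one (by norm_num) (by norm_num)]
  have : (1 / 2 : ℝ) ^ (n + 1) ≤ 1 / 2 := by
    calc (1 / 2 : ℝ) ^ (n + 1) ≤ (1 / 2) ^ 1 :=
          pow_le_pow_of_le_one (by norm_num) (by norm_num) (by omega)
      _ = _ := pow_one _
  norm_num
  norm_num at this
  linarith

theorem ab_ge (n k : ℕ) (h : 2 * n ≤ k) : (cc n : ℝ) ≤ ab n k := by
  have h0 := cc_pos n
  unfold ab
  rw [le_div_iff₀ (by positivity), ← pow_succ']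
  exact pow_le_pow_right₀ (cc_one n) (by omega)

theorem ab_head (n k : ℕ) (hn : 1 ≤ n) (h : 2 * n ≤ k) (h' : k ≤ 2 * n + 1) :
    ∑ m ∈ Finset.range n, ab m k ≤ ab n k / n := by
  have hn0 : (0 : ℝ) < n := by exact_mod_cast hn
  have h1 : ∀ m ∈ Finset.range n, ab m k ≤ (cc (n - 1) : ℝ) ^ (4 * n + 3) := by
    intro m hm
    rw [Finset.mem_range] at hm
    have h2 : ab m k ≤ (cc m : ℝ) ^ (2 * k + 1) := by
      unfold ab
      exact div_le_self (pow_nonneg (cc_pos m).le _) (one_le_pow₀ (cc_one m))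
    have h3 : (cc m : ℝ) ≤ cc (n - 1) := by exact_mod_cast cc_mono (by omega : m ≤ n - 1)
    calc ab m k ≤ (cc m : ℝ) ^ (2 * k + 1) := h2
      _ ≤ (cc (n - 1) : ℝ) ^ (2 * k + 1) := pow_le_pow_left₀ (cc_pos m).le h3 _
      _ ≤ (cc (n - 1) : ℝ) ^ (4 * n + 3) := pow_le_pow_right₀ (cc_one _) (by omega)
  refine (Finset.sum_le_sum h1).trans ?_
  rw [Finset.sum_const, Finset.card_range, nsmul_eq_mul, le_div_iff₀ hn0]
  have h4 : ((n * n * (cc (n - 1)) ^ (4 * n + 3) : ℕ) : ℝ) ≤ cc n := by exact_mod_cast cc_ge_prev n hn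
  push_cast at h4
  have h5 := ab_ge n k h
  calc (n : ℝ) * (cc (n - 1) : ℝ) ^ (4 * n + 3) * n = n * n * (cc (n - 1) : ℝ) ^ (4 * n + 3) := by ring
    _ ≤ _ := h4.trans h5

theorem ab_fact (n k : ℕ) (hn : 1 ≤ n) (h : 2 * n ≤ k) (h' : k ≤ 2 * n + 1) :
    (n : ℝ) ^ (k + 1) * k.factorial ≤ ab n k := by
  have h4 : ((n ^ (2 * n + 2) * (2 * n + 1).factorial : ℕ) : ℝ) ≤ cc n := by
    exact_mod_cast cc_ge_fact n hn
  push_cast at h4
  refine le_trans ?_ (h4.trans (ab_ge n k h))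
  have hn1 : (1 : ℝ) ≤ n := by exact_mod_cast hn
  have h5 : (n : ℝ) ^ (k + 1) ≤ n ^ (2 * n + 2) := pow_le_pow_right₀ hn1 (by omega)
  have h6 : (k.factorial : ℝ) ≤ (2 * n + 1).factorial := by exact_mod_cast Nat.factorial_le h'
  exact mul_le_mul h5 h6 (by positivity) (by positivity)

/-! ### the functions -/

/-- the terms of the `k`-th derivative -/
noncomputable def term (w : ℕ → ℝ) (k n : ℕ) (x : ℝ) : ℝ :=
  w n * (ab n k * Real.cos (bb n * x + k * (Real.pi / 2)))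

/-- the `k`-th derivative -/
noncomputable def Fk (w : ℕ → ℝ) (k : ℕ) (x : ℝ) : ℝ := ∑' n, term w k n x

theorem term_le (w : ℕ → ℝ) (A : ℝ) (hw : ∀ n, |w n| ≤ A) (k n : ℕ) (x : ℝ) :
    ‖term w k n x‖ ≤ A * ab n k := by
  unfold term
  rw [Real.norm_eq_abs, abs_mul, abs_mul, abs_of_pos (ab_pos n k)]
  have h1 := Real.abs_cos_le_one (bb n * x + k * (Real.pi / 2))
  have h2 : ab n k * |Real.cos (bb n * x + k * (Real.pi / 2))| ≤ ab n k * 1 :=
    mul_le_mul_of_nonneg_left h1 (ab_pos n k).le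
  rw [mul_one] at h2
  exact mul_le_mul (hw n) h2 (mul_nonneg (ab_pos n k).le (abs_nonneg _)) ((abs_nonneg _).trans (hw n))

theorem term_summable (w : ℕ → ℝ) (A : ℝ) (hw : ∀ n, |w n| ≤ A) (k : ℕ) (x : ℝ) :
    Summable fun n => term w k n x :=
  Summable.of_norm_bounded ((ab_summable k).mul_left A) fun n => term_le w A hw k n x

theorem term_deriv (w : ℕ → ℝ) (k n : ℕ) (x : ℝ) : HasDerivAt (term w k n) (term w (k + 1) n x) x := by
  have h1 : HasDerivAt (fun x : ℝ => bb n * x + k * (Real.pi / 2)) (bb n) x := by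
    have := ((hasDerivAt_id x).const_mul (bb n)).add_const ((k : ℝ) * (Real.pi / 2))
    simpa using this
  have h2 := (h1.cos.const_mul (ab n k)).const_mul (w n)
  have h3 : term w (k + 1) n x =
      w n * (ab n k * (-Real.sin (bb n * x + k * (Real.pi / 2)) * bb n)) := by
    unfold term
    rw [ab_succ]
    have : bb n * x + ((k + 1 : ℕ) : ℝ) * (Real.pi / 2) =
        (bb n * x + k * (Real.pi / 2)) + Real.pi / 2 := by push_cast; ring
    rw [this, Real.cos_add_pi_div_two]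
    ring
  rw [h3]
  exact h2

theorem Fk_deriv (w : ℕ → ℝ) (A : ℝ) (hw : ∀ n, |w n| ≤ A) (k : ℕ) (x : ℝ) :
    HasDerivAt (Fk w k) (Fk w (k + 1) x) x :=
  hasDerivAt_tsum ((ab_summable (k + 1)).mul_left A) (fun n y => term_deriv w k n y)
    (fun n y => term_le w A hw (k + 1) n y) (term_summable w A hw k 0) x

theorem iteratedDeriv_F (w : ℕ → ℝ) (A : ℝ) (hw : ∀ n, |w n| ≤ A) (k : ℕ) :
    iteratedDeriv k (Fk w 0) = Fk w k := by
  induction k with
  | zero => rw [iteratedDeriv_zero]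
  | succ k ih =>
    rw [iteratedDeriv_succ, ih]
    funext x
    exact (Fk_deriv w A hw k x).deriv

theorem contDiff_F (w : ℕ → ℝ) (A : ℝ) (hw : ∀ n, |w n| ≤ A) : ContDiff ℝ (⊤ : ℕ∞) (Fk w 0) := by
  apply contDiff_of_differentiable_iteratedDeriv
  intro m _
  rw [iteratedDeriv_F w A hw]
  exact fun x => (Fk_deriv w A hw m x).differentiableAt

/-- main estimate: one of two consecutive derivatives is large -/
theorem large (w : ℕ → ℝ) (A : ℝ) (hw : ∀ n, |w n| ≤ A) (n : ℕ) (hn : 1 ≤ n) (x : ℝ) :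
    ∃ k, 2 * n ≤ k ∧ k ≤ 2 * n + 1 ∧ (|w n| / 2 - 2 * A / n) * ab n k ≤ |Fk w k x| := by
  set θ := bb n * x + ((2 * n : ℕ) : ℝ) * (Real.pi / 2) with hθ
  obtain ⟨k, hk1, hk2, hk3⟩ : ∃ k : ℕ, 2 * n ≤ k ∧ k ≤ 2 * n + 1 ∧
      1 / 2 ≤ |Real.cos (bb n * x + k * (Real.pi / 2))| := by
    rcases le_or_gt (1 / 2) |Real.cos θ| with h | h
    · exact ⟨2 * n, le_rfl, by omega, h⟩
    · refine ⟨2 * n + 1, by omega, le_rfl, ?_⟩
      have e1 : bb n * x + ((2 * n + 1 : ℕ) : ℝ) * (Real.pi / 2) = θ + Real.pi / 2 := by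
        rw [hθ]; push_cast; ring
      rw [e1, Real.cos_add_pi_div_two, abs_neg]
      by_contra hcon
      push Not at hcon
      have h1 := Real.sin_sq_add_cos_sq θ
      rw [← sq_abs (Real.sin θ), ← sq_abs (Real.cos θ)] at h1
      have h2 := abs_nonneg (Real.sin θ)
      have h3 := abs_nonneg (Real.cos θ)
      nlinarith
  refine ⟨k, hk1, hk2, ?_⟩
  have hA : 0 ≤ A := (abs_nonneg _).trans (hw 0)
  have hn0 : (0 : ℝ) < n := by exact_mod_cast hn
  have hs := term_summable w A hw k x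
  have h1 : Fk w k x = ∑ m ∈ Finset.range n, term w k m x + term w k n x +
      ∑' m, term w k (m + (n + 1)) x := by
    unfold Fk
    rw [← hs.sum_add_tsum_nat_add (n + 1), Finset.sum_range_succ]
  have h2 : |∑ m ∈ Finset.range n, term w k m x| ≤ A * (ab n k / n) := by
    refine (Finset.abs_sum_le_sum_abs _ _).trans ?_
    refine (Finset.sum_le_sum fun m _ => term_le w A hw k m x).trans ?_
    rw [← Finset.mul_sum]
    exact mul_le_mul_of_nonneg_left (ab_head n k hn hk1 hk2) hA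
  have h3 : |∑' m, term w k (m + (n + 1)) x| ≤ A * (ab n k / n) := by
    have hg : Summable fun m => A * ab (m + (n + 1)) k :=
      ((summable_nat_add_iff (n + 1)).2 (ab_summable k)).mul_left A
    have h4 := tsum_of_norm_bounded hg.hasSum (fun m => term_le w A hw k (m + (n + 1)) x)
    rw [Real.norm_eq_abs, tsum_mul_left] at h4
    refine h4.trans (mul_le_mul_of_nonneg_left ?_ hA)
    refine (ab_tail n k hk2).trans ?_
    rw [le_div_iff₀ hn0, one_mul]
    refine le_trans ?_ (ab_ge n k hk1)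
    have h5 : n ≤ cc n := (Nat.lt_two_pow_self).le.trans (cc_ge_pow n)
    exact_mod_cast h5
  have h4 : |w n| / 2 * ab n k ≤ |term w k n x| := by
    unfold term
    rw [abs_mul, abs_mul, abs_of_pos (ab_pos n k)]
    have h5 := mul_le_mul_of_nonneg_left hk3 (mul_nonneg (abs_nonneg (w n)) (ab_pos n k).le)
    linarith
  have h5 : |term w k n x| ≤ |Fk w k x| + |∑ m ∈ Finset.range n, term w k m x| +
      |∑' m, term w k (m + (n + 1)) x| := by
    have e : term w k n x = Fk w k x - ∑ m ∈ Finset.range n, term w k m x -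
        ∑' m, term w k (m + (n + 1)) x := by rw [h1]; ring
    calc |term w k n x| = |Fk w k x - ∑ m ∈ Finset.range n, term w k m x -
        ∑' m, term w k (m + (n + 1)) x| := by rw [← e]
      _ ≤ |Fk w k x - ∑ m ∈ Finset.range n, term w k m x| + |∑' m, term w k (m + (n + 1)) x| := abs_sub _ _
      _ ≤ _ := by linarith [abs_sub (Fk w k x) (∑ m ∈ Finset.range n, term w k m x)]
  have h6 : (|w n| / 2 - 2 * A / n) * ab n k = |w n| / 2 * ab n k - 2 * (A * (ab n k / n)) := by ring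
  rw [h6]
  linarith

/-- **radius zero**: unbounded Taylor coefficients -/
theorem unbounded (w : ℕ → ℝ) (A : ℝ) (hw : ∀ n, |w n| ≤ A) (δ : ℝ) (hδ : 0 < δ)
    (hfreq : ∀ N, ∃ n, N ≤ n ∧ δ ≤ |w n|) (x r : ℝ) (hr : 0 < r) :
    ¬ BddAbove (Set.range fun k : ℕ => |Fk w k x| / k.factorial * r ^ k) := by
  rintro ⟨M, hM⟩
  obtain ⟨N, hN⟩ := exists_nat_gt (max (8 * A / δ) (max (1 / r) (4 * M / δ)))
  obtain ⟨n, hn, hwn⟩ := hfreq (max N 1)
  have hn1 : 1 ≤ n := (le_max_right _ _).trans hn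
  have hNn : (N : ℝ) ≤ n := by exact_mod_cast (le_max_left _ _).trans hn
  have hn0 : (0 : ℝ) < n := by exact_mod_cast hn1
  have hA : 8 * A / δ < n := ((le_max_left _ _).trans_lt hN).trans_le hNn
  have hr' : 1 / r < n := (((le_max_left _ _).trans (le_max_right _ _)).trans_lt hN).trans_le hNn
  have hM' : 4 * M / δ < n := (((le_max_right _ _).trans (le_max_right _ _)).trans_lt hN).trans_le hNn
  obtain ⟨k, hk1, hk2, hk3⟩ := large w A hw n hn1 x
  have h1 : δ / 4 ≤ |w n| / 2 - 2 * A / n := by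
    have : 2 * A / n ≤ δ / 4 := by
      rw [div_lt_iff₀ hδ] at hA
      rw [div_le_iff₀ hn0]
      linarith
    linarith
  have h2 := ab_fact n k hn1 hk1 hk2
  have h3 : δ / 4 * ((n : ℝ) ^ (k + 1) * k.factorial) ≤ |Fk w k x| :=
    (mul_le_mul h1 h2 (by positivity) (by linarith)).trans hk3
  have h4 : |Fk w k x| / k.factorial * r ^ k ≤ M := hM ⟨k, rfl⟩
  have hk0 : (0 : ℝ) < k.factorial := by exact_mod_cast Nat.factorial_pos k
  have h5 : δ / 4 * n * (n * r) ^ k ≤ |Fk w k x| / k.factorial * r ^ k := by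
    rw [mul_pow]
    calc δ / 4 * n * ((n : ℝ) ^ k * r ^ k) = (δ / 4 * ((n : ℝ) ^ (k + 1) * k.factorial)) /
          k.factorial * r ^ k := by field_simp; ring
      _ ≤ _ := by gcongr
  have h6 : 1 ≤ (n : ℝ) * r := by
    rw [div_lt_iff₀ hr] at hr'
    linarith
  have h7 : 1 ≤ ((n : ℝ) * r) ^ k := one_le_pow₀ h6
  have h8 : δ / 4 * n ≤ δ / 4 * n * (n * r) ^ k := le_mul_of_one_le_right (by positivity) h7
  rw [div_lt_iff₀ hδ] at hM'
  linarith

end Pool.Agent.Q201.Prings
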